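import Pool.Agent.Lib.DT.C.Spec

/-!
# Theorem DT, part C, module C2: transformation under `Γ_1(3 M)`

Author helper69, after `DK/C/C2.lean`.
-/

set_option autoImplicit false

open Filter Topology
open scoped Pointwise

noncomputable section

namespace Pool.Agent.DT.C

open Pool.Agent.MuZ Pool.Agent.FW NumberField
open Pool.Agent.DI (io ofC io_inj exists_io io_ofC ofC_io VP MP UP TP ex)

/-- Transformation under `Γ_1(3 M)`, on the upper half plane. -/
theorem tC2 (hT : S_TrS) (hV : S_Val) (hR : S_Red) (hE : S_Ech) (hD : S_Den) (h4 : S_C4)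
    (h2 : S_O2) : S_C2 := by
  have _ := h2
  intro k t _ f M m b hFM hFB _ hLv a b' c d hG hd z hz
  obtain ⟨g, hg⟩ := hFM.four
  have hf2 : Dk k t * f ^ 2 ∣ M := (dvd_mul_right _ _).trans hLv.dvd
  have hfM : f ∣ M := ((dvd_pow_self f two_ne_zero).trans (dvd_mul_left _ _)).trans hf2
  have h4D : 4 * Dk k t ∣ M := by
    refine Dvd.dvd.trans ⟨4 * g ^ 2, ?_⟩ hf2
    rw [hg]
    ring
  have h3 : 3 ≤ M := by
    have h5 := Nat.le_of_dvd hLv.pos hfM
    have h6 := hFM.pos
    omega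
  obtain ⟨ha0, hd0, _, hdc, had, hden, _⟩ := hD M a b' c d h3 hG
  have hMa : (3 * M : ℤ) ∣ a - 1 := by
    have h1 : a - 1 = (a * d - 1) - a * (d - 1) := by ring
    rw [h1]
    refine dvd_sub ?_ (Dvd.dvd.mul_left hd a)
    push_cast at had
    exact had
  have hmM : NI m ∣ M := by
    refine dvd_trans ?_ hLv.dvd
    unfold lev
    refine Dvd.dvd.mul_left ?_ _
    refine dvd_trans ?_ (dvd_pow_self _ three_ne_zero)
    exact dvd_mul_right _ _
  have hfa : (3 * f : ℤ) ∣ a - 1 := by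
    refine dvd_trans (mul_dvd_mul_left 3 ?_) hMa
    exact_mod_cast hfM
  have hMd : (M : ℤ) ∣ d - 1 := (dvd_mul_left _ _).trans hd
  have heps : eps k t d = 1 := by
    obtain ⟨-, e2, -, e4⟩ := hE k t
    rw [← e4]
    have h5 : ((4 * Dk k t : ℕ) : ℤ) ∣ d - 1 := Dvd.dvd.trans (by exact_mod_cast h4D) hMd
    push_cast at h5
    have h6 : Odd d := by
      obtain ⟨x, hx⟩ := h5
      exact ⟨2 * (Dk k t * x), by linear_combination hx⟩
    have h7 : IsCoprime d (Dk k t : ℤ) := by
      refine hdc.of_isCoprime_of_dvd_right ?_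
      have h8 : Dk k t ∣ 3 * M :=
        ((dvd_mul_left _ _).trans h4D).trans (dvd_mul_left _ _)
      exact_mod_cast h8
    exact e2 d 1 h6 odd_one h7 h5
  have hmb : m * b ≠ ⊥ := mul_ne_zero hFM.ne hFB.ne
  have hS1 : ThS f m b a = ThM f m b := by
    funext w
    have e1 := (hR k t f (m * b) hFM.toFok hmb a).2.2.2.2.1 1 hfa w
    have e2 := (hR k t f b hFM.toFok hFB.ne a).2.2.2.2.1 1 hfa (NI m * w)
    unfold ThS ThM
    rw [e1, e2]
  have hS2 : ∀ r : ℚ, hS f m b a r = hM f m b r := by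
    intro r
    unfold hS hM
    rw [hS1]
  have hval : ∀ r : ℚ, r.den.Coprime (NI m) → hM f m b r = io (etaM f m b r) := by
    intro r hr
    have h5 := (h4 k t f m b hFM hFB r.num r.den r.den_pos hr).2.1
    rw [Rat.num_div_den] at h5
    exact h5.symm
  have hT1 := hT k t f M m b hFM hFB hLv a b' c d hG 1 z hz
  have hV1 := ((hV k t f M m b hFM hFB hLv).2 a b' c d hG 1).2 hd0
  rw [hV1, mul_one, heps, hS1, hS2, ThS_one, hS_one] at hT1
  have h6 : mob a b' c d z = (a * z + b') / (c * z + d) := rfl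
  rw [h6] at hT1
  have h7 : (b' / d : ℚ).den.Coprime (NI m) :=
    Nat.Coprime.coprime_dvd_right (hmM.trans (dvd_mul_left _ _)) hden
  have h8 : (0 : ℚ).den.Coprime (NI m) := by
    rw [Rat.den_zero]
    exact Nat.coprime_one_left _
  rw [hT1, hval _ h7, hval _ h8, map_sub]
  push_cast
  ring

end Pool.Agent.DT.C
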