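import Pool.Agent.Lib.DT.C.Spec

/-!
# THEOREM DT (MP_d0239a_nt), Part C: module C4

The values of the theta series at the rational numbers: the limit exists, it is algebraic, and the
formula.
-/

set_option autoImplicit false

open Filter Topology
open scoped Pointwise

noncomputable section

namespace Pool.Agent.DT.C

open Pool.Agent.MuZ Pool.Agent.FW NumberField
open Pool.Agent.DI (io ofC io_inj exists_io io_ofC ofC_io VP MP UP TP ex)

private theorem C4_ex_pow (n : ℕ) (hn : 0 < n) : ex (1 / n) ^ n = 1 := by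
  have hn' : (n : ℂ) ≠ 0 := by exact_mod_cast hn.ne'
  unfold ex
  rw [← Complex.exp_nat_mul]
  have e : (n : ℂ) * (2 * Real.pi * Complex.I * (1 / n)) = 2 * Real.pi * Complex.I := by
    field_simp
  rw [e, Complex.exp_two_pi_mul_I]

private theorem C4_io_zet (n : ℕ) (hn : 0 < n) : io (zet n) = ex (1 / n) := by
  refine io_ofC _ ?_
  refine IsAlgebraic.of_pow hn ?_
  rw [C4_ex_pow n hn]
  exact isAlgebraic_one

private theorem C4_io_zet_zpow (n : ℕ) (hn : 0 < n) (j : ℤ) : io (zet n ^ j) = ex (j / n) := by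
  rw [map_zpow₀, C4_io_zet n hn]
  unfold ex
  rw [← Complex.exp_int_mul]
  ring_nf

/-- Module C4: `S_C4`. -/
theorem tC4 (hA : S_C4a) (h3 : S_L3) (hR5 : S_R5) (h6 : S_O6) : S_C4 := by
  intro k t _ f m b hm hb c n hn hc
  have hsn : sN k t n ≠ ⊥ := by
    intro h
    have h1 : (n : OO k t) = 0 := Ideal.span_singleton_eq_bot.1 h
    have h2 : ((n : OO k t)).re = 0 := by rw [h1]; rfl
    simp at h2
    omega
  -- the conditions of `S_R5`
  have h26 : (6 : ℕ) ∣ 3 * f := by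
    have h4 := hm.toFok.four
    omega
  have hm6 : PrI m (sN k t 6) :=
    ((h6 k t).2.2.2.2.1 6 m).2 ((((h6 k t).2.2.2.2.1 (3 * f) m).1 hm.prm).coprime_dvd_right h26)
  have hbp : PrI b (ppb k t) := (((h6 k t).2.1 b (sN k t f) (ppb k t)).1 hb.cop).2
  -- the formula
  have key : ∀ U : Finset ℂ, IsSys (sN k t n) b U →
      Tendsto (fun y : ℝ => ThM f m b (((c / n : ℚ) : ℂ) + y * Complex.I)) (𝓝[>] 0)
        (𝓝 (io ((n : Om)⁻¹ * ∑ u ∈ U, zet n ^ (c * qN f m b (v0 k t f + n * u)) *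
          gO m b (v0 k t f / n + u)))) := by
    intro U hU
    obtain ⟨-, a2, a3⟩ := hA k t f m b hm hb c n hn hc U hU
    have e : io ((n : Om)⁻¹ * ∑ u ∈ U, zet n ^ (c * qN f m b (v0 k t f + n * u)) *
          gO m b (v0 k t f / n + u)) =
        (n : ℂ)⁻¹ * ∑ u ∈ U, ex (c * qN f m b (v0 k t f + n * u) / n) *
          gC m b (v0 k t f / n + u) := by
      rw [map_mul, map_inv₀, map_natCast, map_sum]
      congr 1
      refine Finset.sum_congr rfl fun u hu => ?_
      obtain ⟨u1, u2⟩ := a2 u hu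
      have r5 := hR5 k t m b b hm.ne hb.ne hb.ne hm6 hbp hbp
      rw [map_mul, C4_io_zet_zpow n hn, ((r5.2.2.2 _ u2).2.2 u1).1]
      push_cast
      rfl
    rw [e]
    exact a3
  obtain ⟨-, -, U₀, hU₀, -⟩ := h3 k t (sN k t n) b hsn hb.ne
  have hlim : ∀ U : Finset ℂ, IsSys (sN k t n) b U → hM f m b (c / n) =
      io ((n : Om)⁻¹ * ∑ u ∈ U, zet n ^ (c * qN f m b (v0 k t f + n * u)) *
        gO m b (v0 k t f / n + u)) := fun U hU => (key U hU).limUnder_eq
  refine ⟨?_, ?_, fun U hU => ⟨(hA k t f m b hm hb c n hn hc U hU).1, ?_⟩⟩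
  · rw [hlim U₀ hU₀]
    exact key U₀ hU₀
  · unfold etaM
    rw [hlim U₀ hU₀, ofC_io]
  · unfold etaM
    rw [hlim U hU, ofC_io]

end Pool.Agent.DT.C
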