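import Pool.Agent.Lib.DT.C.Spec

/-!
# Theorem DT, part C, module C4a: the limits of the values
-/

set_option autoImplicit false

open Filter Topology
open scoped Pointwise

noncomputable section

namespace Pool.Agent.DT.C

open Pool.Agent.MuZ Pool.Agent.FW NumberField
open Pool.Agent.DI (io ofC io_inj exists_io io_ofC ofC_io VP MP UP TP ex)

variable {k t : ℕ}

/-- `cnd` contains `3 f`. -/
private theorem C4a_cnd (k t f : ℕ) : sN k t (3 * f) ≤ cnd k t f := by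
  rw [Ideal.span_singleton_le_iff_mem]
  have h1 : ((3 * f : ℕ) : OO k t) = (f : OO k t) * 3 := by
    push_cast
    ring
  rw [h1]
  refine Ideal.mul_mem_mul (Ideal.mem_span_singleton_self _) (Ideal.subset_span ?_)
  exact Set.mem_insert _ _

/-- A system for `(n)`, `b` is also a system for `(n)`, `m b`. -/
private theorem C4a_sys (h5 : S_L5) [SqT k t] {m b : Ideal (OO k t)} (hm : m ≠ ⊥) (hb : b ≠ ⊥) {n : ℕ}
    (hmn : PrI m (sN k t n)) {U : Finset ℂ} (hU : IsSys (sN k t n) b U) :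
    IsSys (sN k t n) (m * b) U := by
  obtain ⟨l1, l2⟩ := h5 k t m b (sN k t n) hm hb hmn
  refine ⟨fun u hu => ?_, fun z hz => ?_, fun u hu u' hu' h => ?_⟩
  · exact lam_sp.2 (lam_mono (lam_sp.1 (hU.mem u hu)))
  · obtain ⟨z', hz', hzz⟩ := l2 z hz
    obtain ⟨u, hu, hzu⟩ := hU.ex z' hz'
    refine ⟨u, hu, ?_⟩
    have h4 := lam_add hzz (lam_mono (a := m) hzu)
    rwa [sub_add_sub_cancel] at h4
  · refine hU.uni u hu u' hu' (l1 _ ?_ h)
    exact lam_sub (hU.mem u hu) (hU.mem u' hu')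

theorem tC4a (hS : S_Spl) (hV : S_V0) (h2 : S_O2) (h6 : S_O6) (h5 : S_L5) (hB : S_B10) : S_C4a := by
  intro k t _ f m b hm hb c n hn hnm U hU
  have hok : Fok f := hm.toFok
  have hf : 0 < f := hok.pos
  have hf0 : (f : ℂ) ≠ 0 := by exact_mod_cast hf.ne'
  have hn0 : (n : ℂ) ≠ 0 := by exact_mod_cast hn.ne'
  have hmb : m * b ≠ ⊥ := mul_ne_zero (a := m) (b := b) hm.ne hb.ne
  have hNm : NI (m * b) = NI m * NI b := (h2 k t).2.2.2.2.1 m b
  have hm0 : 0 < NI m := Nat.pos_of_ne_zero fun h => hm.ne (((h2 k t).2.2.2.2.2.1 m).1 h)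
  have hb0 : 0 < NI b := Nat.pos_of_ne_zero fun h => hb.ne (((h2 k t).2.2.2.2.2.1 b).1 h)
  have hmn : PrI m (sN k t n) := ((h6 k t).2.2.2.2.1 n m).2 hnm.symm
  have hU' := C4a_sys h5 hm.ne hb.ne hmn hU
  obtain ⟨-, -, v3, v4, v5, -⟩ := hV k t f hok
  have hnu : ∀ u ∈ U, (n : ℂ) * u ∈ Lam b := by
    intro u hu
    have h1 := lam_sp.1 (hU.mem u hu)
    rwa [toC_nat] at h1
  have hx : ∀ u ∈ U, v0 k t f + n * u ∈ cs (((1 : ℤ) : ℂ) * v0 k t f) (m * b) := by
    intro u hu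
    change v0 k t f + n * u - ((1 : ℤ) : ℂ) * v0 k t f ∈ Lam (m * b)
    rw [Int.cast_one, one_mul, add_sub_cancel_left]
    exact lam_mono (hnu u hu)
  have hq : ∀ u ∈ U, (qN f m b (v0 k t f + n * u) : ℝ) =
      3 * (f : ℝ) ^ 2 * NI m * NI b * ‖v0 k t f + n * u‖ ^ 2 := by
    intro u hu
    obtain ⟨j, hj⟩ := v5 (m * b) hmb 1 _ (hx u hu)
    rw [hNm] at hj
    push_cast at hj
    have hj' : 3 * (f : ℝ) ^ 2 * NI m * NI b * ‖v0 k t f + n * u‖ ^ 2 = j := by
      rw [← hj]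
      ring
    unfold qN
    rw [hj', Int.floor_natCast]
    rfl
  have hpr : PrI (m * b) (cnd k t f) :=
    ((h6 k t).1 m b _).2 ⟨(h6 k t).2.2.2.1 m _ _ (C4a_cnd k t f) hm.prm, hb.cop⟩
  have hz : ∀ u ∈ U, v0 k t f / n + u ∉ Lam (m * b) ∧ Tor k t (v0 k t f / n + u) := by
    intro u hu
    constructor
    · intro h
      refine v4 (m * b) hpr ?_
      have h3 := lam_sub (lam_nat n h) (lam_mono (a := m) (hnu u hu))
      have h4 : (n : ℂ) * (v0 k t f / n + u) - n * u = v0 k t f := by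
        field_simp
        ring
      rwa [h4] at h3
    · refine tor_add ?_ ((tor_iff hb.ne).2 ⟨n, hn, hnu u hu⟩)
      refine ⟨al0 k t f, 3 * f * n, Nat.mul_pos (Nat.mul_pos (by norm_num) hf) hn, ?_⟩
      rw [← v3]
      push_cast
      field_simp
  refine ⟨hq, hz, ?_⟩
  -- the limit
  set C : ℝ := 2 * Real.pi * (3 * f ^ 2 * NI b) * NI m * n ^ 2 with hC
  have hC0 : 0 < C := by
    have h1 : (0 : ℝ) < f := by exact_mod_cast hf
    have h3 : (0 : ℝ) < n := by exact_mod_cast hn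
    have h4 : (0 : ℝ) < NI m := by exact_mod_cast hm0
    have h7 : (0 : ℝ) < NI b := by exact_mod_cast hb0
    have := Real.pi_pos
    positivity
  have hτ : Tendsto (fun y : ℝ => C * y) (𝓝[>] 0) (𝓝[>] 0) := by
    rw [tendsto_nhdsWithin_iff]
    constructor
    · have h : Tendsto (fun y : ℝ => C * y) (𝓝 0) (𝓝 (C * 0)) :=
        (continuous_const.mul continuous_id).tendsto 0
      rw [mul_zero] at h
      exact h.mono_left nhdsWithin_le_nhds
    · filter_upwards [self_mem_nhdsWithin] with y hy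
      exact mul_pos hC0 hy
  have hlim : Tendsto (fun y : ℝ => (n : ℂ)⁻¹ * ∑ u ∈ U, ex (c * qN f m b (v0 k t f + n * u) / n) *
      ((KtC (m * b) (C * y) (v0 k t f / n + u) - NI m * KtC b (C * y) (v0 k t f / n + u)) / fr b))
      (𝓝[>] 0) (𝓝 ((n : ℂ)⁻¹ * ∑ u ∈ U, ex (c * qN f m b (v0 k t f + n * u) / n) *
        gC m b (v0 k t f / n + u))) := by
    refine Tendsto.const_mul _ (tendsto_finsetSum _ fun u hu => Tendsto.const_mul _ ?_)
    have hzb : v0 k t f / n + u ∉ Lam b := fun h => (hz u hu).1 (lam_mono h)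
    have t1 := ((hB k t (m * b) hmb).1 _ (hz u hu).1).comp hτ
    have t2 := ((hB k t b hb.ne).1 _ hzb).comp hτ
    exact (t1.sub (t2.const_mul _)).div_const _
  refine hlim.congr' ?_
  filter_upwards [self_mem_nhdsWithin] with y hy
  have e1 := hS k t f n 1 (m * b) c U hok hn one_pos hmb hU' y hy
  have e2 := hS k t f n (NI m) b c U hok hn hm0 hb.ne hU y hy
  rw [Nat.cast_one, one_mul] at e1
  have hcn : (((c / n : ℚ) : ℚ) : ℂ) = (c : ℂ) / n := by push_cast; rfl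
  unfold ThM
  rw [hcn, e1, e2, Finset.mul_sum, Finset.mul_sum, Finset.mul_sum, Finset.mul_sum,
    ← Finset.sum_sub_distrib, Finset.sum_div]
  refine Finset.sum_congr rfl fun u hu => ?_
  have a1 : 2 * Real.pi * y * (3 * (f : ℝ) ^ 2 * NI (m * b)) * ((1 : ℕ) : ℝ) * n ^ 2 = C * y := by
    rw [hNm, hC]
    push_cast
    ring
  have a2 : 2 * Real.pi * y * (3 * (f : ℝ) ^ 2 * NI b) * NI m * n ^ 2 = C * y := by
    rw [hC]
    ring
  have a3 : ((qN f m b (v0 k t f + n * u) : ℤ) : ℂ) =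
      3 * (f : ℂ) ^ 2 * (NI m : ℂ) * NI b * (‖v0 k t f + n * u‖ : ℂ) ^ 2 := by
    have := hq u hu
    exact_mod_cast congrArg (fun x : ℝ => (x : ℂ)) this
  rw [a1, a2, a3, hNm]
  push_cast
  rw [one_mul]
  ring_nf

end Pool.Agent.DT.C
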