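import Pool.Agent.Lib.DT.C.Spec

/-!
# Theorem DT (`p = 3`), part C, module C5: the distribution relation for `3` on the values
-/

set_option autoImplicit false

open Filter Topology
open scoped Pointwise

noncomputable section

namespace Pool.Agent.DT.C

open Pool.Agent.MuZ Pool.Agent.FW NumberField
open Pool.Agent.DI (io ofC io_inj exists_io io_ofC ofC_io VP MP UP TP ex)

/-- The denominator of a fraction divides the denominator. -/
private theorem C5_den (a : ℤ) (n : ℕ) : ((a / n : ℚ)).den ∣ n := by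
  have h := Rat.den_dvd a n
  exact_mod_cast h

private theorem C5_third {r : ℚ} {N : ℕ} (h3 : Nat.Coprime 3 N) (hr : r.den.Coprime N) (j : ℕ) :
    ((r + j) / 3).den.Coprime N := by
  have hd : (r.den : ℚ) ≠ 0 := by exact_mod_cast r.den_ne_zero
  have hrr : r = r.num / r.den := (Rat.num_div_den r).symm
  have h0 : (3 * r.den).Coprime N := Nat.Coprime.mul_left h3 hr
  have e : (r + j) / 3 = ((r.num + j * r.den : ℤ) : ℚ) / ((3 * r.den : ℕ) : ℚ) := by
    conv_lhs => rw [hrr]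
    push_cast
    field_simp
  rw [e]
  exact Nat.Coprime.coprime_dvd_left (C5_den _ _) h0

/-- The vertical limits. -/
private theorem C5_lim {k t : ℕ} [SqT k t] (hC : S_C4) {f : ℕ} {m b : Ideal (OO k t)} (hm : FM f m)
    (hb : FB f b) {r : ℚ} (hr : r.den.Coprime (NI m)) {g : ℝ → ℝ}
    (hg : Tendsto g (𝓝[>] 0) (𝓝[>] 0)) :
    Tendsto (fun y : ℝ => ThM f m b ((r : ℂ) + (g y : ℝ) * Complex.I)) (𝓝[>] 0)
      (𝓝 (io (etaM f m b r))) := by
  obtain ⟨h1, h2, -⟩ := hC k t f m b hm hb r.num r.den r.den_pos hr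
  have hrr : ((r.num : ℚ) / (r.den : ℚ)) = r := Rat.num_div_den r
  rw [hrr] at h1 h2
  rw [h2]
  exact h1.comp hg

private theorem C5_mul {c : ℝ} (hc : 0 < c) : Tendsto (fun y : ℝ => c * y) (𝓝[>] 0) (𝓝[>] 0) := by
  refine tendsto_nhdsWithin_iff.2 ⟨?_, ?_⟩
  · have h1 : Tendsto (fun y : ℝ => c * y) (𝓝 0) (𝓝 (c * 0)) := (continuous_const_mul c).tendsto 0
    rw [mul_zero] at h1
    exact h1.mono_left nhdsWithin_le_nhds
  · filter_upwards [self_mem_nhdsWithin] with y hy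
    exact mul_pos hc hy

/-- Multiplication by `n`, prime to `3`, permutes the residues modulo `3`. -/
private theorem C5_perm (F : ℂ → ℂ) (hF : ∀ (z : ℂ) (j : ℤ), F (z + j) = F z) (n : ℕ)
    (hn : n.Coprime 3) (z : ℂ) :
    F (n * ((z + (0 : ℕ)) / 3)) + F (n * ((z + (1 : ℕ)) / 3)) + F (n * ((z + (2 : ℕ)) / 3)) =
      F ((n * z + (0 : ℕ)) / 3) + F ((n * z + (1 : ℕ)) / 3) + F ((n * z + (2 : ℕ)) / 3) := by
  have h3 : n % 3 = 1 ∨ n % 3 = 2 := by
    have h1 : ¬ 3 ∣ n := fun h => by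
      have := Nat.Coprime.eq_one_of_dvd hn.symm h
      omega
    omega
  have e0 : (n : ℂ) * ((z + (0 : ℕ)) / 3) = (n * z + (0 : ℕ)) / 3 := by
    push_cast
    ring
  rcases h3 with h3 | h3
  · obtain ⟨q, hq⟩ : ∃ q : ℕ, n = 3 * q + 1 := ⟨n / 3, by omega⟩
    have e1 : (n : ℂ) * ((z + (1 : ℕ)) / 3) = (n * z + (1 : ℕ)) / 3 + ((q : ℤ) : ℂ) := by
      rw [hq]
      push_cast
      ring
    have e2 : (n : ℂ) * ((z + (2 : ℕ)) / 3) = (n * z + (2 : ℕ)) / 3 + ((2 * q : ℤ) : ℂ) := by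
      rw [hq]
      push_cast
      ring
    rw [e0, e1, e2, hF, hF]
  · obtain ⟨q, hq⟩ : ∃ q : ℕ, n = 3 * q + 2 := ⟨n / 3, by omega⟩
    have e1 : (n : ℂ) * ((z + (1 : ℕ)) / 3) = (n * z + (2 : ℕ)) / 3 + ((q : ℤ) : ℂ) := by
      rw [hq]
      push_cast
      ring
    have e2 : (n : ℂ) * ((z + (2 : ℕ)) / 3) = (n * z + (1 : ℕ)) / 3 + ((2 * q + 1 : ℤ) : ℂ) := by
      rw [hq]
      push_cast
      ring
    rw [e0, e1, e2, hF, hF]
    ring

theorem tC5 (hD : S_Dis) (hd : S_Di1) (hR : S_Red) (h4 : S_C4) (hR5 : S_R5) (h2 : S_O2)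
    (h6 : S_O6) : S_C5 := by
  intro k t _ f m b hm hb γ c hγ hγ1 hγ0
  obtain ⟨-, h6b, -, h6d, h6e, -⟩ := h6 k t
  have hν : (NI m).Coprime (3 * f) := (h6e (3 * f) m).1 hm.prm
  have hν3 : (NI m).Coprime 3 := hν.coprime_dvd_right (Dvd.intro _ rfl)
  have hνpos : 0 < NI m := Nat.pos_of_ne_zero fun h0 => hm.ne (((h2 k t).2.2.2.2.2.1 m).1 h0)
  have hm6 : PrI m (sN k t 6) := by
    rw [h6e 6 m]
    refine hν.coprime_dvd_right ?_
    obtain ⟨j, hj⟩ := hm.four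
    exact ⟨2 * j, by rw [hj]; ring⟩
  have hle : sN k t (3 * f) ≤ cnd k t f := by
    refine (Ideal.span_singleton_le_iff_mem _).2 ?_
    have e : ((3 * f : ℕ) : OO k t) = (f : OO k t) * 3 := by
      push_cast
      ring
    rw [e]
    exact Ideal.mul_mem_mul (Ideal.mem_span_singleton_self _)
      (Ideal.subset_span (Set.mem_insert _ _))
  have hle2 : cnd k t f ≤ ppb k t := Ideal.mul_le_right
  have hmc : PrI m (cnd k t f) := h6d m _ _ hle hm.prm
  have hmb : FB f (m * b) := ⟨mul_ne_zero hm.ne hb.ne, ((h6 k t).1 m b _).2 ⟨hmc, hb.cop⟩⟩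
  obtain ⟨-, -, hc0, -, hcb⟩ := hd k t f b c γ hm.toFok hb hγ hγ1 hγ0
  have hbp := h6d b _ _ hle2 hb.cop
  have hcbp := h6d (c * b) _ _ hle2 hcb.cop
  obtain ⟨hfr, -, hρ, -⟩ := hR5 k t m b (c * b) hm.ne hb.ne hcb.ne hm6 hbp hcbp
  have hfrc : fr (c * b) ≠ 0 :=
    (hR5 k t m (c * b) b hm.ne hcb.ne hb.ne hm6 hcbp hbp).1
  have hγC : toC γ ≠ 0 := toC_ne hγ0
  refine ⟨hcb, fun r hr => ?_⟩
  -- the identity of functions
  have hfun : ∀ z : ℂ, 0 < z.im → ∑ j ∈ Finset.range 3, ThM f m b ((z + j) / 3) =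
      3 * (fr (c * b) / fr b) / toC γ * ThM f m (c * b) z := by
    intro z hz
    have hνz : 0 < ((NI m : ℂ) * z).im := by
      rw [Complex.mul_im, Complex.natCast_re, Complex.natCast_im, zero_mul, add_zero]
      have : (0 : ℝ) < NI m := by exact_mod_cast hνpos
      positivity
    have e1 := hD k t f (m * b) c γ hm.toFok hmb hγ hγ1 hγ0 z hz
    have e2 := hD k t f b c γ hm.toFok hb hγ hγ1 hγ0 ((NI m : ℂ) * z) hνz
    have e3 := C5_perm (Tc f b 1) (hR k t f b hm.toFok hb.ne 1).2.2.2.1 (NI m) hν3 z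
    have c1 : m * (c * b) = c * (m * b) := by ring
    simp only [Finset.sum_range_succ, Finset.sum_range_zero, zero_add] at e1 e2 ⊢
    have g1 : ThM f m (c * b) z =
        (Tc f (c * (m * b)) 1 z - NI m * Tc f (c * b) 1 (NI m * z)) / fr (c * b) := by
      unfold ThM
      rw [c1]
    have g2 : 3 * (fr (c * b) / fr b) / toC γ * ((Tc f (c * (m * b)) 1 z -
        NI m * Tc f (c * b) 1 (NI m * z)) / fr (c * b)) =
        (3 / toC γ * Tc f (c * (m * b)) 1 z - NI m * (3 / toC γ * Tc f (c * b) 1 (NI m * z))) /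
          fr b := by
      field_simp
    rw [g1, g2, ← e1, ← e2, ← e3]
    unfold ThM
    ring
  -- the limits
  have L1 : ∀ j ∈ Finset.range 3, Tendsto (fun y : ℝ =>
      ThM f m b ((((r + (j : ℕ)) / 3 : ℚ) : ℂ) + ((1 / 3 * y : ℝ) : ℂ) * Complex.I)) (𝓝[>] 0)
      (𝓝 (io (etaM f m b ((r + (j : ℕ)) / 3)))) := fun j _ =>
    C5_lim h4 hm hb (C5_third hν3.symm hr j) (C5_mul (c := 1 / 3) (by norm_num))
  have LL := tendsto_finsetSum (Finset.range 3) L1
  have L4 := C5_lim h4 hm hcb hr (C5_mul (c := 1) (by norm_num))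
  have LR := L4.const_mul (3 * (fr (c * b) / fr b) / toC γ)
  have hev : ∀ᶠ y : ℝ in 𝓝[>] 0, ∑ j ∈ Finset.range 3,
      ThM f m b ((((r + (j : ℕ)) / 3 : ℚ) : ℂ) + ((1 / 3 * y : ℝ) : ℂ) * Complex.I) =
      3 * (fr (c * b) / fr b) / toC γ *
        ThM f m (c * b) ((r : ℂ) + ((1 * y : ℝ) : ℂ) * Complex.I) := by
    filter_upwards [self_mem_nhdsWithin] with y hy
    have hz : 0 < ((r : ℂ) + (y : ℂ) * Complex.I).im := by
      simpa using hy
    have h9 := hfun _ hz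
    rw [one_mul, ← h9]
    refine Finset.sum_congr rfl fun j _ => ?_
    congr 1
    push_cast
    ring
  have hlim := tendsto_nhds_unique (LL.congr' hev) LR
  -- back to `Om`
  apply io_inj
  rw [map_sum, hlim, map_mul, map_div₀, map_mul, map_ofNat, hρ, io_toO]

end Pool.Agent.DT.C
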