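import Pool.Agent.Lib.DT.C.Spec

/-!
# THEOREM DT (MP_d0239a_nt, `p = 3`), Part C: `S_C6` (class functions, period)
-/

set_option autoImplicit false

open Filter Topology
open scoped Pointwise

noncomputable section

namespace Pool.Agent.DT.C

open Pool.Agent.MuZ Pool.Agent.FW NumberField
open Pool.Agent.DI (io ofC io_inj exists_io io_ofC ofC_io VP MP UP TP ex)

variable {k t : ℕ}

/-- Class functions. -/
private theorem C6_ray [SqT k t] (hH : S_Hom) (h6 : S_O6) {f : ℕ} {m b b' : Ideal (OO k t)}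
    (hm : FM f m) (hb : FB f b) (hb' : FB f b') (h : Ray (cnd k t f) b b') (z : ℂ) :
    ThM f m b z = ThM f m b' z := by
  obtain ⟨α, α', h0, h0', c1, -, hd, he⟩ := h
  obtain ⟨-, -, -, -, -, -, -, h6x⟩ := h6 k t
  have hsp : sp α ≠ ⊥ := fun h => h0 (Ideal.span_singleton_eq_bot.1 h)
  obtain ⟨x, hx, hx0, hx1⟩ := h6x (sp α) (cnd k t f) hsp c1
  obtain ⟨β, rfl⟩ := Ideal.mem_span_singleton'.1 hx
  have hβ0 : β ≠ 0 := left_ne_zero_of_mul hx0
  have hβ : α * β - 1 ∈ cnd k t f := mul_comm β α ▸ hx1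
  have hβ' : α' * β - 1 ∈ cnd k t f := by
    have e : α' * β - 1 = (α * β - 1) - (α - α') * β := by ring
    rw [e]
    exact sub_mem hβ (Ideal.mul_mem_right _ _ hd)
  have e1 : sp (α * β) * b = sp (α' * β) * b' := by
    have h1 : sp (α * β) = sp β * sp α := by
      rw [Ideal.span_singleton_mul_span_singleton, mul_comm β α]
    have h2 : sp (α' * β) = sp β * sp α' := by
      rw [Ideal.span_singleton_mul_span_singleton, mul_comm β α']
    rw [h1, h2, mul_assoc, mul_assoc]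
    exact congrArg (fun t => sp β * t) he
  have h1 := ((hH k t f hm.toFok).2.2.2 m b hm hb (α * β) z (mul_ne_zero h0 hβ0) hβ).2
  have h2 := ((hH k t f hm.toFok).2.2.2 m b' hm hb' (α' * β) z (mul_ne_zero h0' hβ0) hβ').2
  rw [← h1, ← h2, e1]

/-- The period. -/
private theorem C6_per [SqT k t] (hR : S_Red) {f : ℕ} {m b : Ideal (OO k t)} (hm : FM f m)
    (hb : FB f b) (z : ℂ) : ThM f m b (z + 1) = ThM f m b z := by
  have hmb : m * b ≠ ⊥ := mul_ne_zero hm.ne hb.ne
  have h1 := (hR k t f (m * b) hm.toFok hmb 1).2.2.2.1 z 1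
  have h2 := (hR k t f b hm.toFok hb.ne 1).2.2.2.1 (NI m * z) (NI m)
  rw [Int.cast_one] at h1
  rw [Int.cast_natCast] at h2
  unfold ThM
  rw [mul_add, mul_one, h1, h2]

private theorem C6_lim (f : ℕ) (m b m' b' : Ideal (OO k t)) (r r' : ℚ)
    (h : ∀ y : ℝ, ThM f m b (r + y * Complex.I) = ThM f m' b' (r' + y * Complex.I)) :
    hM f m b r = hM f m' b' r' := by
  unfold hM
  congr 1
  funext y
  exact h y

theorem tC6 (hH : S_Hom) (hR : S_Red) (h6 : S_O6) : S_C6 := by
  intro k t _ f m b hm hb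
  refine ⟨?_, ?_⟩
  · intro b₁ hb₁ hr
    have h1 : ∀ z : ℂ, ThM f m b z = ThM f m b₁ z := C6_ray hH h6 hm hb hb₁ hr
    refine ⟨h1, fun r => ?_⟩
    unfold etaM
    rw [C6_lim f m b m b₁ r r fun y => h1 _]
  · intro r
    unfold etaM
    rw [C6_lim f m b m b (r + 1) r fun y => ?_]
    have e : (((r + 1 : ℚ) : ℂ)) + y * Complex.I = (r + y * Complex.I) + 1 := by
      push_cast
      ring
    rw [e, C6_per hR hm hb]

end Pool.Agent.DT.C
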