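import Pool.Agent.Lib.DT.C.Spec

set_option autoImplicit false

/-!
# Theorem DT, Part C, module C7a: the sets `vN` and the bound of `cM`
-/

open Filter Topology
open scoped Pointwise

noncomputable section

namespace Pool.Agent.DT.C

open Pool.Agent.MuZ Pool.Agent.FW NumberField
open Pool.Agent.DI (io ofC io_inj exists_io io_ofC ofC_io VP MP UP TP ex)

/-- The finite set which contains the points of `vN`. -/
private def C7a_T {k t : ℕ} (f : ℕ) (c : Ideal (OO k t)) (n : ℕ) : Finset ℂ :=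
  (Finset.Icc (-(12 * n * NI c : ℤ)) (12 * n * NI c) ×ˢ
    Finset.Icc (-(12 * n * NI c : ℤ)) (12 * n * NI c)).image
      (fun p : ℤ × ℤ => toC (⟨p.1, p.2⟩ : OO k t) / (3 * f * NI c))

private theorem C7a_card {k t : ℕ} (f : ℕ) (c : Ideal (OO k t)) (n : ℕ) :
    ((C7a_T f c n).card : ℝ) ≤ (24 * NI c + 1) ^ 2 * (n + 1) ^ 2 := by
  have h1 : (C7a_T f c n).card ≤ (24 * n * NI c + 1) * (24 * n * NI c + 1) := by
    refine Finset.card_image_le.trans ?_
    rw [Finset.card_product, Int.card_Icc]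
    have : (12 * n * NI c + 1 - -(12 * n * NI c) : ℤ).toNat = 24 * n * NI c + 1 := by
      have e : (12 * n * NI c + 1 - -(12 * n * NI c) : ℤ) = ((24 * n * NI c + 1 : ℕ) : ℤ) := by
        push_cast
        ring
      rw [e, Int.toNat_natCast]
    rw [this]
  have h2 : (C7a_T f c n).card ≤ (24 * NI c + 1) ^ 2 * (n + 1) ^ 2 := by
    refine h1.trans ?_
    have h3 : 24 * n * NI c + 1 ≤ (24 * NI c + 1) * (n + 1) := by nlinarith
    calc (24 * n * NI c + 1) * (24 * n * NI c + 1)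
        ≤ ((24 * NI c + 1) * (n + 1)) * ((24 * NI c + 1) * (n + 1)) := Nat.mul_le_mul h3 h3
      _ = _ := by ring
  exact_mod_cast h2

private theorem C7a_sub (hL : S_Lt) (hV : S_V0) (hB : S_Bas) {k t : ℕ} [SqT k t] {f : ℕ}
    (hf : Fok f) {c : Ideal (OO k t)} (hc : c ≠ ⊥) (n : ℕ) {v : ℂ} (h1 : v - v0 k t f ∈ Lam c)
    (h2 : 3 * (f : ℝ) ^ 2 * NI c * ‖v‖ ^ 2 = n) : v ∈ C7a_T f c n := by
  obtain ⟨l1, l2, -⟩ := hL k t c hc
  obtain ⟨b1, -, -, -, -, b6, -⟩ := hB k t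
  obtain ⟨-, -, v3, -⟩ := hV k t f hf
  have hf0 : 0 < f := hf.pos
  have hf' : (f : ℂ) ≠ 0 := by exact_mod_cast hf0.ne'
  have hN' : (NI c : ℂ) ≠ 0 := by exact_mod_cast l1.ne'
  have hfr : (f : ℝ) ≠ 0 := by exact_mod_cast hf0.ne'
  have hNr : (NI c : ℝ) ≠ 0 := by exact_mod_cast l1.ne'
  have hal : toC (al0 k t f) ∈ Lam c := fun w _ => ⟨w * al0 k t f, by rw [toC_mul]⟩
  have hfv : ((3 * f : ℕ) : ℂ) * v ∈ Lam c := by
    have h3 := lam_add (lam_nat (3 * f) h1) hal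
    rw [← v3] at h3
    have e : ((3 * f : ℕ) : ℂ) * (v - v0 k t f) + ((3 * f : ℕ) : ℂ) * v0 k t f =
        ((3 * f : ℕ) : ℂ) * v := by ring
    rwa [e] at h3
  obtain ⟨u, -, hu⟩ := (l2 _).1 hfv
  have h3N : (3 * f * NI c : ℂ) ≠ 0 := mul_ne_zero (mul_ne_zero (by norm_num) hf') hN'
  have hv : v = toC u / (3 * f * NI c) := by
    rw [eq_div_iff h3N]
    rw [eq_div_iff hN'] at hu
    rw [← hu]
    push_cast
    ring
  have hnm : Nm u = 3 * n * NI c := by
    have h3 : (Nm u : ℝ) = 3 * n * NI c := by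
      rw [← h2, hv, norm_div, norm_mul, norm_mul, Complex.norm_natCast, Complex.norm_natCast,
        div_pow, b1]
      have e3 : ‖(3 : ℂ)‖ = 3 := by norm_num
      rw [e3]
      field_simp
    exact_mod_cast h3
  have h3 := (b6 u).2.2
  rw [hnm] at h3
  have h4 := Int.le_self_sq u.re
  have h5 := Int.le_self_sq (-u.re)
  have h6 := Int.le_self_sq u.im
  have h7 := Int.le_self_sq (-u.im)
  have h8 := sq_nonneg u.re
  have h9 := sq_nonneg u.im
  unfold C7a_T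
  rw [Finset.mem_image]
  refine ⟨(u.re, u.im), ?_, hv.symm⟩
  rw [Finset.mem_product, Finset.mem_Icc, Finset.mem_Icc]
  refine ⟨⟨?_, ?_⟩, ?_, ?_⟩ <;> simp only <;> nlinarith

open Classical in
theorem tC7a (hL : S_Lt) (hV : S_V0) (hB : S_Bas) (h2 : S_O2) (h6 : S_O6) : S_C7a := by
  intro k t _ f m b hM hFb
  obtain ⟨-, -, -, -, -, -, -, -⟩ := h2 k t
  obtain ⟨o1, -, -, o4, -⟩ := h6 k t
  have hf : Fok f := hM.toFok
  have hf0 : 0 < f := hf.pos
  have hc : m * b ≠ ⊥ := fun h => (Ideal.mul_eq_bot.1 h).elim hM.ne hFb.ne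
  have hle : sN k t (3 * f) ≤ cnd k t f := by
    rw [Ideal.span_singleton_le_iff_mem]
    have h3 : (3 : OO k t) ∈ ppb k t := Ideal.subset_span (by simp)
    have h4 : (f : OO k t) ∈ sN k t f := Ideal.mem_span_singleton_self _
    have h5 := Ideal.mul_mem_mul h4 h3
    have e : ((3 * f : ℕ) : OO k t) = f * 3 := by
      push_cast
      ring
    rw [e]
    exact h5
  have hp : PrI (m * b) (cnd k t f) := (o1 m b _).2 ⟨o4 m _ _ hle hM.prm, hFb.cop⟩
  have hf' : (f : ℂ) ≠ 0 := by exact_mod_cast hf0.ne'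
  have hnot : v0 k t f ∉ Lam (m * b) := (hV k t f hf).2.2.2.1 (m * b) hp
  have hfin : ∀ n : ℕ, {v : ℂ | v - v0 k t f ∈ Lam (m * b) ∧
      3 * (f : ℝ) ^ 2 * NI (m * b) * ‖v‖ ^ 2 = n}.Finite := fun n =>
    (Finset.finite_toSet (C7a_T f (m * b) n)).subset fun v hv =>
      C7a_sub hL hV hB hf hc n hv.1 hv.2
  have hmem : ∀ (n : ℕ) (v : ℂ), v ∈ vN f (m * b) n ↔
      v - v0 k t f ∈ Lam (m * b) ∧ 3 * (f : ℝ) ^ 2 * NI (m * b) * ‖v‖ ^ 2 = n := by
    intro n v
    unfold vN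
    rw [dif_pos (hfin n), Set.Finite.mem_toFinset]
    rfl
  obtain ⟨l1, -, -, -, -, l6, -⟩ := hL k t (m * b) hc
  refine ⟨hnot, hmem, ?_, ?_⟩
  · rw [Finset.eq_empty_iff_forall_notMem]
    intro v hv
    obtain ⟨h3, h4⟩ := (hmem 0 v).1 hv
    have hfr : (f : ℝ) ≠ 0 := by exact_mod_cast hf0.ne'
    have hNr : (NI (m * b) : ℝ) ≠ 0 := by exact_mod_cast l1.ne'
    have h5 : v = 0 := by
      rw [Nat.cast_zero] at h4
      rcases mul_eq_zero.1 h4 with h6 | h6
      · exact absurd h6 (mul_ne_zero (mul_ne_zero (by norm_num) (pow_ne_zero 2 hfr)) hNr)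
      · exact norm_eq_zero.1 (pow_eq_zero_iff (two_ne_zero)|>.1 h6)
    rw [h5, zero_sub, lam_neg_iff] at h3
    exact hnot h3
  · obtain ⟨C, hC⟩ := l6 (v0 k t f) (by
      rw [v0_eq hf0]
      exact tor_div (by omega) _)
    have hC0 : 0 ≤ C := le_trans (norm_nonneg _) (hC (v0 k t f) (by
      show v0 k t f - v0 k t f ∈ Lam (m * b)
      rw [sub_self]
      exact lam_zero _))
    refine ⟨(24 * NI (m * b) + 1) ^ 2 * ((1 + NI m) * C), fun n => ?_⟩
    have h3 : ∀ v ∈ vN f (m * b) n,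
        ‖(if v - v0 k t f ∈ Lam b then (1 - NI m : ℂ) else 1) * v⁻¹‖ ≤ (1 + NI m) * C := by
      intro v hv
      rw [norm_mul]
      refine mul_le_mul ?_ (hC v ((hmem n v).1 hv).1) (norm_nonneg _) (by positivity)
      split_ifs
      · refine (norm_sub_le _ _).trans ?_
        rw [norm_one, Complex.norm_natCast]
      · rw [norm_one]
        have : (0 : ℝ) ≤ NI m := Nat.cast_nonneg _
        linarith
    have h4 : ‖cM f m b n‖ ≤ (vN f (m * b) n).card • ((1 + NI m) * C) := by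
      unfold cM
      exact (norm_sum_le _ _).trans (Finset.sum_le_card_nsmul _ _ _ h3)
    have h5 : ((vN f (m * b) n).card : ℝ) ≤ (24 * NI (m * b) + 1) ^ 2 * (n + 1) ^ 2 := by
      refine le_trans ?_ (C7a_card f (m * b) n)
      exact_mod_cast Finset.card_le_card fun v hv =>
        C7a_sub hL hV hB hf hc n ((hmem n v).1 hv).1 ((hmem n v).1 hv).2
    rw [nsmul_eq_mul] at h4
    refine h4.trans ((mul_le_mul_of_nonneg_right h5 (by positivity)).trans (le_of_eq ?_))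
    ring

end Pool.Agent.DT.C
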