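import Pool.Agent.Lib.DT.C.Spec

/-!
# Theorem DT, part C, module Di1 (helper87): the vectors with `3 ∣ N(C_v)`
-/

set_option autoImplicit false

noncomputable section

namespace Pool.Agent.DT.C

open Pool.Agent.MuZ Pool.Agent.FW NumberField
open Pool.Agent.DI (io ofC io_inj exists_io io_ofC ofC_io VP MP UP TP ex)

/-- The norm of `n x + m u`. -/
private theorem Di1_Nm {k t : ℕ} (n m : ℤ) (x u : OO k t) :
    Nm ((n : OO k t) * x + (m : OO k t) * u) =
      n ^ 2 * Nm x + n * m * (2 * (x * cjO u).re + t * (x * cjO u).im) + m ^ 2 * Nm u := by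
  simp only [Nm, QuadraticAlgebra.re_add, QuadraticAlgebra.im_add, re_mul, im_mul, re_int, im_int, cjO]
  ring

/-- The norm of `α₀`. -/
private theorem Di1_al {k t : ℕ} (f : ℕ) : Nm (al0 k t f) = 3 * (3 + t * f + k * f ^ 2) := by
  have h1 : (al0 k t f).re = 3 := rfl
  have h2 : (al0 k t f).im = f := rfl
  unfold Nm
  rw [h1, h2]
  ring

/-- `y / γ` is in `Lam (c b)` iff `u` is in `pp`. -/
private theorem Di1_C (hL : S_Lt) (h2 : S_O2) (h3 : S_O3) (h4 : S_O4) {k t : ℕ} [SqT k t]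
    (b c : Ideal (OO k t)) (γ u : OO k t) (hb : b ≠ ⊥) (hc : c ≠ ⊥) (hγ : γ ≠ 0)
    (hs : sp γ = pp k t * c) (hN : (Nm γ : ℤ) = 3 * NI c) (hcop : cjI b ⊔ pp k t = ⊤) (hu : u ∈ cjI b) :
    toC u / NI b / toC γ ∈ Lam (c * b) ↔ u ∈ pp k t := by
  obtain ⟨-, -, -, -, hNmul, hN0, -, -⟩ := h2 k t
  obtain ⟨-, hcm, -, hcsp, -, -, -, -⟩ := h3 k t
  obtain ⟨hpp, hcj1, -, -, -, -, -, -, -, -, -, -⟩ := h4 k t
  obtain ⟨-, hL2, -⟩ := hL k t (c * b) (mul_ne_zero hc hb)
  have hn : (NI b : ℂ) ≠ 0 := by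
    intro h
    exact hb ((hN0 b).1 (by exact_mod_cast h))
  have hnc : (NI c : ℂ) ≠ 0 := by
    intro h
    exact hc ((hN0 c).1 (by exact_mod_cast h))
  have hg : toC γ ≠ 0 := toC_ne hγ
  have hgc : cjO γ ≠ 0 := fun h => hγ (by rw [← cjO_cjO γ, h, cjO_zero])
  have hgg : toC γ * toC (cjO γ) = 3 * NI c := by
    rw [← toC_Nm, hN]
    push_cast
    ring
  have hsc : sp (cjO γ) = ppb k t * cjI c := by
    rw [← hcsp, hs, hcm, hcj1]
  have e1 : sN k t 3 * cjI (c * b) = sp (cjO γ) * (pp k t * cjI b) := by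
    rw [← hpp, hcm, hsc]
    ring
  have h5 : toC u / NI b / toC γ ∈ Lam (c * b) ↔ u * cjO γ ∈ sN k t 3 * cjI (c * b) := by
    rw [hL2, Ideal.mem_span_singleton_mul]
    constructor
    · rintro ⟨w, hw, e⟩
      refine ⟨w, hw, ?_⟩
      apply toC_inj
      rw [toC_mul, toC_mul, toC_nat]
      rw [hNmul] at e
      push_cast at e ⊢
      have e' : toC u * NI c = toC w * toC γ := by
        rw [div_div, div_eq_div_iff (mul_ne_zero hn hg) (mul_ne_zero hnc hn)] at e
        apply mul_right_cancel₀ hn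
        linear_combination e
      apply mul_left_cancel₀ hnc
      linear_combination (-toC w) * hgg - toC (cjO γ) * e'
    · rintro ⟨w, hw, e⟩
      refine ⟨w, hw, ?_⟩
      have e' := congrArg toC e
      rw [toC_mul, toC_mul, toC_nat] at e'
      rw [hNmul, div_div, div_eq_div_iff (mul_ne_zero hn hg) (by push_cast; exact mul_ne_zero hnc hn)]
      push_cast at e' ⊢
      have hgc' : toC (cjO γ) ≠ 0 := toC_ne hgc
      apply mul_right_cancel₀ hgc'
      linear_combination (-(NI c : ℂ) * NI b) * e' - toC w * NI b * hgg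
  rw [h5, e1, Ideal.mem_span_singleton_mul]
  have hinf : pp k t * cjI b = pp k t ⊓ cjI b := by
    apply Ideal.mul_eq_inf_of_coprime
    rw [sup_comm]
    exact hcop
  constructor
  · rintro ⟨z, hz, e⟩
    have : z = u := by
      apply mul_left_cancel₀ hgc
      rw [e, mul_comm]
    rw [← this]
    rw [hinf] at hz
    exact hz.1
  · intro h
    refine ⟨u, ?_, by rw [mul_comm]⟩
    rw [hinf]
    exact ⟨h, hu⟩

theorem tDi1 (hL : S_Lt) (hV : S_V0) (h2 : S_O2) (h3 : S_O3) (h4 : S_O4) (h6 : S_O6) : S_Di1 := by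
  intro k t hT f b c γ hf hB hs hγ1 hγ0
  obtain ⟨-, -, -, hNsp, hNmul, hN0, -, -⟩ := h2 k t
  obtain ⟨hm3, hcm, hcc, hcsp, -, hPc, -, -⟩ := h3 k t
  obtain ⟨hpp, hcj1, hcj2, hpP, hpbP, hNp, hNpb, hsup, hpne, hpbne, hmp, hmpb⟩ := h4 k t
  obtain ⟨hV1, hV2, hV3, -⟩ := hV k t f hf
  obtain ⟨h61, h62, h63, h64, -, -, h67, -⟩ := h6 k t
  have hf0 : 0 < f := hf.pos
  -- elementary facts on `c`, `γ`
  have hγm : γ ∈ pp k t * c := by
    rw [← hs]
    exact Ideal.mem_span_singleton_self γ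
  have hle1 : pp k t * c ≤ pp k t := Ideal.mul_le_left
  have hle2 : pp k t * c ≤ c := Ideal.mul_le_right
  have hle3 : cnd k t f ≤ ppb k t := by
    unfold cnd
    exact Ideal.mul_le_right
  have hγp : γ ∈ pp k t := hle1 hγm
  have hγc : γ ∈ c := hle2 hγm
  have hc : c ≠ ⊥ := by
    intro h
    apply hγ0
    rw [h, Ideal.mul_bot] at hs
    exact Ideal.span_singleton_eq_bot.1 hs
  have hN : (Nm γ : ℤ) = 3 * NI c := by
    rw [← hNsp, hs, hNmul, hNp]
    push_cast
    ring
  have hcop : PrI c (cnd k t f) := by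
    have h1 : PrI (sp γ) (cnd k t f) := by
      apply h67 _ 1 γ
      · have : (1 : OO k t) - γ = -(γ - 1) := by ring
        rw [this]
        exact neg_mem hγ1
      · unfold PrI
        rw [show sp (1 : OO k t) = ⊤ from Ideal.span_singleton_one, top_sup_eq]
    rw [hs, h61] at h1
    exact h1.2
  have hFB : FB f (c * b) := ⟨mul_ne_zero hc hB.ne, (h61 _ _ _).2 ⟨hcop, hB.cop⟩⟩
  obtain ⟨s, hs'⟩ := hV2 (γ - 1) hγ1
  have hsL : ∀ b : Ideal (OO k t), toC s ∈ Lam b := fun b => lam_anti le_top (lam_top.2 ⟨_, rfl⟩)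
  rw [toC_sub, toC_one] at hs'
  refine ⟨?_, ?_, hc, hN, hFB⟩
  · intro v hv
    have hg : toC γ ≠ 0 := toC_ne hγ0
    obtain ⟨hnpos, hL2, -, hL4, -⟩ := hL k t b hB.ne
    obtain ⟨y, hy⟩ : ∃ y : ℂ, y = v - toC γ * v0 k t f := ⟨_, rfl⟩
    have hyL : y ∈ Lam b := by
      have : y = (v - v0 k t f) - toC s := by
        rw [hy, ← hs']
        ring
      rw [this]
      exact lam_sub hv (hsL b)
    obtain ⟨u, hu, hyu⟩ := (hL2 y).1 hyL
    obtain ⟨m, hm⟩ := hL4 y hyL
    -- (D)
    have hD : (∃ v' ∈ cs (v0 k t f) (c * b), v = toC γ * v') ↔ y / toC γ ∈ Lam (c * b) := by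
      constructor
      · rintro ⟨v', hv', rfl⟩
        have : y / toC γ = v' - v0 k t f := by
          rw [hy]
          field_simp
        rw [this]
        exact hv'
      · intro h
        refine ⟨v / toC γ, ?_, by field_simp⟩
        have : v / toC γ - v0 k t f = y / toC γ := by
          rw [hy]
          field_simp
        change v / toC γ - v0 k t f ∈ Lam (c * b)
        rw [this]
        exact h
    -- (C)
    have hcp : cjI b ⊔ pp k t = ⊤ := by
      have h1 : PrI b (ppb k t) := h64 b _ _ hle3 hB.cop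
      have h5 := (hPc b (ppb k t)).2 h1
      rw [hcj2] at h5
      exact h5
    rw [hD, hyu, Di1_C hL h2 h3 h4 b c γ u hB.ne hc hγ0 hs hN hcp hu]
    -- (B)
    have hB1 : u ∈ pp k t ↔ (3 : ℤ) ∣ 2 * (γ * al0 k t f * cjO u).re + t * (γ * al0 k t f * cjO u).im := by
      have hx : γ * al0 k t f * cjO u ∈ pp k t :=
        (pp k t).mul_mem_right _ ((pp k t).mul_mem_right _ hγp)
      have hx1 := (hmp _).1 hx
      have ht : ∃ e : ℤ, (t : ℤ) = 1 + 3 * e := by
        rcases hT.out with ⟨h1, -⟩ | ⟨h1, -⟩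
        · exact ⟨0, by rw [h1]; norm_num⟩
        · exact ⟨1, by rw [h1]; norm_num⟩
      obtain ⟨e, he⟩ := ht
      have hγb : γ ∉ ppb k t := by
        intro h
        have h1 : γ - 1 ∈ ppb k t := hle3 hγ1
        have h5 : (1 : OO k t) ∈ ppb k t := by
          have : (1 : OO k t) = γ - (γ - 1) := by ring
          rw [this]
          exact sub_mem h h1
        exact hpbP.ne_top ((Ideal.eq_top_iff_one _).2 h5)
      have hαb : al0 k t f ∉ ppb k t := by
        intro h
        have h1 := (hmpb _).1 h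
        have h5 : (al0 k t f).re = 3 := rfl
        have h7 : (al0 k t f).im = f := rfl
        rw [h5, h7] at h1
        have h8 : (3 : ℤ) ∣ f := by
          have : (f : ℤ) = (3 + f) - 3 := by ring
          rw [this]
          exact dvd_sub h1 (dvd_refl 3)
        have h9 : 3 ∣ f := by exact_mod_cast h8
        exact (Nat.Prime.coprime_iff_not_dvd Nat.prime_three).1 hf.cop.symm h9
      have hiff : u ∈ pp k t ↔ γ * al0 k t f * cjO u ∈ ppb k t := by
        rw [← hcj2, hm3]
        constructor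
        · intro h
          exact (ppb k t).mul_mem_left _ h
        · intro h
          rcases hpbP.mem_or_mem h with h | h
          · rcases hpbP.mem_or_mem h with h | h
            · exact absurd h hγb
            · exact absurd h hαb
          · exact h
      rw [hiff, hmpb]
      obtain ⟨r, hr⟩ := hx1
      rw [hr]
      constructor
      · rintro ⟨j, hj⟩
        refine ⟨r + j + e * (γ * al0 k t f * cjO u).im, ?_⟩
        linear_combination hj + (γ * al0 k t f * cjO u).im * he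
      · rintro ⟨j, hj⟩
        refine ⟨j - r - e * (γ * al0 k t f * cjO u).im, ?_⟩
        linear_combination hj - (γ * al0 k t f * cjO u).im * he
    rw [hB1]
    -- (A)
    have hnR : (NI b : ℝ) ≠ 0 := by exact_mod_cast hnpos.ne'
    have hnC : (NI b : ℂ) ≠ 0 := by exact_mod_cast hnpos.ne'
    have hfR : (f : ℝ) ≠ 0 := by exact_mod_cast hf0.ne'
    have hfC : (f : ℂ) ≠ 0 := by exact_mod_cast hf0.ne'
    obtain ⟨W, hW⟩ : ∃ W : OO k t, W = ((NI b : ℤ) : OO k t) * (γ * al0 k t f) + ((3 * f : ℤ) : OO k t) * u := ⟨_, rfl⟩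
    have hvW : ((3 * f * NI b : ℕ) : ℂ) * v = toC W := by
      have hv' : v = toC γ * v0 k t f + toC u / NI b := by
        rw [← hyu, hy]
        ring
      rw [hW, toC_add, toC_mul, toC_mul, toC_mul, toC_int, toC_int, ← hV3, hv']
      push_cast
      field_simp
    have hNW : Nm W = NI b * (3 * (3 * NI b * NI c * (3 + t * f + k * f ^ 2) +
        f * (2 * (γ * al0 k t f * cjO u).re + t * (γ * al0 k t f * cjO u).im) + 3 * f ^ 2 * m)) := by
      have hmu : Nm u = NI b * m := by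
        have h1 : ((Nm u : ℤ) : ℝ) = NI b * m := by
          rw [Nm_norm, ← hm, hyu, norm_div, Complex.norm_natCast]
          field_simp
        exact_mod_cast h1
      rw [hW, Di1_Nm, Nm_mul, hN, Di1_al, hmu]
      ring
    have hq : 3 * (f : ℝ) ^ 2 * NI b * ‖v‖ ^ 2 = ((3 * NI b * NI c * (3 + t * f + k * f ^ 2) +
        f * (2 * (γ * al0 k t f * cjO u).re + t * (γ * al0 k t f * cjO u).im) + 3 * f ^ 2 * m : ℤ) : ℝ) := by
      have h1 : ((Nm W : ℤ) : ℝ) = (3 * f * NI b) ^ 2 * ‖v‖ ^ 2 := by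
        rw [Nm_norm, ← hvW, norm_mul, Complex.norm_natCast]
        push_cast
        ring
      rw [hNW] at h1
      have h5 : (3 * NI b : ℝ) ≠ 0 := by positivity
      apply mul_left_cancel₀ h5
      push_cast at h1 ⊢
      linear_combination -h1
    have hnn : (0 : ℝ) ≤ 3 * (f : ℝ) ^ 2 * NI b * ‖v‖ ^ 2 := by positivity
    have hQ : ∃ Q : ℤ, Q = 3 * NI b * NI c * (3 + t * f + k * f ^ 2) +
        f * (2 * (γ * al0 k t f * cjO u).re + t * (γ * al0 k t f * cjO u).im) + 3 * f ^ 2 * m := ⟨_, rfl⟩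
    obtain ⟨Q, hQ⟩ := hQ
    rw [← hQ] at hq
    rw [hq] at hnn ⊢
    have hnn' : 0 ≤ Q := by exact_mod_cast hnn
    have h7 : (∃ j : ℕ, (Q : ℝ) = 3 * j) ↔ (3 : ℤ) ∣ Q := by
      constructor
      · rintro ⟨j, hj⟩
        exact ⟨j, by exact_mod_cast hj⟩
      · rintro ⟨j, hj⟩
        have hj0 : 0 ≤ j := by omega
        obtain ⟨n, rfl⟩ := Int.eq_ofNat_of_zero_le hj0
        refine ⟨n, ?_⟩
        rw [hj]
        push_cast
        rfl
    rw [h7, hQ]
    have h3f : IsCoprime (3 : ℤ) (f : ℤ) := by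
      have h1 : Nat.Coprime 3 f := by
        have := hf.cop
        exact this.symm
      exact_mod_cast Nat.isCoprime_iff_coprime.2 h1
    constructor
    · rintro ⟨j, hj⟩
      apply h3f.dvd_of_dvd_mul_left
      refine ⟨j - NI b * NI c * (3 + t * f + k * f ^ 2) - f ^ 2 * m, ?_⟩
      linear_combination hj
    · rintro ⟨j, hj⟩
      rw [hj]
      exact ⟨NI b * NI c * (3 + t * f + k * f ^ 2) + f * j + f ^ 2 * m, by ring⟩
  · intro v' hv'
    change toC γ * v' - v0 k t f ∈ Lam b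
    have h1 : toC γ * v' - v0 k t f = toC s + toC γ * (v' - v0 k t f) := by
      rw [← hs']
      ring
    rw [h1]
    exact lam_add (hsL b) (lam_prod.1 hv' γ hγc)

end Pool.Agent.DT.C
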