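import Pool.Agent.Lib.DT.C.Spec

/-!
# THEOREM DT, Part C, module C/Dis: the distribution relation for `3`

After the docstring of `S_Dis`.
-/

set_option autoImplicit false

open Filter Topology
open scoped Pointwise

noncomputable section

namespace Pool.Agent.DT.C

open Pool.Agent.MuZ Pool.Agent.FW NumberField
open Pool.Agent.DI (io ofC io_inj exists_io io_ofC ofC_io VP MP UP TP ex)

private lemma Dis_ex_add (x y : ℂ) : ex (x + y) = ex x * ex y := by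
  unfold ex
  rw [← Complex.exp_add]
  ring_nf

private lemma Dis_ex_int (n : ℤ) : ex n = 1 := by
  unfold ex
  rw [Complex.exp_eq_one_iff]
  exact ⟨n, by ring⟩

private lemma Dis_ex_one {x : ℂ} (h : ex x = 1) : ∃ n : ℤ, x = n := by
  unfold ex at h
  obtain ⟨n, hn⟩ := Complex.exp_eq_one_iff.1 h
  refine ⟨n, ?_⟩
  have h2 : (2 * (Real.pi : ℂ) * Complex.I) ≠ 0 := Complex.two_pi_I_ne_zero
  have h3 : (2 * (Real.pi : ℂ) * Complex.I) * x = (2 * (Real.pi : ℂ) * Complex.I) * n := by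
    rw [hn]; ring
  exact mul_left_cancel₀ h2 h3

/-- The sum over the three translates. -/
private lemma Dis_sum (q : ℕ) (z : ℂ) :
    ∑ j ∈ Finset.range 3, ex ((q : ℂ) * ((z + j) / 3)) =
      if (3 ∣ q) then 3 * ex ((q : ℂ) * (z / 3)) else 0 := by
  have h1 : ∀ j : ℕ, ex ((q : ℂ) * ((z + j) / 3)) =
      ex ((q : ℂ) * (z / 3)) * ex ((q : ℂ) * (j / 3)) := by
    intro j
    rw [← Dis_ex_add]
    congr 1
    ring
  rw [Finset.sum_congr rfl fun j _ => h1 j, ← Finset.mul_sum]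
  split_ifs with h
  · obtain ⟨r, rfl⟩ := h
    have h2 : ∀ j : ℕ, ex (((3 * r : ℕ) : ℂ) * (j / 3)) = 1 := by
      intro j
      rw [show ((3 * r : ℕ) : ℂ) * (j / 3) = ((r * j : ℤ) : ℂ) by push_cast; ring]
      exact Dis_ex_int _
    rw [Finset.sum_congr rfl fun j _ => h2 j]
    simp
    ring
  · have h3 : ∀ j : ℕ, ex ((q : ℂ) * (j / 3)) = ex ((q : ℂ) / 3) ^ j := by
      intro j
      unfold ex
      rw [← Complex.exp_nat_mul]
      congr 1
      ring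
    have h4 : ex ((q : ℂ) / 3) ≠ 1 := by
      intro h5
      obtain ⟨n, hn⟩ := Dis_ex_one h5
      apply h
      have h6 : (q : ℂ) = 3 * n := by
        rw [← hn]
        ring
      have h7 : (q : ℤ) = 3 * n := by exact_mod_cast h6
      have h8 : (3 : ℤ) ∣ q := ⟨n, h7⟩
      exact_mod_cast h8
    have h5 : ex ((q : ℂ) / 3) ^ 3 = 1 := by
      rw [← h3 3]
      rw [show (q : ℂ) * (((3 : ℕ) : ℂ) / 3) = ((q : ℤ) : ℂ) by push_cast; ring]
      exact Dis_ex_int _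
    rw [Finset.sum_congr rfl fun j _ => h3 j, geom_sum_eq h4, h5, sub_self, zero_div, mul_zero]

/-- Module Dis. -/
theorem tDis (hD : S_Di1) (hL : S_Lt) (hT : S_Tt) (hR : S_Red) (hV : S_V0) (h2 : S_O2) : S_Dis := by
  intro k t _ f b c γ hf hb hg h1 h0 z hz
  classical
  obtain ⟨hD1, hD2, hc0, hN, hcb⟩ := hD k t f b c γ hf hb hg h1 h0
  obtain ⟨hn, -, -, -, -, -, hS⟩ := hL k t b hb.ne
  obtain ⟨hT1, -, hT3, -, -⟩ := hT
  obtain ⟨-, -, -, -, hV5, -⟩ := hV k t f hf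
  have hf0 : 0 < f := hf.pos
  have hγ : toC γ ≠ 0 := toC_ne h0
  have e1 : (((1 : ℤ) : ℂ) * v0 k t f) = v0 k t f := by rw [Int.cast_one, one_mul]
  have hTor : Tor k t (v0 k t f) := by
    rw [v0_eq hf0]
    exact tor_div (by omega) _
  set A : Set ℂ := cs (v0 k t f) b with hA
  set W : ℝ := 3 * (f : ℝ) ^ 2 * NI b with hW
  have hW0 : 0 < W := by
    rw [hW]
    have : (0 : ℝ) < NI b := by exact_mod_cast hn
    have : (0 : ℝ) < f := by exact_mod_cast hf0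
    positivity
  have hq : ∀ v ∈ A, ∃ n : ℕ, W * ‖v‖ ^ 2 = n := by
    intro v hv
    refine hV5 b hb.ne 1 v ?_
    rw [e1]
    exact hv
  -- the three terms
  have hR1 : ∀ w : ℂ, Tc f b 1 w = TT A W w := by
    intro w
    rw [(hR k t f b hf hb.ne 1).2.2.1 w, e1]
  have hsum : ∀ j ∈ Finset.range 3, Summable fun v : A =>
      (v : ℂ)⁻¹ * ex (W * ‖(v : ℂ)‖ ^ 2 * ((z + j) / 3)) := by
    intro j _
    refine hS (v0 k t f) W ((z + j) / 3) hTor hW0 ?_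
    have e : ((z + (j : ℂ)) / 3).im = z.im / 3 := by
      rw [show (3 : ℂ) = ((3 : ℝ) : ℂ) by norm_num, Complex.div_ofReal_im, Complex.add_im,
        Complex.natCast_im, add_zero]
    rw [e]
    positivity
  have s1 : ∑ j ∈ Finset.range 3, Tc f b 1 ((z + j) / 3) =
      ∑' v : A, ∑ j ∈ Finset.range 3, (v : ℂ)⁻¹ * ex (W * ‖(v : ℂ)‖ ^ 2 * ((z + j) / 3)) := by
    rw [Summable.tsum_finsetSum hsum]
    refine Finset.sum_congr rfl fun j _ => ?_
    rw [hR1]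
    rfl
  set A' : Set ℂ := (fun v => toC γ * v) '' cs (v0 k t f) (c * b) with hA'
  have hAA : A' ⊆ A := by
    rintro _ ⟨v, hv, rfl⟩
    exact hD2 v hv
  have s2 : ∀ v : A, ∑ j ∈ Finset.range 3, (v : ℂ)⁻¹ * ex (W * ‖(v : ℂ)‖ ^ 2 * ((z + j) / 3)) =
      A'.indicator (fun v : ℂ => 3 * (v⁻¹ * ex (W * ‖v‖ ^ 2 * (z / 3)))) (v : ℂ) := by
    rintro ⟨v, hv⟩
    obtain ⟨n, hn'⟩ := hq v hv
    have e2 : ((W : ℂ) * (‖v‖ : ℂ) ^ 2) = (n : ℂ) := by
      have := congrArg (fun x : ℝ => (x : ℂ)) hn'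
      simpa using this
    have e3 : v ∈ A' ↔ 3 ∣ n := by
      rw [hA', Set.mem_image]
      constructor
      · rintro ⟨v', hv', hvv⟩
        obtain ⟨j, hj⟩ := (hD1 v hv).2 ⟨v', hv', hvv.symm⟩
        rw [hn'] at hj
        exact ⟨j, by exact_mod_cast hj⟩
      · rintro ⟨j, hj⟩
        obtain ⟨v', hv', hvv⟩ := (hD1 v hv).1 ⟨j, by rw [hn', hj]; push_cast; ring⟩
        exact ⟨v', hv', hvv.symm⟩
    simp only [Set.indicator_apply, e3, e2]
    rw [← Finset.mul_sum, Dis_sum]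
    split_ifs
    · ring
    · ring
  have s3 : ∑' v : A, ∑ j ∈ Finset.range 3, (v : ℂ)⁻¹ * ex (W * ‖(v : ℂ)‖ ^ 2 * ((z + j) / 3)) =
      3 * TT A' W (z / 3) := by
    rw [tsum_congr s2, tsum_subtype A, Set.indicator_indicator, Set.inter_eq_right.2 hAA,
      ← tsum_subtype A', tsum_mul_left]
    rfl
  have t1 : TT A' W (z / 3) =
      (toC γ)⁻¹ * TT (cs (v0 k t f) (c * b)) (W * ‖toC γ‖ ^ 2) (z / 3) :=
    hT1 _ (toC γ) W (z / 3) hγ
  rw [s1, s3, t1]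
  obtain ⟨-, -, -, -, hmul, -, -, -⟩ := h2 k t
  have e4 : W * ‖toC γ‖ ^ 2 = (3 * (f : ℝ) ^ 2 * NI (c * b)) * 3 := by
    rw [← Nm_norm, hN, hmul, hW]
    push_cast
    ring
  have t3 : TT (cs (v0 k t f) (c * b)) ((3 * (f : ℝ) ^ 2 * NI (c * b)) * 3) (z / 3) =
      TT (cs (v0 k t f) (c * b)) (3 * (f : ℝ) ^ 2 * NI (c * b)) (((3 : ℝ) : ℂ) * (z / 3)) :=
    hT3 _ _ _ _
  have e5 : ((3 : ℝ) : ℂ) * (z / 3) = z := by
    push_cast
    ring
  rw [e4, t3, e5, (hR k t f (c * b) hf hcb.ne 1).2.2.1 z, e1]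
  rw [div_eq_mul_inv, mul_assoc (3 : ℂ)]

end Pool.Agent.DT.C
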