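import Pool.Agent.Lib.DT.C.Spec

/-!
# Theorem DT, part C, module Ech: the quadratic character
-/

set_option autoImplicit false

noncomputable section

namespace Pool.Agent.DT.C

open Pool.Agent.MuZ Pool.Agent.FW NumberField

private theorem Ech_A {D n m : ℕ} (hn : Odd n) (hm : Odd m)
    (h : ((4 * D : ℕ) : ℤ) ∣ (n : ℤ) - m) : jacobiSym (-(D : ℤ)) n = jacobiSym (-(D : ℤ)) m := by
  rw [jacobiSym.mod_right _ hn, jacobiSym.mod_right _ hm]
  have h1 : (-(D : ℤ)).natAbs = D := by simp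
  rw [h1]
  have h2 : n % (4 * D) = m % (4 * D) := ((Nat.modEq_iff_dvd.2 (by
    have := (dvd_neg).2 h
    rwa [neg_sub] at this)) : n ≡ m [MOD 4 * D])
  rw [h2]

private theorem Ech_sq {a : ℤ} {b : ℕ} (h : a.gcd b = 1) : jacobiSym a b * jacobiSym a b = 1 := by
  rcases jacobiSym.eq_one_or_neg_one h with h1 | h1 <;> rw [h1] <;> norm_num

private theorem Ech_q {D : ℕ} (hD : 0 < D) : jacobiSym (-(D : ℤ)) (4 * D - 1) = -1 := by
  have hq4 : (4 * D - 1) % 4 = 3 := by omega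
  have hodd : Odd (4 * D - 1) := Nat.odd_iff.2 (by omega)
  have h2 : jacobiSym 4 (4 * D - 1) = 1 := by
    have h3 : (4 : ℤ) = 2 * 2 := by norm_num
    have h4 : (2 : ℤ).gcd ((4 * D - 1 : ℕ) : ℤ) = 1 := by
      have h5 : Nat.Coprime 2 (4 * D - 1) := (Nat.coprime_two_left).2 hodd
      exact h5
    rw [h3, jacobiSym.mul_left]
    exact Ech_sq h4
  have h6 : jacobiSym (-(D : ℤ)) (4 * D - 1) = jacobiSym (4 * -(D : ℤ)) (4 * D - 1) := by
    rw [jacobiSym.mul_left, h2, one_mul]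
  have h7 : jacobiSym (4 * -(D : ℤ)) (4 * D - 1) = jacobiSym (-1) (4 * D - 1) := by
    apply jacobiSym.mod_left'
    have h8 : ((4 * D - 1 : ℕ) : ℤ) ∣ 4 * -(D : ℤ) - (-1) := by
      have : ((4 * D - 1 : ℕ) : ℤ) = 4 * (D : ℤ) - 1 := by
        rw [Nat.cast_sub (by omega)]
        push_cast
        ring
      rw [this]
      exact ⟨-1, by ring⟩
    exact Int.ModEq.symm (Int.modEq_iff_dvd.2 h8)
  rw [h6, h7, jacobiSym.at_neg_one hodd, ZMod.χ₄_nat_three_mod_four hq4]

private theorem Ech_B {D n m : ℕ} (hD : 0 < D) (hn : Odd n) (hm : Odd m) (hc : Nat.Coprime n D)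
    (h : ((4 * D : ℕ) : ℤ) ∣ (n : ℤ) + m) :
    jacobiSym (-(D : ℤ)) n = -jacobiSym (-(D : ℤ)) m := by
  have hn4 : Nat.Coprime n (4 * D) := by
    refine Nat.Coprime.mul_right ?_ hc
    have : Nat.Coprime n (2 ^ 2) := Nat.Coprime.pow_right 2 ((Nat.coprime_two_right).2 hn)
    exact this
  obtain ⟨x, -, hx⟩ := Nat.exists_mul_mod_eq_one_of_coprime hn4 (by omega)
  have hx0 : x ≠ 0 := by
    rintro rfl
    simp at hx
  have hnx : ((4 * D : ℕ) : ℤ) ∣ (n : ℤ) * x - 1 := by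
    have h1 : n * x = 4 * D * (n * x / (4 * D)) + 1 := by
      have := Nat.div_add_mod (n * x) (4 * D)
      rw [hx] at this
      exact this.symm
    have h2 : ((n * x : ℕ) : ℤ) = ((4 * D * (n * x / (4 * D)) + 1 : ℕ) : ℤ) := congrArg Nat.cast h1
    rw [Nat.cast_mul, Nat.cast_add, Nat.cast_mul (4 * D)] at h2
    exact ⟨((n * x / (4 * D) : ℕ) : ℤ), by linear_combination h2⟩
  have hxo : Odd x := by
    have h1 : n * x % (4 * D) % 2 = n * x % 2 := Nat.mod_mod_of_dvd _ ⟨2 * D, by ring⟩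
    rw [hx] at h1
    have h2 : Odd (n * x) := Nat.odd_iff.2 h1.symm
    exact (Nat.odd_mul.1 h2).2
  have hxc : (-(D : ℤ)).gcd x = 1 := by
    have h1 : IsCoprime (x : ℤ) ((4 * D : ℕ) : ℤ) := by
      obtain ⟨y, hy⟩ := hnx
      exact ⟨n, -y, by linear_combination hy⟩
    have h2 : IsCoprime (x : ℤ) (D : ℤ) := by
      push_cast at h1
      exact (IsCoprime.mul_right_iff.1 h1).2
    exact Int.isCoprime_iff_gcd_eq_one.1 h2.neg_right.symm
  have hmc : (-(D : ℤ)).gcd m = 1 := by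
    have h0 : IsCoprime (n : ℤ) (D : ℤ) := Nat.isCoprime_iff_coprime.2 hc
    have h1 : IsCoprime (m : ℤ) (D : ℤ) := by
      obtain ⟨y, hy⟩ := h
      push_cast at hy
      have h2 : (m : ℤ) = -n + D * (4 * y) := by linear_combination hy
      rw [h2]
      exact (h0.neg_left).add_mul_left_left _
    exact Int.isCoprime_iff_gcd_eq_one.1 h1.neg_right.symm
  have hn0 : n ≠ 0 := by
    rintro rfl
    simp at hn
  have hm0 : m ≠ 0 := by
    rintro rfl
    simp at hm
  have key : jacobiSym (-(D : ℤ)) (n * m * (x * x)) = -1 := by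
    rw [← Ech_q hD]
    refine Ech_A ((hn.mul hm).mul (hxo.mul hxo)) (Nat.odd_iff.2 (by omega)) ?_
    obtain ⟨y, hy⟩ := h
    obtain ⟨z, hz⟩ := hnx
    have h1 : ((4 * D - 1 : ℕ) : ℤ) = ((4 * D : ℕ) : ℤ) - 1 := by
      rw [Nat.cast_sub (by omega)]
      push_cast
      ring
    rw [h1]
    refine ⟨n * (x * x) * y - (n * x + 1) * z - 1, ?_⟩
    push_cast at hy hz ⊢
    linear_combination (n * (x * x) : ℤ) * hy - (n * x + 1 : ℤ) * hz
  rw [jacobiSym.mul_right' _ (Nat.mul_ne_zero hn0 hm0) (Nat.mul_ne_zero hx0 hx0),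
    jacobiSym.mul_right' _ hn0 hm0, jacobiSym.mul_right' _ hx0 hx0, Ech_sq hxc, mul_one] at key
  have h2 := Ech_sq hmc
  linear_combination jacobiSym (-(D : ℤ)) m * key - jacobiSym (-(D : ℤ)) n * h2

private theorem Ech_odd0 {d : ℤ} (h : Odd d) : d ≠ 0 := by
  rintro rfl
  simp at h

theorem tEch : S_Ech := by
  intro k t _
  have hD : 0 < Dk k t := by
    have h1 := Dk_cast (k := k) (t := t)
    have h2 := hD8 (k := k) (t := t)
    omega
  have hp : ∀ d : ℤ, 0 < d → eps k t d = jacobiSym (-(Dk k t : ℤ)) d.natAbs := by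
    intro d hd
    unfold eps
    rw [Int.sign_eq_one_of_pos hd, one_mul]
  have hn : ∀ d : ℤ, d < 0 → eps k t d = -jacobiSym (-(Dk k t : ℤ)) d.natAbs := by
    intro d hd
    unfold eps
    rw [Int.sign_eq_neg_one_of_neg hd, neg_one_mul]
  have hneg : ∀ d : ℤ, eps k t (-d) = -eps k t d := by
    intro d
    unfold eps
    rw [Int.sign_neg, Int.natAbs_neg, neg_mul]
  refine ⟨?_, ?_, hneg, ?_⟩
  · intro d ho hc
    have hg : (-(Dk k t : ℤ)).gcd d.natAbs = 1 := by
      have h1 : Nat.Coprime d.natAbs (Dk k t) := by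
        have := Int.isCoprime_iff_gcd_eq_one.1 hc
        simpa [Int.gcd_eq_natAbs] using this
      change Nat.gcd (-(Dk k t : ℤ)).natAbs ((d.natAbs : ℤ)).natAbs = 1
      rw [Int.natAbs_neg, Int.natAbs_natCast, Int.natAbs_natCast]
      exact h1.symm
    rcases lt_or_gt_of_ne (Ech_odd0 ho) with h | h
    · rw [hn d h]
      rcases jacobiSym.eq_one_or_neg_one hg with h1 | h1 <;> rw [h1]
      · exact Or.inr rfl
      · exact Or.inl (by norm_num)
    · rw [hp d h]
      exact jacobiSym.eq_one_or_neg_one hg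
  · intro d d' ho ho' hc hdd
    have hd4 : ((4 * Dk k t : ℕ) : ℤ) ∣ d - d' := by
      push_cast
      exact hdd
    have hcn : Nat.Coprime d.natAbs (Dk k t) := by
      have := Int.isCoprime_iff_gcd_eq_one.1 hc
      simpa [Int.gcd_eq_natAbs] using this
    have hon : Odd d.natAbs := Int.natAbs_odd.2 ho
    have hon' : Odd d'.natAbs := Int.natAbs_odd.2 ho'
    rcases lt_or_gt_of_ne (Ech_odd0 ho) with h | h <;>
      rcases lt_or_gt_of_ne (Ech_odd0 ho') with h' | h'
    · rw [hn d h, hn d' h', Ech_A hon hon' ?_]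
      have e1 : (d.natAbs : ℤ) = -d := Int.ofNat_natAbs_of_nonpos h.le
      have e2 : (d'.natAbs : ℤ) = -d' := Int.ofNat_natAbs_of_nonpos h'.le
      rw [e1, e2]
      have := (dvd_neg).2 hd4
      have e3 : -(d - d') = -d - -d' := by ring
      rwa [e3] at this
    · rw [hn d h, hp d' h', Ech_B hD hon hon' hcn ?_, neg_neg]
      have e1 : (d.natAbs : ℤ) = -d := Int.ofNat_natAbs_of_nonpos h.le
      have e2 : (d'.natAbs : ℤ) = d' := Int.natAbs_of_nonneg h'.le
      rw [e1, e2]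
      have := (dvd_neg).2 hd4
      have e3 : -(d - d') = -d + d' := by ring
      rwa [e3] at this
    · rw [hp d h, hn d' h', Ech_B hD hon hon' hcn ?_]
      have e1 : (d.natAbs : ℤ) = d := Int.natAbs_of_nonneg h.le
      have e2 : (d'.natAbs : ℤ) = -d' := Int.ofNat_natAbs_of_nonpos h'.le
      rw [e1, e2, ← sub_eq_add_neg]
      exact hd4
    · rw [hp d h, hp d' h', Ech_A hon hon' ?_]
      have e1 : (d.natAbs : ℤ) = d := Int.natAbs_of_nonneg h.le
      have e2 : (d'.natAbs : ℤ) = d' := Int.natAbs_of_nonneg h'.le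
      rw [e1, e2]
      exact hd4
  · rw [hp 1 one_pos]
    simp

end Pool.Agent.DT.C
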