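import Pool.Agent.Lib.DT.C.Spec

/-!
# THEOREM DT, Part C, module Eps: the multiplier is `ε(d)`
-/

set_option autoImplicit false

open Filter Topology
open scoped Pointwise

noncomputable section

namespace Pool.Agent.DT.C

open Pool.Agent.MuZ Pool.Agent.FW NumberField
open Pool.Agent.DI (io ofC io_inj exists_io io_ofC ofC_io VP MP UP TP ex)

variable {k t : ℕ}

private theorem eps_ex_add (a b : ℂ) : ex (a + b) = ex a * ex b := by
  unfold ex
  rw [← Complex.exp_add]
  congr 1
  ring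

private theorem eps_ex_int (n : ℤ) : ex n = 1 := by
  unfold ex
  rw [Complex.exp_eq_one_iff]
  exact ⟨n, by ring⟩

private theorem eps_Gt_add (ρ : OO k t → ℂ) (z : ℂ) (n : ℤ) : Gt ρ (z + n) = Gt ρ z := by
  unfold Gt
  congr 1
  congr 1
  funext v
  have h1 : (Nm v : ℂ) * (z + n) = Nm v * z + ((Nm v * n : ℤ) : ℂ) := by
    push_cast
    ring
  rw [h1, eps_ex_add, eps_ex_int, mul_one]

private theorem eps_Gt_neg (ρ : OO k t → ℂ) (hρ : OddO ρ) (d : ℤ) (z : ℂ) :
    Gt (tw ρ ((-d : ℤ) : OO k t)) z = -Gt (tw ρ (d : OO k t)) z := by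
  unfold Gt
  rw [← mul_neg (1 / 2 : ℂ), ← tsum_neg]
  congr 1
  congr 1
  funext v
  have h1 : tw ρ ((-d : ℤ) : OO k t) v = -tw ρ (d : OO k t) v := by
    unfold tw
    have h2 : ((-d : ℤ) : OO k t) * v = -((d : OO k t) * v) := by
      rw [Int.cast_neg, neg_mul]
    rw [h2, hρ]
  rw [h1]
  ring

private theorem eps_mob_neg (a b c d : ℤ) (z : ℂ) : mob (-a) (-b) (-c) (-d) z = mob a b c d z := by
  unfold mob
  push_cast
  rw [show (-(a : ℂ) * z + -(b : ℂ)) = -((a : ℂ) * z + b) by ring,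
    show (-(c : ℂ) * z + -(d : ℂ)) = -((c : ℂ) * z + d) by ring, neg_div_neg_eq]

/-- The case `ε(d) = -1`. -/
private theorem eps_minus [SqT k t] (hK : S_Kap) (hA : S_EpsA) (hE : S_Ech) (f : ℕ) (a b c d : ℤ)
    (hf : 0 < f) (h4 : 4 ∣ f) (hdet : a * d - b * c = 1) (hc : (Dk k t * f ^ 2 : ℤ) ∣ c)
    (hd2 : Odd d) (hdD : IsCoprime d (Dk k t : ℤ)) (h4c : (4 * Dk k t : ℤ) ∣ c)
    (hd : eps k t d = -1)
    (ρ : OO k t → ℂ) (hodd : OddO ρ) (hper : PerO f ρ) (z : ℂ) (hz : 0 < z.im) :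
    Gt ρ (mob a b c d z) = -((c : ℂ) * z + d) ^ 2 * Gt (tw ρ (d : OO k t)) z := by
  obtain ⟨-, hE2, hE3, hE4⟩ := hE k t
  rcases eq_or_ne c 0 with h0 | h0
  · subst h0
    have had : a * d = 1 := by linarith
    have hcase : (a = 1 ∧ d = 1) ∨ (a = -1 ∧ d = -1) := Int.mul_eq_one_iff_eq_one_or_neg_one.1 had
    rcases hcase with ⟨rfl, rfl⟩ | ⟨rfl, rfl⟩
    · rw [hE4] at hd
      norm_num at hd
    · have h1 : mob (-1) b 0 (-1) z = z + ((-b : ℤ) : ℂ) := by
        unfold mob
        push_cast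
        ring
      have h2 : tw ρ ((1 : ℤ) : OO k t) = ρ := by
        funext v
        unfold tw
        rw [Int.cast_one, one_mul]
      rw [h1, eps_Gt_add, eps_Gt_neg ρ hodd 1 z, h2]
      push_cast
      ring
  · -- Dirichlet
    have hq : c.natAbs ≠ 0 := Int.natAbs_ne_zero.2 h0
    have hcop : IsCoprime d (c.natAbs : ℤ) := by
      have h1 : IsCoprime d c := ⟨a, -b, by linear_combination hdet⟩
      rw [Int.isCoprime_iff_gcd_eq_one] at h1 ⊢
      rw [← h1, Int.gcd, Int.gcd, Int.natAbs_natCast]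
    obtain ⟨p, hp2, hpp, hpd⟩ := Nat.forall_exists_prime_gt_and_zmodEq 2 hq hcop
    have hdvd : c ∣ (p : ℤ) - d := by
      have h1 : ((c.natAbs : ℤ)) ∣ (p : ℤ) - d := (Int.modEq_iff_dvd.1 hpd.symm)
      exact (Int.natAbs_dvd).1 h1
    obtain ⟨j, hj⟩ := hdvd
    have hpj : (p : ℤ) = d + j * c := by linear_combination hj
    obtain ⟨κ, hκ⟩ := hK k t f a b c d hf hdet hc
    have hpodd : Odd (p : ℤ) := by
      have := hpp.odd_of_ne_two (by omega)
      exact_mod_cast this
    have hpe : eps k t (p : ℤ) = -1 := by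
      rw [← hd]
      refine (hE2 d (p : ℤ) hd2 hpodd hdD ?_).symm
      rw [hpj]
      have e : d - (d + j * c) = -(j * c) := by ring
      rw [e, dvd_neg]
      exact h4c.mul_left j
    have hjac : jacobiSym (-(Dk k t : ℤ)) p = -1 := by
      unfold eps at hpe
      rw [Int.sign_eq_one_of_pos (by exact_mod_cast hpp.pos), one_mul, Int.natAbs_natCast] at hpe
      exact hpe
    have hdet' : a * p - (b + j * a) * c = 1 := by
      rw [hpj]
      linear_combination hdet
    have hκ1 : κ = -1 := by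
      refine hA k t f a (b + j * a) c p hf h4 hpp (by omega) hjac hdet' hc κ ?_
      intro ρ' hodd' hper' w hw
      have hw' : 0 < (w + (j : ℂ)).im := by
        rw [Complex.add_im, Complex.intCast_im, add_zero]
        exact hw
      have h1 := hκ ρ' hodd' hper' (w + j) hw'
      have h2 : mob a b c d (w + j) = mob a (b + j * a) c p w := by
        unfold mob
        rw [hpj]
        push_cast
        congr 1
        · ring
        · ring
      have h3 : tw ρ' (d : OO k t) = tw ρ' ((p : ℤ) : OO k t) := by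
        funext v
        unfold tw
        have hfc : (f : ℤ) ∣ c := by
          refine (Dvd.intro ((Dk k t : ℤ) * (f : ℤ)) ?_).trans hc
          ring
        obtain ⟨m, hm⟩ := hfc
        have h4 : ((p : ℤ) : OO k t) * v =
            (d : OO k t) * v + (f : OO k t) * (((j * m : ℤ) : OO k t) * v) := by
          rw [hpj, hm]
          push_cast
          ring
        rw [h4, hper']
      have h5 : ((c : ℂ) * (w + j) + d) = (c : ℂ) * w + p := by
        have h6 : ((p : ℤ) : ℂ) = ((d + j * c : ℤ) : ℂ) := by rw [hpj]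
        push_cast at h6
        rw [h6]
        ring
      rw [h2, eps_Gt_add, h3, h5] at h1
      exact h1
    rw [hκ ρ hodd hper z hz, hκ1]
    ring

theorem tEps (hK : S_Kap) (hA : S_EpsA) (hE : S_Ech) : S_Eps := by
  intro k t _ f a b c d ρ z hf h4 hdet hc hodd hper hz
  obtain ⟨hE1, -, hE3, -⟩ := hE k t
  have h4c : (4 * Dk k t : ℤ) ∣ c := by
    refine dvd_trans ?_ hc
    obtain ⟨e, rfl⟩ := h4
    exact ⟨4 * (e : ℤ) ^ 2, by push_cast; ring⟩
  have hd2 : Odd d := by
    obtain ⟨m, hm⟩ := h4c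
    rw [← Int.not_even_iff_odd]
    rintro ⟨e, he⟩
    have h1 : a * (e + e) - b * (4 * Dk k t * m) = 1 := by rw [← he, ← hm]; exact hdet
    have h2 : 2 * (a * e - 2 * (b * (Dk k t * m))) = 1 := by linear_combination h1
    omega
  have hdD : IsCoprime d (Dk k t : ℤ) := by
    obtain ⟨m, hm⟩ := h4c
    refine ⟨a, -b * (4 * m), ?_⟩
    rw [hm] at hdet
    linear_combination hdet
  rcases hE1 d hd2 hdD with h | h
  · have hneg : eps k t (-d) = -1 := by rw [hE3, h]
    have h1 := eps_minus hK hA hE f (-a) (-b) (-c) (-d) hf h4 (by linear_combination hdet)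
      ((dvd_neg).2 hc) hd2.neg hdD.neg_left ((dvd_neg).2 h4c) hneg ρ hodd hper z hz
    rw [eps_mob_neg, eps_Gt_neg ρ hodd] at h1
    rw [h1, h]
    push_cast
    ring
  · rw [eps_minus hK hA hE f a b c d hf h4 hdet hc hd2 hdD h4c h ρ hodd hper z hz, h]
    push_cast
    ring

end Pool.Agent.DT.C
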