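import Pool.Agent.Lib.DT.C.Spec

/-!
# THEOREM DT (MP_d0239a_nt), Part C: the Gauss sum of the norm form (port of DI/C/Gau; helper49)
-/

set_option autoImplicit false

noncomputable section

namespace Pool.Agent.DT.C

open Pool.Agent.MuZ Pool.Agent.FW NumberField
open Pool.Agent.DI (ex)
open Finset

/-- the quadratic character with values in `ℂ` -/
def Gau_chi (p : ℕ) [Fact p.Prime] : MulChar (ZMod p) ℂ :=
  (quadraticChar (ZMod p)).ringHomComp (Int.castRingHom ℂ)

theorem Gau_chi_apply (p : ℕ) [Fact p.Prime] (a : ZMod p) :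
    Gau_chi p a = ((quadraticChar (ZMod p) a : ℤ) : ℂ) := by
  unfold Gau_chi
  rw [MulChar.ringHomComp_apply]
  rfl

theorem Gau_Q (p : ℕ) [Fact p.Prime] (hp : p ≠ 2) (t' : ZMod p) (ht : t' ≠ 0) :
    Gau_chi p t' * ∑ s : ZMod p, (ZMod.stdAddChar (t' * s ^ 2) : ℂ) =
      gaussSum (Gau_chi p) (ZMod.stdAddChar (N := p)) := by
  classical
  have h1 : ∑ s : ZMod p, (ZMod.stdAddChar (t' * s ^ 2) : ℂ) =
      ∑ a : ZMod p, (Gau_chi p a + 1) * ZMod.stdAddChar (t' * a) := by
    rw [← Finset.sum_fiberwise (Finset.univ) (fun s : ZMod p => s ^ 2)]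
    refine Finset.sum_congr rfl fun a _ => ?_
    have h2 : ∀ s ∈ Finset.univ.filter (fun s : ZMod p => s ^ 2 = a),
        (ZMod.stdAddChar (t' * s ^ 2) : ℂ) = ZMod.stdAddChar (t' * a) := by
      intro s hs
      rw [(Finset.mem_filter.1 hs).2]
    rw [Finset.sum_congr rfl h2, Finset.sum_const, nsmul_eq_mul]
    congr 1
    have h3 := quadraticChar_card_sqrts (F := ZMod p) (by rw [ZMod.ringChar_zmod_n]; exact hp) a
    have h4 : (Set.toFinset {x : ZMod p | x ^ 2 = a}) =
        Finset.univ.filter (fun s : ZMod p => s ^ 2 = a) := by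
      ext x
      simp
    rw [h4] at h3
    rw [Gau_chi_apply]
    exact_mod_cast h3
  rw [h1]
  have h5 : ∑ a : ZMod p, (Gau_chi p a + 1) * (ZMod.stdAddChar (t' * a) : ℂ) =
      gaussSum (Gau_chi p) (AddChar.mulShift (ZMod.stdAddChar (N := p)) t') := by
    unfold gaussSum
    have h6 : ∑ a : ZMod p, (ZMod.stdAddChar (t' * a) : ℂ) = 0 := by
      have h7 := AddChar.sum_mulShift (R' := ℂ) t' (ZMod.isPrimitive_stdAddChar p)
      rw [if_neg ht] at h7
      simpa [mul_comm] using h7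
    simp only [add_mul, one_mul, Finset.sum_add_distrib, h6, add_zero, AddChar.mulShift_apply]
  rw [h5]
  have h8 := gaussSum_mulShift (Gau_chi p) (ZMod.stdAddChar (N := p)) (Units.mk0 t' ht)
  simpa using h8

theorem Gau_range (p : ℕ) [NeZero p] (g : ZMod p → ℂ) :
    ∑ x ∈ Finset.range p, g (((x : ℤ)) : ZMod p) = ∑ a : ZMod p, g a := by
  refine Finset.sum_nbij' (fun x => (x : ZMod p)) (fun a => a.val) ?_ ?_ ?_ ?_ ?_
  · intro x _; exact Finset.mem_univ _
  · intro a _; exact Finset.mem_range.2 (ZMod.val_lt a)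
  · intro x hx; exact ZMod.val_cast_of_lt (Finset.mem_range.1 hx)
  · intro a _; exact ZMod.natCast_zmod_val a
  · intro x _; simp

theorem tGau : S_Gau := by
  intro k t _ p hp hp2 hmD
  haveI : Fact p.Prime := ⟨hp⟩
  refine ⟨?_, ?_⟩
  · intro j hj
    have hj0 : ((j : ℤ) : ZMod p) ≠ 0 := by
      rwa [Ne, ZMod.intCast_zmod_eq_zero_iff_dvd]
    have h20 : (2 : ZMod p) ≠ 0 := by
      intro h2
      have : ((2 : ℕ) : ZMod p) = 0 := by exact_mod_cast h2
      rw [ZMod.natCast_eq_zero_iff] at this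
      exact hp2 ((Nat.prime_dvd_prime_iff_eq hp Nat.prime_two).1 this)
    have hD0 : ((Dk k t : ℕ) : ZMod p) ≠ 0 := by
      intro h2
      rw [ZMod.natCast_eq_zero_iff] at h2
      have h3 : jacobiSym (-(Dk k t : ℤ)) p = 0 := by
        refine (jacobiSym.eq_zero_iff_not_coprime (a := -(Dk k t : ℤ)) (b := p)).2 ?_
        intro h4
        have h5 : (p : ℤ) ∣ ((-(Dk k t : ℤ)).gcd (p : ℤ) : ℤ) :=
          Int.dvd_coe_gcd ((dvd_neg).2 (by exact_mod_cast h2)) dvd_rfl
        rw [h4] at h5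
        have h6 := Int.eq_one_of_dvd_one (by positivity) h5
        exact hp.one_lt.ne' (by exact_mod_cast h6)
      rw [h3] at hmD
      norm_num at hmD
    have hDc : ((Dk k t : ℕ) : ZMod p) = 12 * (k : ZMod p) - (t : ZMod p) ^ 2 := by
      have h := Dk_cast (k := k) (t := t)
      have h' : (((Dk k t : ℕ) : ℤ) : ZMod p) = ((12 * k - (t : ℤ) ^ 2 : ℤ) : ZMod p) := by rw [h]
      push_cast at h'
      exact h'
    have h40 : (4 : ZMod p) ≠ 0 := by
      have : (4 : ZMod p) = 2 * 2 := by norm_num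
      rw [this]; exact mul_ne_zero h20 h20
    have h1 : rsum p (fun β : OO k t => ex (j * Nm β / p)) =
        ∑ x : ZMod p, ∑ y : ZMod p,
          (ZMod.stdAddChar ((j : ZMod p) * (x ^ 2 + (t : ZMod p) * x * y + 3 * (k : ZMod p) * y ^ 2)) : ℂ) := by
      unfold rsum
      rw [← Gau_range p (fun x => ∑ y : ZMod p,
        (ZMod.stdAddChar ((j : ZMod p) * (x ^ 2 + (t : ZMod p) * x * y + 3 * (k : ZMod p) * y ^ 2)) : ℂ))]
      refine Finset.sum_congr rfl fun x _ => ?_
      rw [← Gau_range p (fun y => (ZMod.stdAddChar ((j : ZMod p) *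
        ((((x : ℤ)) : ZMod p) ^ 2 + (t : ZMod p) * (((x : ℤ)) : ZMod p) * y + 3 * (k : ZMod p) * y ^ 2)) : ℂ))]
      refine Finset.sum_congr rfl fun y _ => ?_
      have h2 : (j : ZMod p) * ((((x : ℤ)) : ZMod p) ^ 2 + (t : ZMod p) * (((x : ℤ)) : ZMod p) *
          (((y : ℤ)) : ZMod p) + 3 * (k : ZMod p) * (((y : ℤ)) : ZMod p) ^ 2) =
          ((j * Nm (⟨(x : ℤ), (y : ℤ)⟩ : OO k t) : ℤ) : ZMod p) := by
        unfold Nm
        push_cast
        ring
      rw [h2, ZMod.stdAddChar_coe]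
      unfold ex
      congr 1
      push_cast
      ring_nf
    have h2 : ∑ x : ZMod p, ∑ y : ZMod p,
          (ZMod.stdAddChar ((j : ZMod p) * (x ^ 2 + (t : ZMod p) * x * y + 3 * (k : ZMod p) * y ^ 2)) : ℂ) =
        (∑ s : ZMod p, (ZMod.stdAddChar ((j : ZMod p) * s ^ 2) : ℂ)) *
          ∑ y : ZMod p, (ZMod.stdAddChar ((j * (Dk k t : ℕ) / 4 : ZMod p) * y ^ 2) : ℂ) := by
      rw [Finset.sum_comm, Finset.mul_sum]
      refine Finset.sum_congr rfl fun y _ => ?_
      rw [Finset.sum_mul]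
      refine Fintype.sum_equiv (Equiv.addRight ((t : ZMod p) * y / 2)) _ _ fun x => ?_
      rw [← AddChar.map_add_eq_mul]
      congr 1
      simp only [Equiv.coe_addRight]
      rw [hDc]
      field_simp
      ring
    have h3 : ((j : ZMod p) * (Dk k t : ℕ) / 4) ≠ 0 := div_ne_zero (mul_ne_zero hj0 hD0) h40
    have h4 := Gau_Q p hp2 j hj0
    have h5 := Gau_Q p hp2 (j * (Dk k t : ℕ) / 4) h3
    have hchi1 : Gau_chi p ≠ 1 := by
      unfold Gau_chi
      refine (MulChar.ringHomComp_ne_one_iff (Int.castRingHom ℂ).injective_int).2 ?_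
      exact quadraticChar_ne_one (by rw [ZMod.ringChar_zmod_n]; exact hp2)
    have hchi2 : (Gau_chi p).IsQuadratic := (quadraticChar_isQuadratic (ZMod p)).comp _
    have h6 := gaussSum_sq hchi1 hchi2 (ZMod.isPrimitive_stdAddChar p)
    rw [ZMod.card] at h6
    -- the character values
    have h7 : Gau_chi p j * Gau_chi p (j * (Dk k t : ℕ) / 4) * (Gau_chi p (Dk k t : ℕ)) = 1 := by
      rw [← map_mul, ← map_mul]
      have h8 : (j : ZMod p) * (j * (Dk k t : ℕ) / 4) * (Dk k t : ℕ) = (j * (Dk k t : ℕ) / 2) ^ 2 := by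
        field_simp
        norm_num
      rw [h8, Gau_chi_apply, map_pow, quadraticChar_sq_one]
      · simp
      · exact div_ne_zero (mul_ne_zero hj0 hD0) h20
    have h9 : Gau_chi p (Dk k t : ℕ) * Gau_chi p (-1) = -1 := by
      rw [← map_mul, Gau_chi_apply]
      have h10 : quadraticChar (ZMod p) ((Dk k t : ℕ) * -1) = jacobiSym (-(Dk k t : ℤ)) p := by
        rw [← jacobiSym.legendreSym.to_jacobiSym]
        unfold legendreSym
        congr 1
        push_cast
        ring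
      rw [h10, hmD]
      simp
    rw [h1, h2]
    set A := ∑ s : ZMod p, (ZMod.stdAddChar ((j : ZMod p) * s ^ 2) : ℂ) with hA
    set B := ∑ y : ZMod p, (ZMod.stdAddChar ((j * (Dk k t : ℕ) / 4 : ZMod p) * y ^ 2) : ℂ) with hB
    have h11 : Gau_chi p j * Gau_chi p (j * (Dk k t : ℕ) / 4) * (A * B) = Gau_chi p (-1) * p := by
      rw [← h6, sq]
      nth_rewrite 1 [← h4]
      rw [← h5]
      ring
    calc A * B = (Gau_chi p j * Gau_chi p (j * (Dk k t : ℕ) / 4) * (Gau_chi p (Dk k t : ℕ))) *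
          (A * B) := by
          rw [h7, one_mul]
      _ = Gau_chi p (Dk k t : ℕ) * (Gau_chi p j * Gau_chi p (j * (Dk k t : ℕ) / 4) * (A * B)) := by
          ring
      _ = (Gau_chi p (Dk k t : ℕ) * Gau_chi p (-1)) * p := by rw [h11]; ring
      _ = -(p : ℂ) := by rw [h9]; ring
  · intro u hu
    have hDz := Dk_cast (k := k) (t := t)
    have h1 : (p : ℤ) ∣ (2 * u.re + t * u.im) ^ 2 - (-(Dk k t : ℤ)) * u.im ^ 2 := by
      have h2 : (2 * u.re + t * u.im) ^ 2 - (-(Dk k t : ℤ)) * u.im ^ 2 = 4 * Nm u := by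
        rw [hDz]
        unfold Nm
        ring
      rw [h2, hu]
      exact Dvd.intro_left (4 * p) (by ring)
    obtain ⟨h2, h3⟩ := jacobiSym.prime_dvd_of_eq_neg_one hmD h1
    have h4 : (p : ℤ) ∣ 2 * u.re := by
      have : 2 * u.re = (2 * u.re + t * u.im) - t * u.im := by ring
      rw [this]; exact dvd_sub h2 (h3.mul_left _)
    have h5 : (p : ℤ) ∣ u.re := by
      have hcop : IsCoprime (p : ℤ) 2 := by
        exact (Nat.isCoprime_iff_coprime (m := p) (n := 2)).2
          ((Nat.coprime_primes hp Nat.prime_two).2 hp2)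
      exact hcop.dvd_of_dvd_mul_left h4
    obtain ⟨x, hx⟩ := h5
    obtain ⟨y, hy⟩ := h3
    have hp0 : (p : ℤ) ^ 2 ≠ 0 := by
      have : (p : ℤ) ≠ 0 := by exact_mod_cast hp.ne_zero
      exact pow_ne_zero 2 this
    have h6 : x ^ 2 + t * x * y + 3 * k * y ^ 2 = 1 := by
      have h7 : (p : ℤ) ^ 2 * (x ^ 2 + t * x * y + 3 * k * y ^ 2) = (p : ℤ) ^ 2 * 1 := by
        unfold Nm at hu
        rw [hx, hy] at hu
        linear_combination hu
      exact mul_left_cancel₀ hp0 h7
    have hk1 : (8 : ℤ) ≤ 12 * k - (t : ℤ) ^ 2 := hD8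
    have h8 : y = 0 := by
      have h9 : (12 * (k : ℤ) - (t : ℤ) ^ 2) * y ^ 2 ≤ 4 := by
        nlinarith [sq_nonneg (2 * x + t * y)]
      have h9' : 8 * y ^ 2 ≤ 4 := by nlinarith [mul_nonneg (sub_nonneg.2 hk1) (sq_nonneg y)]
      have h10 : y < 1 := by nlinarith
      have h11 : -1 < y := by nlinarith
      omega
    subst h8
    have h12 : x ^ 2 = 1 := by linarith
    have hre : u.re = p * x := hx
    have him : u.im = 0 := by rw [hy]; ring
    have h13 : (x - 1) * (x + 1) = 0 := by linear_combination h12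
    have h14 : x = 1 ∨ x = -1 := by
      rcases mul_eq_zero.1 h13 with h | h
      · left; omega
      · right; omega
    rcases h14 with h | h
    · left
      apply QuadraticAlgebra.ext
      · rw [hre, h, mul_one]; rfl
      · rw [him]; rfl
    · right
      apply QuadraticAlgebra.ext
      · rw [hre, h]; simp
      · rw [him]; simp

end Pool.Agent.DT.C
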