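import Pool.Agent.Lib.DT.C.Spec

/-!
# THEOREM DT (MP_d0239a_nt), Part C, module Hom: homogeneity (after `DK/C/Hom`)
-/

set_option autoImplicit false

open Filter Topology
open scoped Pointwise

noncomputable section

namespace Pool.Agent.DT.C

open Pool.Agent.MuZ Pool.Agent.FW NumberField
open Pool.Agent.DI (io ofC io_inj exists_io io_ofC ofC_io VP MP UP TP ex)

variable {k t : ℕ}

private theorem Hom_ne [SqT k t] (h2 : S_O2) {a b : Ideal (OO k t)} (ha : a ≠ ⊥) (hb : b ≠ ⊥) :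
    a * b ≠ ⊥ := by
  obtain ⟨-, -, -, -, h5, h6, -⟩ := h2 k t
  intro h
  have h1 := (h6 _).2 h
  rw [h5] at h1
  rcases Nat.mul_eq_zero.1 h1 with h1 | h1
  · exact ha ((h6 _).1 h1)
  · exact hb ((h6 _).1 h1)

private theorem Hom_sp {α : OO k t} (hα : α ≠ 0) : sp α ≠ ⊥ := by
  intro h
  exact hα (Ideal.span_singleton_eq_bot.1 h)

private theorem Hom_set [SqT k t] {α : OO k t} (hα : α ≠ 0) (b : Ideal (OO k t)) (x : ℂ) :
    cs x (sp α * b) = (fun v => (toC α)⁻¹ * v) '' cs (toC α * x) b := by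
  have h0 : toC α ≠ 0 := toC_ne hα
  ext v
  constructor
  · intro hv
    refine ⟨toC α * v, ?_, inv_mul_cancel_left₀ h0 v⟩
    have h1 : toC α * (v - x) ∈ Lam b := lam_sp.1 hv
    change toC α * v - toC α * x ∈ Lam b
    rwa [← mul_sub]
  · rintro ⟨u, hu, rfl⟩
    change (toC α)⁻¹ * u - x ∈ Lam (sp α * b)
    rw [lam_sp, mul_sub, mul_inv_cancel_left₀ h0]
    exact hu

private theorem Hom_main [SqT k t] (hR : S_Red) (hT : S_Tt) (h2 : S_O2) {f : ℕ} (hf : Fok f)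
    {b : Ideal (OO k t)} (hb : b ≠ ⊥) {α : OO k t} (hα : α ≠ 0) (z : ℂ) :
    Tc f (sp α * b) 1 z = toC α * TT (cs (toC α * v0 k t f) b) (3 * (f : ℝ) ^ 2 * NI b) z := by
  have h0 : toC α ≠ 0 := toC_ne hα
  have hT1 : ∀ (A : Set ℂ) (c : ℂ) (w : ℝ) (z : ℂ), c ≠ 0 →
      TT ((fun v => c * v) '' A) w z = c⁻¹ * TT A (w * ‖c‖ ^ 2) z := hT.1
  rw [(hR k t f (sp α * b) hf (Hom_ne h2 (Hom_sp hα) hb) 1).2.2.1 z, Hom_set hα,
    hT1 _ _ _ _ (inv_ne_zero h0), inv_inv]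
  have e1 : toC α * (((1 : ℤ) : ℂ) * v0 k t f) = toC α * v0 k t f := by
    rw [Int.cast_one, one_mul]
  have hn : ‖toC α‖ ≠ 0 := norm_ne_zero_iff.2 h0
  have e3 : ((NI (sp α) : ℕ) : ℝ) = ‖toC α‖ ^ 2 := by
    rw [← Nm_norm, ← (h2 k t).2.2.2.1 α]
    rfl
  have e2 : 3 * (f : ℝ) ^ 2 * ((NI (sp α * b) : ℕ) : ℝ) * ‖(toC α)⁻¹‖ ^ 2 =
      3 * (f : ℝ) ^ 2 * NI b := by
    rw [(h2 k t).2.2.2.2.1, Nat.cast_mul, e3, norm_inv]
    field_simp
  rw [e1, e2]

private theorem Hom_cs [SqT k t] (hV : S_V0) (b : Ideal (OO k t)) {f : ℕ} (hf : Fok f)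
    {α : OO k t} (h : α - 1 ∈ cnd k t f) : cs (toC α * v0 k t f) b = cs (v0 k t f) b := by
  obtain ⟨u, hu⟩ := (hV k t f hf).2.1 (α - 1) h
  have e : toC α * v0 k t f - v0 k t f = toC u := by
    rw [← hu, toC_sub, toC_one]
    ring
  have hL : toC u ∈ Lam b := fun v _ => ⟨v * u, (toC_mul v u).symm⟩
  ext v
  change v - toC α * v0 k t f ∈ Lam b ↔ v - v0 k t f ∈ Lam b
  have e2 : v - v0 k t f = toC u + (v - toC α * v0 k t f) := by
    rw [← e]
    ring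
  rw [e2, lam_add_left_iff hL]

/-- `𝔭̄` contains the conductor -/
private theorem Hom_cnd (k t f : ℕ) : cnd k t f ≤ ppb k t := Ideal.mul_le_right

/-- `Nm a = a²` is prime to every divisor of `3 f` -/
private theorem Hom_cop [SqT k t] {a : ℤ} {n : ℕ} (h : IsCoprime a (n : ℤ)) :
    Cop (a : OO k t) n := by
  change IsCoprime (Nm (a : OO k t)) (n : ℤ)
  rw [Nm_int]
  exact h.pow_left

private theorem Hom_int [SqT k t] {a : ℤ} (ha : a ≠ 0) : (a : OO k t) ≠ 0 := by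
  intro h
  apply ha
  have := congrArg QuadraticAlgebra.re h
  rwa [re_int, QuadraticAlgebra.re_zero] at this

/-- the framing of `a b`, `a` an integer prime to `3` -/
private theorem Hom_fr [SqT k t] (h4 : S_O4) (hB : S_B12) {b : Ideal (OO k t)} (hb : b ≠ ⊥)
    (hc : PrI b (ppb k t)) {a : ℤ} (ha : a ≠ 0) (ha3 : IsCoprime a 3) :
    fr (sp (a : OO k t) * b) = (jacobiSym a 3 : ℂ) * (a * fr b) ∧
      ((jacobiSym a 3 : ℂ) = 1 ∨ (jacobiSym a 3 : ℂ) = -1) := by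
  obtain ⟨-, -, -, -, -, b6, b7, -⟩ := hB k t b hb hc
  have hmem := (h4 k t).2.2.2.2.2.2.2.2.2.2.2
  have h0 : a % 3 ≠ 0 := by
    intro h
    have h1 : (3 : ℤ) ∣ a := Int.dvd_of_emod_eq_zero h
    have h2 : IsUnit (3 : ℤ) := ha3.isUnit_of_dvd' h1 dvd_rfl
    rw [Int.isUnit_iff] at h2
    omega
  have h3 : a % 3 = 1 ∨ a % 3 = 2 := by omega
  rcases h3 with h3 | h3
  · have hJ : jacobiSym a 3 = 1 := by
      rw [jacobiSym.mod_left]
      push_cast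
      rw [h3]
      exact jacobiSym.one_left 3
    have hd : (a : OO k t) - 1 ∈ ppb k t := by
      rw [hmem]
      rw [QuadraticAlgebra.re_sub, QuadraticAlgebra.im_sub, re_int, im_int, re_one, im_one]
      omega
    rw [b6 _ (Hom_int ha) hd, toC_int, hJ]
    exact ⟨by push_cast; ring, Or.inl (by norm_num)⟩
  · have hJ : jacobiSym a 3 = -1 := by
      rw [jacobiSym.mod_left]
      push_cast
      rw [h3]
      norm_num
    have hd : (a : OO k t) + 1 ∈ ppb k t := by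
      rw [hmem]
      rw [QuadraticAlgebra.re_add, QuadraticAlgebra.im_add, re_int, im_int, re_one, im_one]
      omega
    rw [b7 _ (Hom_int ha) hd, toC_int, hJ]
    exact ⟨by push_cast; ring, Or.inr (by norm_num)⟩

theorem tHom (hR : S_Red) (hT : S_Tt) (hV : S_V0) (h2 : S_O2) (h4 : S_O4) (h6 : S_O6)
    (hB12 : S_B12) (hR5 : S_R5) : S_Hom := by
  intro k t _ f hf
  obtain ⟨o1, o2, -, o4, -, o6, o7, -⟩ := h6 k t
  have H1 : ∀ b : Ideal (OO k t), b ≠ ⊥ → ∀ (a : ℤ) (z : ℂ), a ≠ 0 →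
      Tc f (sp (a : OO k t) * b) 1 z = a * Tc f b a z := by
    intro b hb a z ha
    rw [Hom_main hR hT h2 hf hb (Hom_int ha), toC_int, (hR k t f b hf hb a).2.2.1 z]
  have H2 : ∀ b : Ideal (OO k t), b ≠ ⊥ → ∀ (α : OO k t) (z : ℂ), α ≠ 0 → α - 1 ∈ cnd k t f →
      Tc f (sp α * b) 1 z = toC α * Tc f b 1 z := by
    intro b hb α z hα hd
    rw [Hom_main hR hT h2 hf hb hα, Hom_cs hV b hf hd, (hR k t f b hf hb 1).2.2.1 z, Int.cast_one,
      one_mul]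
  have hfr : ∀ b : Ideal (OO k t), FB f b → fr b ≠ 0 := by
    intro b hb
    have hp : PrI b (ppb k t) := o4 _ _ _ (Hom_cnd k t f) hb.cop
    have htop : (⊤ : Ideal (OO k t)) ≠ ⊥ := by
      intro h
      have h1 : (1 : OO k t) ∈ (⊥ : Ideal (OO k t)) := h ▸ Submodule.mem_top
      rw [Ideal.mem_bot] at h1
      exact one_ne_zero h1
    exact (hR5 k t ⊤ b b htop hb.ne hb.ne (top_sup_eq _) hp hp).1
  refine ⟨H1, H2, ?_, ?_⟩
  · intro m b hm hb a z ha hc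
    have hp : PrI b (ppb k t) := o4 _ _ _ (Hom_cnd k t f) hb.cop
    have hc3 : IsCoprime a 3 := by
      refine hc.of_isCoprime_of_dvd_right ?_
      exact ⟨(f : ℤ), by push_cast; ring⟩
    have hcf : IsCoprime a (f : ℤ) := by
      refine hc.of_isCoprime_of_dvd_right ?_
      exact ⟨3, by push_cast; ring⟩
    have hFB : FB f (sp (a : OO k t) * b) := by
      refine ⟨Hom_ne h2 (Hom_sp (Hom_int ha)) hb.ne, (o1 _ _ _).2 ⟨?_, hb.cop⟩⟩
      refine (o2 _ _ _).2 ⟨(o6 f _).2 (Hom_cop hcf), ?_⟩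
      refine o4 _ (sN k t 3) _ ?_ ((o6 3 _).2 (Hom_cop (by exact_mod_cast hc3)))
      rw [← (h4 k t).1]
      exact Ideal.mul_le_right
    refine ⟨hFB, ?_⟩
    have hmb : m * b ≠ ⊥ := Hom_ne h2 hm.ne hb.ne
    have f1 : fr b ≠ 0 := hfr b hb
    have f3 : (a : ℂ) ≠ 0 := by exact_mod_cast ha
    obtain ⟨e1, e2⟩ := Hom_fr h4 hB12 hb.ne hp ha hc3
    unfold ThS ThM
    rw [show m * (sp (a : OO k t) * b) = sp (a : OO k t) * (m * b) from mul_left_comm _ _ _,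
      H1 _ hmb a z ha, H1 _ hb.ne a _ ha, e1]
    rcases e2 with e2 | e2
    · rw [e2]
      field_simp
    · rw [e2]
      field_simp
  · intro m b hm hb α z hα hd
    have hp : PrI b (ppb k t) := o4 _ _ _ (Hom_cnd k t f) hb.cop
    have hα1 : PrI (sp α) (cnd k t f) := by
      refine o7 _ 1 α ?_ ?_
      · rw [← neg_sub]
        exact neg_mem hd
      · have h1 : sp (1 : OO k t) = ⊤ := Ideal.span_singleton_one
        change sp (1 : OO k t) ⊔ cnd k t f = ⊤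
        rw [h1, top_sup_eq]
    refine ⟨⟨Hom_ne h2 (Hom_sp hα) hb.ne, (o1 _ _ _).2 ⟨hα1, hb.cop⟩⟩, ?_⟩
    have hmb : m * b ≠ ⊥ := Hom_ne h2 hm.ne hb.ne
    have f1 : fr b ≠ 0 := hfr b hb
    have f2 : fr (sp α * b) = toC α * fr b :=
      (hB12 k t b hb.ne hp).2.2.2.2.2.1 α hα (Hom_cnd k t f hd)
    have f3 : toC α ≠ 0 := toC_ne hα
    unfold ThM
    rw [show m * (sp α * b) = sp α * (m * b) from mul_left_comm _ _ _,
      H2 _ hmb α z hα hd, H2 _ hb.ne α _ hα hd, f2]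
    field_simp

end Pool.Agent.DT.C
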