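import Pool.Agent.Lib.DT.C.Spec

/-!
# THEOREM DT (MP_d0239a_nt), Part C, module Phi: the constant `Φ`

Port of `Lib/DI/C/Phi.lean`.
-/

set_option autoImplicit false

open Filter Topology

noncomputable section

namespace Pool.Agent.DT.C

private theorem Phi_den {a b c d : ℤ} (h : a * d - b * c = 1) {z : ℂ} (hz : 0 < z.im) :
    (c : ℂ) * z + d ≠ 0 := by
  intro h0
  have h1 := congrArg Complex.im h0
  have h2 := congrArg Complex.re h0
  simp only [Complex.add_im, Complex.mul_im, Complex.intCast_re, Complex.intCast_im, zero_mul,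
    add_zero, Complex.zero_im] at h1
  simp only [Complex.add_re, Complex.mul_re, Complex.intCast_re, Complex.intCast_im, zero_mul,
    sub_zero, Complex.zero_re] at h2
  have hc : c = 0 := by
    rcases mul_eq_zero.1 h1 with h3 | h3
    · exact_mod_cast h3
    · exact absurd h3 hz.ne'
  subst hc
  rw [Int.cast_zero, zero_mul, zero_add] at h2
  have hd : d = 0 := by exact_mod_cast h2
  subst hd
  simp at h

private theorem Phi_im {a b c d : ℤ} (h : a * d - b * c = 1) {z : ℂ} (hz : 0 < z.im) :
    0 < (mob a b c d z).im := by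
  have hw := Phi_den h hz
  have hn : 0 < Complex.normSq ((c : ℂ) * z + d) := Complex.normSq_pos.2 hw
  have hr : (a : ℝ) * d - b * c = 1 := by exact_mod_cast h
  have e : (mob a b c d z).im = z.im / Complex.normSq ((c : ℂ) * z + d) := by
    unfold mob
    rw [Complex.div_im]
    simp only [Complex.add_im, Complex.mul_im, Complex.intCast_re, Complex.intCast_im, zero_mul,
      add_zero, Complex.add_re, Complex.mul_re, sub_zero]
    rw [← sub_div]
    congr 1
    linear_combination z.im * hr
  rw [e]
  exact div_pos hz hn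

private theorem Phi_deriv {a b c d : ℤ} (h : a * d - b * c = 1) {z : ℂ} (hz : 0 < z.im) :
    HasDerivAt (mob a b c d) (1 / ((c : ℂ) * z + d) ^ 2) z := by
  have hw := Phi_den h hz
  have hr : (a : ℂ) * d - b * c = 1 := by exact_mod_cast h
  have h1 : HasDerivAt (fun z : ℂ => (a : ℂ) * z + b) (a : ℂ) z := by
    simpa using ((hasDerivAt_id z).const_mul (a : ℂ)).add_const (b : ℂ)
  have h2 : HasDerivAt (fun z : ℂ => (c : ℂ) * z + d) (c : ℂ) z := by
    simpa using ((hasDerivAt_id z).const_mul (c : ℂ)).add_const (d : ℂ)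
  have h3 := h1.div h2 hw
  have e : ((a : ℂ) * ((c : ℂ) * z + d) - ((a : ℂ) * z + b) * c) / ((c : ℂ) * z + d) ^ 2 =
      1 / ((c : ℂ) * z + d) ^ 2 := by
    congr 1
    linear_combination hr
  rw [e] at h3
  exact h3

private theorem Phi_per {k t : ℕ} {f : ℕ} {ρ : OO k t → ℂ} (h : PerO f ρ) (d : OO k t) :
    PerO f (tw ρ d) := by
  intro v u
  unfold tw
  rw [← h (d * v) (d * u)]
  congr 1
  ring

theorem tPhi (hE : S_Eps) (hD : S_Der) : S_Phi := by
  intro k t _ f ρ hf hf3 hodd hper a b c d h hc z hz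
  have hf0 : 0 < f := hf.pos
  have hperd := Phi_per hper (d : OO k t)
  obtain ⟨hT, -, -⟩ := hD k t f ρ hf0 hper
  obtain ⟨hTd, -, -⟩ := hD k t f (tw ρ (d : OO k t)) hf0 hperd
  have hder : ∀ w : ℂ, 0 < w.im → HasDerivAt
      (fun w => Th ρ (mob a b c d w) - (eps k t d : ℂ) * Th (tw ρ (d : OO k t)) w) 0 w := by
    intro w hw
    have h1 := (hT (mob a b c d w) (Phi_im h hw)).comp w (Phi_deriv h hw)
    have h2 := (hTd w hw).const_mul (eps k t d : ℂ)
    have h3 := h1.sub h2
    have h4 := hE k t f a b c d ρ w hf hf3 h hc hodd hper hw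
    have h5 := Phi_den h hw
    have e : 2 * (Real.pi : ℂ) * Complex.I * Gt ρ (mob a b c d w) * (1 / ((c : ℂ) * w + d) ^ 2) -
        (eps k t d : ℂ) * (2 * Real.pi * Complex.I * Gt (tw ρ (d : OO k t)) w) = 0 := by
      rw [h4]
      field_simp
      ring
    rw [e] at h3
    exact h3
  have hopen : IsOpen {w : ℂ | 0 < w.im} := isOpen_lt continuous_const Complex.continuous_im
  have hpre : IsPreconnected {w : ℂ | 0 < w.im} := (convex_halfSpace_im_gt 0).isPreconnected
  have hconst := hopen.is_const_of_deriv_eq_zero hpre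
    (fun w hw => (hder w hw).differentiableAt.differentiableWithinAt)
    (fun w hw => (hder w hw).deriv) (x := z) (y := Complex.I) hz
    (by change 0 < Complex.I.im; rw [Complex.I_im]; exact one_pos)
  unfold PhC
  linear_combination hconst

end Pool.Agent.DT.C
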