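import Pool.Agent.Lib.DT.C.Spec

/-!
# THEOREM DT, Part C, module C/Red: reduction to the lattice `O`

Author helper43, after the docstring of `S_Red` (edit of `DK/C/Red.lean`).
-/

set_option autoImplicit false

open Filter Topology
open scoped Pointwise

noncomputable section

namespace Pool.Agent.DT.C

open Pool.Agent.MuZ Pool.Agent.FW NumberField
open Pool.Agent.DI (io ofC io_inj exists_io io_ofC ofC_io VP MP UP TP ex)

private lemma Red_ex_add (x y : ℂ) : ex (x + y) = ex x * ex y := by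
  unfold ex
  rw [← Complex.exp_add]
  ring_nf

private lemma Red_ex_int (n : ℤ) : ex n = 1 := by
  unfold ex
  rw [Complex.exp_eq_one_iff]
  exact ⟨n, by ring⟩

section

variable {k t : ℕ}

open Classical in
/-- The indicator of `x + I`. -/
private def Red_i (f : ℕ) (b : Ideal (OO k t)) (x : OO k t) (u : OO k t) : ℂ :=
  if u - x ∈ sN k t (3 * f) * cjI b then 1 else 0

private lemma Red_rhS (f : ℕ) (b : Ideal (OO k t)) (s : ℤ) (u : OO k t) :
    rhS f b s u = Red_i f b (((s * NI b : ℤ) : OO k t) * al0 k t f) u -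
      Red_i f b (-(((s * NI b : ℤ) : OO k t) * al0 k t f)) u := by
  unfold rhS Red_i
  rw [sub_neg_eq_add]

private lemma Red_i_neg (f : ℕ) (b : Ideal (OO k t)) (x u : OO k t) :
    Red_i f b (-x) u = Red_i f b x (-u) := by
  unfold Red_i
  have e : -u - x = -(u - -x) := by ring
  rw [e, neg_mem_iff]

private lemma Red_i_congr {f : ℕ} {b : Ideal (OO k t)} {x u x' u' : OO k t}
    (h : u - x ∈ sN k t (3 * f) * cjI b ↔ u' - x' ∈ sN k t (3 * f) * cjI b) :
    Red_i f b x u = Red_i f b x' u' := by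
  unfold Red_i
  by_cases h1 : u - x ∈ sN k t (3 * f) * cjI b
  · rw [if_pos h1, if_pos (h.1 h1)]
  · rw [if_neg h1, if_neg fun h2 => h1 (h.2 h2)]

variable [SqT k t]

/-- `F = 3 f NI b` is in `I`. -/
private lemma Red_F (h3 : S_O3) (f : ℕ) (b : Ideal (OO k t)) (u : OO k t) :
    ((3 * f * NI b : ℕ) : OO k t) * u ∈ sN k t (3 * f) * cjI b := by
  apply Ideal.mul_mem_right
  rw [Nat.cast_mul]
  refine Ideal.mul_mem_mul (Ideal.mem_span_singleton_self _) ?_
  have h : (NI b : OO k t) ∈ b * cjI b := by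
    rw [((h3 k t).2.2.1 b).2.2]
    exact Ideal.mem_span_singleton_self _
  exact Ideal.mul_le_right h

private lemma Red_per (h3 : S_O3) (f : ℕ) (b : Ideal (OO k t)) (x : OO k t) :
    PerO (3 * f * NI b) (Red_i f b x) := by
  intro v u
  apply Red_i_congr
  have e : v + ((3 * f * NI b : ℕ) : OO k t) * u - x =
      (v - x) + ((3 * f * NI b : ℕ) : OO k t) * u := by ring
  rw [e]
  exact Ideal.add_mem_iff_left _ (Red_F h3 f b u)

/-- The coset `s v₀ + Lam b` is `1/F` times the set of the `toC u`, `u - s n α₀ ∈ I`. -/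
private lemma Red_cs (hL : S_Lt) {f : ℕ} {b : Ideal (OO k t)} (hf : 0 < f) (hb : b ≠ ⊥) (s : ℤ) :
    cs (k := k) (t := t) ((s : ℂ) * v0 k t f) b =
      (fun v : ℂ => (((3 * f * NI b : ℕ) : ℂ))⁻¹ * v) ''
      (toC '' {u : OO k t | u - ((s * NI b : ℤ) : OO k t) * al0 k t f ∈
        sN k t (3 * f) * cjI b}) := by
  have hn : 0 < NI b := (hL k t b hb).1
  have hn' : (NI b : ℂ) ≠ 0 := Nat.cast_ne_zero.2 hn.ne'
  have hf' : (f : ℂ) ≠ 0 := Nat.cast_ne_zero.2 hf.ne'
  have p1 := (hL k t b hb).2.1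
  have hv0 := v0_eq (k := k) (t := t) hf
  ext v
  constructor
  · intro hv
    obtain ⟨u, hu, hv'⟩ := (p1 _).1 hv
    refine ⟨toC (((s * NI b : ℤ) : OO k t) * al0 k t f + ((3 * f : ℕ) : OO k t) * u),
      ⟨((s * NI b : ℤ) : OO k t) * al0 k t f + ((3 * f : ℕ) : OO k t) * u, ?_, rfl⟩, ?_⟩
    · change ((s * NI b : ℤ) : OO k t) * al0 k t f + ((3 * f : ℕ) : OO k t) * u -
        ((s * NI b : ℤ) : OO k t) * al0 k t f ∈ sN k t (3 * f) * cjI b
      rw [add_sub_cancel_left]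
      exact Ideal.mul_mem_mul (Ideal.mem_span_singleton_self _) hu
    · have e : v = toC u / NI b + s * v0 k t f := by rw [← hv']; ring
      change (((3 * f * NI b : ℕ) : ℂ))⁻¹ *
        toC (((s * NI b : ℤ) : OO k t) * al0 k t f + ((3 * f : ℕ) : OO k t) * u) = v
      rw [toC_add, toC_mul, toC_mul, toC_int, toC_nat, e, hv0]
      push_cast
      field_simp
      ring
  · rintro ⟨_, ⟨u, hu, rfl⟩, rfl⟩
    obtain ⟨w, hw, hwu⟩ := Ideal.mem_span_singleton_mul.1 hu
    change (((3 * f * NI b : ℕ) : ℂ))⁻¹ * toC u - (s : ℂ) * v0 k t f ∈ Lam b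
    rw [p1]
    refine ⟨w, hw, ?_⟩
    have e : u = ((s * NI b : ℤ) : OO k t) * al0 k t f + ((3 * f : ℕ) : OO k t) * w := by
      rw [hwu]; ring
    rw [e, toC_add, toC_mul, toC_mul, toC_int, toC_nat, hv0]
    push_cast
    field_simp
    ring

private lemma Red_Tc (hL : S_Lt) {f : ℕ} {b : Ideal (OO k t)} (hb : b ≠ ⊥) (s : ℤ) (z : ℂ) :
    Tc f b s z = TT (cs ((s : ℂ) * v0 k t f) b) (3 * (f : ℝ) ^ 2 * (NI b : ℝ)) z := by
  unfold Tc TT Pool.Agent.DK.C.TT
  rw [(hL k t b hb).2.2.1 ((s : ℂ) * v0 k t f)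
    (fun v => v⁻¹ * ex (3 * f ^ 2 * NI b * ‖v‖ ^ 2 * z))]
  push_cast
  rfl

/-- `O` is contained in `Lam b`. -/
private lemma Red_int (b : Ideal (OO k t)) (x : OO k t) : toC x ∈ Lam b :=
  fun v _ => ⟨v * x, by rw [toC_mul]⟩

/-- The theta series is the sum over one coset. -/
private lemma Red_Th (hD : S_Der) (h3 : S_O3) {f : ℕ} {b : Ideal (OO k t)} (hF : 0 < 3 * f * NI b)
    (s : ℤ) {w : ℂ} (hw : 0 < w.im) :
    Th (rhS f b s) w =
      ∑' v : OO k t, Red_i f b (((s * NI b : ℤ) : OO k t) * al0 k t f) v / toC v *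
        ex (Nm v * w) := by
  have hs1 := (hD k t (3 * f * NI b) _ hF
    (Red_per h3 f b (((s * NI b : ℤ) : OO k t) * al0 k t f))).2.1 w hw
  have hs2 := (hD k t (3 * f * NI b) _ hF
    (Red_per h3 f b (-(((s * NI b : ℤ) : OO k t) * al0 k t f)))).2.1 w hw
  have e2 : ∑' v : OO k t, Red_i f b (-(((s * NI b : ℤ) : OO k t) * al0 k t f)) v / toC v *
        ex (Nm v * w) =
      -∑' v : OO k t, Red_i f b (((s * NI b : ℤ) : OO k t) * al0 k t f) v / toC v *
        ex (Nm v * w) := by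
    rw [← tsum_neg, ← (Equiv.neg (OO k t)).tsum_eq]
    refine tsum_congr fun v => ?_
    rw [Equiv.neg_apply, Red_i_neg, neg_neg, toC_neg, Nm_neg]
    ring
  have e1 : ∑' v : OO k t, rhS f b s v / toC v * ex (Nm v * w) =
      ∑' v : OO k t, Red_i f b (((s * NI b : ℤ) : OO k t) * al0 k t f) v / toC v *
        ex (Nm v * w) -
      ∑' v : OO k t, Red_i f b (-(((s * NI b : ℤ) : OO k t) * al0 k t f)) v / toC v *
        ex (Nm v * w) := by
    rw [← hs1.tsum_sub hs2]
    refine tsum_congr fun v => ?_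
    rw [Red_rhS]
    ring
  unfold Th
  rw [e1, e2]
  ring

/-- The sum over the image of a set. -/
private lemma Red_TT (A : Set (OO k t)) (ρ : OO k t → ℂ) (h1 : ∀ u ∈ A, ρ u = 1)
    (h0 : ∀ u ∉ A, ρ u = 0) (n : ℕ) (z : ℂ) :
    TT (toC '' A) ((n : ℝ)⁻¹) z = ∑' v : OO k t, ρ v / toC v * ex (Nm v * (z / n)) := by
  unfold TT Pool.Agent.DK.C.TT
  rw [tsum_image (f := fun v : ℂ => v⁻¹ * ex (((n : ℝ)⁻¹ : ℝ) * ‖v‖ ^ 2 * z)) (toC_inj.injOn)]
  rw [tsum_subtype A (fun v : OO k t => (toC v)⁻¹ * ex (((n : ℝ)⁻¹ : ℝ) * ‖toC v‖ ^ 2 * z))]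
  refine tsum_congr fun v => ?_
  by_cases hv : v ∈ A
  · rw [Set.indicator_of_mem hv, h1 v hv]
    have e : ((Nm v : ℤ) : ℂ) = (‖toC v‖ : ℂ) ^ 2 := by
      have := Nm_norm v
      exact_mod_cast congrArg (fun y : ℝ => (y : ℂ)) this
    rw [e]
    push_cast
    ring_nf
  · rw [Set.indicator_of_notMem hv, h0 v hv]
    ring

end

theorem tRed (hL : S_Lt) (hT : S_Tt) (_hB : S_Bas) (hD : S_Der) (hV : S_V0) (_h2 : S_O2)
    (h3 : S_O3) : S_Red := by
  intro k t _ f b hf hb s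
  have hn : 0 < NI b := (hL k t b hb).1
  have hn' : (NI b : ℂ) ≠ 0 := Nat.cast_ne_zero.2 hn.ne'
  have hf' : (f : ℂ) ≠ 0 := Nat.cast_ne_zero.2 hf.pos.ne'
  have hF : 0 < 3 * f * NI b := Nat.mul_pos (Nat.mul_pos (by norm_num) hf.pos) hn
  obtain ⟨-, -, hv3, -, hv5, -⟩ := hV k t f hf
  have hT1 : ∀ (A : Set ℂ) (c : ℂ) (w : ℝ) (z : ℂ), c ≠ 0 →
      TT ((fun v => c * v) '' A) w z = c⁻¹ * TT A (w * ‖c‖ ^ 2) z := hT.1
  refine ⟨⟨?_, ?_⟩, ?_, Red_Tc hL hb s, ?_, ?_, ?_, ?_⟩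
  · intro v
    rw [Red_rhS, Red_rhS, Red_i_neg f b _ (-v), neg_neg, Red_i_neg f b _ v]
    ring
  · intro v u
    rw [Red_rhS, Red_rhS, Red_per h3 f b _ v u, Red_per h3 f b _ v u]
  · intro z hz
    have hw : 0 < (z / ((3 * NI b : ℕ) : ℂ)).im := by
      rw [Complex.div_natCast_im]
      exact div_pos hz (Nat.cast_pos.2 (Nat.mul_pos (by norm_num) hn))
    have hc : (((3 * f * NI b : ℕ) : ℂ))⁻¹ ≠ 0 := inv_ne_zero (Nat.cast_ne_zero.2 hF.ne')
    have hz3 : z / (3 * (NI b : ℂ)) = z / ((3 * NI b : ℕ) : ℂ) := by push_cast; rfl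
    rw [hz3, Red_Th hD h3 hF s hw, Red_Tc hL hb s, Red_cs hL hf.pos hb s, hT1 _ _ _ _ hc, inv_inv]
    have e : 3 * (f : ℝ) ^ 2 * (NI b : ℝ) * ‖(((3 * f * NI b : ℕ) : ℂ))⁻¹‖ ^ 2 =
        ((3 * NI b : ℕ) : ℝ)⁻¹ := by
      have hfR : (f : ℝ) ≠ 0 := Nat.cast_ne_zero.2 hf.pos.ne'
      have hnR : (NI b : ℝ) ≠ 0 := Nat.cast_ne_zero.2 hn.ne'
      rw [norm_inv, Complex.norm_natCast]
      push_cast
      field_simp
    rw [e]
    congr 1
    apply Red_TT
    · intro u hu
      exact if_pos hu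
    · intro u hu
      exact if_neg hu
  · intro z j
    rw [Red_Tc hL hb s, Red_Tc hL hb s]
    unfold TT Pool.Agent.DK.C.TT
    refine tsum_congr fun v => ?_
    obtain ⟨N, hN⟩ := hv5 b hb s v v.2
    have e1 : ((3 * (f : ℝ) ^ 2 * (NI b : ℝ) : ℝ) : ℂ) * (‖(v : ℂ)‖ : ℂ) ^ 2 = (N : ℂ) := by
      exact_mod_cast congrArg (fun y : ℝ => (y : ℂ)) hN
    rw [e1, mul_add, Red_ex_add]
    have e3 : (N : ℂ) * (j : ℂ) = ((N * j : ℤ) : ℂ) := by push_cast; rfl
    rw [e3, Red_ex_int, mul_one]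
  · rintro s' ⟨c, hc⟩ z
    rw [Red_Tc hL hb s, Red_Tc hL hb s']
    have e : cs (k := k) (t := t) ((s : ℂ) * v0 k t f) b = cs ((s' : ℂ) * v0 k t f) b := by
      have e1 : (s : ℂ) * v0 k t f = (s' : ℂ) * v0 k t f + toC ((c : OO k t) * al0 k t f) := by
        have e2 : (s : ℂ) = s' + ((3 * f : ℕ) : ℂ) * c := by
          have e3 : s = s' + (3 * f : ℤ) * c := by linarith
          have e4 := congrArg (fun y : ℤ => (y : ℂ)) e3
          push_cast at e4 ⊢
          exact e4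
        rw [e2, toC_mul, toC_int, ← hv3]
        ring
      ext v
      change v - (s : ℂ) * v0 k t f ∈ Lam b ↔ v - (s' : ℂ) * v0 k t f ∈ Lam b
      apply lam_sub_iff
      rw [e1]
      have e4 : v - ((s' : ℂ) * v0 k t f + toC ((c : OO k t) * al0 k t f)) -
          (v - (s' : ℂ) * v0 k t f) = toC (-((c : OO k t) * al0 k t f)) := by
        rw [toC_neg]
        ring
      rw [e4]
      exact Red_int b _
    rw [e]
  · intro a d had u
    have hI : ∀ x : OO k t, ((a : OO k t) * d - 1) * x ∈ sN k t (3 * f) * cjI b := by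
      obtain ⟨c, hc⟩ := had
      intro x
      have e : ((a : OO k t) * d - 1) * x =
          ((3 * f * NI b : ℕ) : OO k t) * ((c : OO k t) * x) := by
        have e1 : ((a : OO k t) * d - 1) = ((3 * f * NI b : ℕ) : OO k t) * (c : OO k t) := by
          have e2 := congrArg (fun y : ℤ => (y : OO k t)) hc
          push_cast at e2 ⊢
          exact e2
        rw [e1]
        ring
      rw [e]
      exact Red_F h3 f b _
    have key : ∀ x : OO k t, (d : OO k t) * u - x ∈ sN k t (3 * f) * cjI b ↔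
        u - a * x ∈ sN k t (3 * f) * cjI b := by
      intro x
      constructor
      · intro h
        have h5 := Ideal.mul_mem_left _ (a : OO k t) h
        have e : u - a * x = (a : OO k t) * ((d : OO k t) * u - x) -
            ((a : OO k t) * d - 1) * u := by ring
        rw [e]
        exact Ideal.sub_mem _ h5 (hI u)
      · intro h
        have h5 := Ideal.mul_mem_left _ (d : OO k t) h
        have e : (d : OO k t) * u - x = (d : OO k t) * (u - a * x) +
            ((a : OO k t) * d - 1) * x := by ring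
        rw [e]
        exact Ideal.add_mem _ h5 (hI x)
    rw [Red_rhS, Red_rhS]
    have e1 : Red_i f b (((s * NI b : ℤ) : OO k t) * al0 k t f) ((d : OO k t) * u) =
        Red_i f b (((a * s * NI b : ℤ) : OO k t) * al0 k t f) u := by
      apply Red_i_congr
      rw [key]
      have e : (a : OO k t) * (((s * NI b : ℤ) : OO k t) * al0 k t f) =
          ((a * s * NI b : ℤ) : OO k t) * al0 k t f := by
        push_cast
        ring
      rw [e]
    have e2 : Red_i f b (-(((s * NI b : ℤ) : OO k t) * al0 k t f)) ((d : OO k t) * u) =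
        Red_i f b (-(((a * s * NI b : ℤ) : OO k t) * al0 k t f)) u := by
      apply Red_i_congr
      rw [key]
      have e : (a : OO k t) * -(((s * NI b : ℤ) : OO k t) * al0 k t f) =
          -(((a * s * NI b : ℤ) : OO k t) * al0 k t f) := by
        push_cast
        ring
      rw [e]
    rw [e1, e2]
  · intro z
    rw [Red_Tc hL hb s, Red_Tc hL hb (-s)]
    have e : cs (k := k) (t := t) (((-s : ℤ) : ℂ) * v0 k t f) b =
        (fun v : ℂ => (-1 : ℂ) * v) '' cs ((s : ℂ) * v0 k t f) b := by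
      ext v
      constructor
      · intro hv
        refine ⟨-v, ?_, by ring⟩
        change -v - (s : ℂ) * v0 k t f ∈ Lam b
        have e1 : -v - (s : ℂ) * v0 k t f = -(v - ((-s : ℤ) : ℂ) * v0 k t f) := by
          push_cast
          ring
        rw [e1]
        exact lam_neg hv
      · rintro ⟨w, hw, rfl⟩
        change (-1 : ℂ) * w - ((-s : ℤ) : ℂ) * v0 k t f ∈ Lam b
        have e1 : (-1 : ℂ) * w - ((-s : ℤ) : ℂ) * v0 k t f = -(w - (s : ℂ) * v0 k t f) := by
          push_cast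
          ring
        rw [e1]
        exact lam_neg hw
    rw [e, hT1 _ _ _ _ (by norm_num : (-1 : ℂ) ≠ 0), norm_neg, norm_one, one_pow, mul_one]
    ring

end Pool.Agent.DT.C
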