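import Pool.Agent.Lib.DT.C.Spec

/-!
# THEOREM DT (MP_d0239a_nt), Part C: sums over the residues (helper61, port of `DI/C/Res.lean`)
-/

set_option autoImplicit false

open Filter Topology
open scoped Pointwise

noncomputable section

namespace Pool.Agent.DT.C

open Pool.Agent.MuZ Pool.Agent.FW NumberField
open Pool.Agent.DI (io ofC io_inj exists_io io_ofC ofC_io VP MP UP TP ex)

open Finset

variable {k t : ℕ}

theorem Res_mk (m : ℕ) (v u : OO k t) :
    v + (m : OO k t) * u = ⟨v.re + m * u.re, v.im + m * u.im⟩ := by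
  apply QuadraticAlgebra.ext
  · simp
  · simp

theorem Res_mkZ (a : ℤ) (v : OO k t) : (a : OO k t) * v = ⟨a * v.re, a * v.im⟩ := by
  apply QuadraticAlgebra.ext
  · simp
  · simp

theorem Res_range (m : ℕ) [NeZero m] (g : ZMod m → ℂ) :
    ∑ x ∈ Finset.range m, g (((x : ℤ)) : ZMod m) = ∑ a : ZMod m, g a := by
  refine Finset.sum_nbij' (fun x => (x : ZMod m)) (fun a => a.val) ?_ ?_ ?_ ?_ ?_
  · intro x _; exact Finset.mem_univ _
  · intro a _; exact Finset.mem_range.2 (ZMod.val_lt a)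
  · intro x hx; exact ZMod.val_cast_of_lt (Finset.mem_range.1 hx)
  · intro a _; exact ZMod.natCast_zmod_val a
  · intro x _; simp

/-- a periodic function on `O` is a function on `(ZMod m)^2` -/
theorem Res_lift (m : ℕ) [NeZero m] (F : OO k t → ℂ) (hF : PerO m F) :
    ∃ g : ZMod m → ZMod m → ℂ, ∀ x y : ℤ, F ⟨x, y⟩ = g x y := by
  refine ⟨fun a b => F ⟨(a.val : ℤ), (b.val : ℤ)⟩, fun x y => ?_⟩
  have h1 : (⟨x, y⟩ : OO k t) = ⟨(((x : ZMod m)).val : ℤ), (((y : ZMod m)).val : ℤ)⟩ +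
      (m : OO k t) * ⟨x / m, y / m⟩ := by
    rw [Res_mk, ZMod.val_intCast, ZMod.val_intCast]
    apply QuadraticAlgebra.ext
    · exact (Int.emod_add_mul_ediv x m).symm
    · exact (Int.emod_add_mul_ediv y m).symm
  rw [h1, hF]

theorem Res_sum (m : ℕ) [NeZero m] (F : OO k t → ℂ) (g : ZMod m → ZMod m → ℂ)
    (h : ∀ x y : ℤ, F ⟨x, y⟩ = g x y) : rsum m F = ∑ a : ZMod m, ∑ b : ZMod m, g a b := by
  unfold rsum
  rw [← Res_range m (fun a => ∑ b : ZMod m, g a b)]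
  refine Finset.sum_congr rfl fun x _ => ?_
  rw [← Res_range m (fun b => g ((x : ℤ) : ZMod m) b)]
  refine Finset.sum_congr rfl fun y _ => ?_
  rw [h]

/-- translation -/
theorem Res_tr (m : ℕ) (F : OO k t → ℂ) (hm : 0 < m) (hF : PerO m F) (w : OO k t) :
    rsum m (fun v => F (v + w)) = rsum m F := by
  have : NeZero m := ⟨hm.ne'⟩
  obtain ⟨g, hg⟩ := Res_lift m F hF
  have h1 : rsum m (fun v => F (v + w)) =
      ∑ a : ZMod m, ∑ b : ZMod m, g (a + (w.re : ZMod m)) (b + (w.im : ZMod m)) := by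
    apply Res_sum
    intro x y
    have h2 : (⟨x, y⟩ : OO k t) + w = ⟨x + w.re, y + w.im⟩ := rfl
    rw [h2, hg]
    push_cast
    rfl
  rw [h1, Res_sum m F g hg]
  refine Fintype.sum_equiv (Equiv.addRight (w.re : ZMod m)) _ _ fun a => ?_
  exact Fintype.sum_equiv (Equiv.addRight (w.im : ZMod m)) _ _ fun b => rfl

/-- dilation -/
theorem Res_dil (m : ℕ) (F : OO k t → ℂ) (hm : 0 < m) (hF : PerO m F) (a : ℤ)
    (ha : IsCoprime a (m : ℤ)) : rsum m (fun v : OO k t => F ((a : OO k t) * v)) = rsum m F := by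
  have : NeZero m := ⟨hm.ne'⟩
  obtain ⟨g, hg⟩ := Res_lift m F hF
  obtain ⟨a', ha'⟩ : IsUnit (a : ZMod m) := by
    rw [ZMod.coe_int_isUnit_iff_isCoprime]
    exact ha.symm
  have h1 : rsum m (fun v : OO k t => F ((a : OO k t) * v)) =
      ∑ x : ZMod m, ∑ y : ZMod m, g ((a : ZMod m) * x) ((a : ZMod m) * y) := by
    apply Res_sum
    intro x y
    rw [Res_mkZ, hg]
    push_cast
    rfl
  rw [h1, Res_sum m F g hg, ← ha']
  refine Fintype.sum_equiv (Units.mulLeft a') _ _ fun x => ?_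
  exact Fintype.sum_equiv (Units.mulLeft a') _ _ fun y => rfl

/-- a geometric sum -/
theorem Res_geo (f : ℕ) (hf : 0 < f) (n : ℤ) :
    ∑ x ∈ Finset.range f, ex ((x : ℂ) * n / f) = if (f : ℤ) ∣ n then (f : ℂ) else 0 := by
  have : NeZero f := ⟨hf.ne'⟩
  have h1 : ∑ x ∈ Finset.range f, ex ((x : ℂ) * n / f) =
      ∑ a : ZMod f, (ZMod.stdAddChar (a * (n : ZMod f)) : ℂ) := by
    rw [← Res_range f (fun a => (ZMod.stdAddChar (a * (n : ZMod f)) : ℂ))]
    refine Finset.sum_congr rfl fun x _ => ?_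
    have h2 : (((x : ℤ)) : ZMod f) * (n : ZMod f) = (((x : ℤ) * n : ℤ) : ZMod f) := by
      push_cast; rfl
    rw [h2, ZMod.stdAddChar_coe]
    unfold ex
    congr 1
    push_cast
    ring
  rw [h1, AddChar.sum_mulShift (R' := ℂ) (n : ZMod f) (ZMod.isPrimitive_stdAddChar f)]
  by_cases h : (f : ℤ) ∣ n
  · rw [if_pos h, if_pos ((ZMod.intCast_zmod_eq_zero_iff_dvd n f).2 h), ZMod.card]
  · rw [if_neg h, if_neg (fun h' => h ((ZMod.intCast_zmod_eq_zero_iff_dvd n f).1 h'))]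
    simp

theorem Res_ex_add (z w : ℂ) : ex (z + w) = ex z * ex w := by
  unfold ex
  rw [← Complex.exp_add]
  ring_nf

theorem Res_dvd (f : ℕ) (w : OO k t) : (f : OO k t) ∣ w ↔ (f : ℤ) ∣ w.re ∧ (f : ℤ) ∣ w.im := by
  constructor
  · rintro ⟨u, hu⟩
    have h1 := Res_mk f 0 u
    rw [zero_add, ← hu] at h1
    rw [h1]
    exact ⟨⟨u.re, by simp⟩, ⟨u.im, by simp⟩⟩
  · rintro ⟨⟨x, hx⟩, ⟨y, hy⟩⟩
    refine ⟨⟨x, y⟩, ?_⟩
    have h1 := Res_mk f (0 : OO k t) ⟨x, y⟩
    rw [zero_add] at h1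
    rw [h1]
    apply QuadraticAlgebra.ext
    · simpa using hx
    · simpa using hy

/-- orthogonality -/
theorem Res_ort (f : ℕ) (w : OO k t) (hf : 0 < f) : rsum f (fun u : OO k t => ex ((cjO u * w).im / f)) =
    (if (f : ℤ) ∣ w.im then (f : ℂ) else 0) * (if (f : ℤ) ∣ w.re then (f : ℂ) else 0) := by
  have h0 : (if (f : ℤ) ∣ w.re then (f : ℂ) else 0) =
      (if (f : ℤ) ∣ -w.re then (f : ℂ) else 0) := by
    by_cases h : (f : ℤ) ∣ w.re
    · rw [if_pos h, if_pos (dvd_neg.2 h)]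
    · rw [if_neg h, if_neg (fun h' => h (dvd_neg.1 h'))]
  rw [h0, ← Res_geo f hf w.im, ← Res_geo f hf (-w.re)]
  unfold rsum
  rw [Finset.sum_mul_sum]
  refine Finset.sum_congr rfl fun x _ => Finset.sum_congr rfl fun y _ => ?_
  rw [← Res_ex_add]
  have h1 : (cjO (⟨(x : ℤ), (y : ℤ)⟩ : OO k t) * w).im = (x : ℤ) * w.im - (y : ℤ) * w.re := by
    unfold cjO
    rw [QuadraticAlgebra.im_mul]
    ring
  change ex (((cjO (⟨(x : ℤ), (y : ℤ)⟩ : OO k t) * w).im : ℂ) / f) = _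
  rw [h1]
  congr 1
  push_cast
  ring

/-- Chinese remainders, one coordinate -/
theorem Res_crt (f p : ℕ) (hf : 0 < f) (hp : 0 < p) (hc : Nat.Coprime f p) [NeZero (f * p)]
    (h : ZMod (f * p) → ℂ) :
    ∑ x ∈ Finset.range f, ∑ y ∈ Finset.range p,
      h (((p : ℤ) * (x : ℤ) + (f : ℤ) * (y : ℤ) : ℤ) : ZMod (f * p)) = ∑ a, h a := by
  have : NeZero f := ⟨hf.ne'⟩
  have : NeZero p := ⟨hp.ne'⟩
  have hbij : Function.Bijective (fun z : Fin f × Fin p =>
      (((p : ℤ) * ((z.1 : ℕ) : ℤ) + (f : ℤ) * ((z.2 : ℕ) : ℤ) : ℤ) : ZMod (f * p))) := by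
    rw [Fintype.bijective_iff_injective_and_card]
    refine ⟨?_, by simp [ZMod.card]⟩
    rintro ⟨x, y⟩ ⟨x', y'⟩ hxy
    have h1 := (ZMod.intCast_eq_intCast_iff_dvd_sub _ _ _).1 hxy
    push_cast at h1
    have h2 : (f : ℤ) ∣ ((x' : ℕ) : ℤ) - ((x : ℕ) : ℤ) := by
      have h3 : (f : ℤ) ∣ (p : ℤ) * (((x' : ℕ) : ℤ) - ((x : ℕ) : ℤ)) := by
        have h4 : (p : ℤ) * (((x' : ℕ) : ℤ) - ((x : ℕ) : ℤ)) =
            ((p : ℤ) * ((x' : ℕ) : ℤ) + (f : ℤ) * ((y' : ℕ) : ℤ) -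
              ((p : ℤ) * ((x : ℕ) : ℤ) + (f : ℤ) * ((y : ℕ) : ℤ))) -
            (f : ℤ) * (((y' : ℕ) : ℤ) - ((y : ℕ) : ℤ)) := by ring
        rw [h4]
        exact dvd_sub (dvd_trans (Dvd.intro _ rfl) h1) (Dvd.intro _ rfl)
      exact (Nat.isCoprime_iff_coprime.2 hc).dvd_of_dvd_mul_left h3
    have h3 : (p : ℤ) ∣ ((y' : ℕ) : ℤ) - ((y : ℕ) : ℤ) := by
      have h3 : (p : ℤ) ∣ (f : ℤ) * (((y' : ℕ) : ℤ) - ((y : ℕ) : ℤ)) := by
        have h4 : (f : ℤ) * (((y' : ℕ) : ℤ) - ((y : ℕ) : ℤ)) =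
            ((p : ℤ) * ((x' : ℕ) : ℤ) + (f : ℤ) * ((y' : ℕ) : ℤ) -
              ((p : ℤ) * ((x : ℕ) : ℤ) + (f : ℤ) * ((y : ℕ) : ℤ))) -
            (p : ℤ) * (((x' : ℕ) : ℤ) - ((x : ℕ) : ℤ)) := by ring
        rw [h4]
        exact dvd_sub (dvd_trans (Dvd.intro_left _ rfl) h1) (Dvd.intro _ rfl)
      exact (Nat.isCoprime_iff_coprime.2 hc.symm).dvd_of_dvd_mul_left h3
    have hx : (x : ℕ) = x' := by
      have h5 := Int.eq_zero_of_abs_lt_dvd h2 (by
        rw [abs_lt]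
        have := x.2
        have := x'.2
        constructor <;> omega)
      omega
    have hy : (y : ℕ) = y' := by
      have h5 := Int.eq_zero_of_abs_lt_dvd h3 (by
        rw [abs_lt]
        have := y.2
        have := y'.2
        constructor <;> omega)
      omega
    exact Prod.ext (Fin.ext hx) (Fin.ext hy)
  rw [← hbij.sum_comp h, Fintype.sum_prod_type, Finset.sum_range]
  refine Finset.sum_congr rfl fun x _ => ?_
  rw [Finset.sum_range]

theorem Res_crt2 (f p : ℕ) (F : OO k t → ℂ) (hf : 0 < f) (hp : 0 < p) (hc : Nat.Coprime f p)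
    (hF : PerO (f * p) F) :
    rsum (f * p) F =
      rsum f fun α : OO k t => rsum p fun β : OO k t => F ((p : OO k t) * α + (f : OO k t) * β) := by
  have : NeZero (f * p) := ⟨(Nat.mul_pos hf hp).ne'⟩
  obtain ⟨g, hg⟩ := Res_lift (f * p) F hF
  rw [Res_sum (f * p) F g hg]
  have h1 : ∀ x y x' y' : ℤ, F (p * (⟨x, y⟩ : OO k t) + f * (⟨x', y'⟩ : OO k t)) =
      g (((p : ℤ) * x + (f : ℤ) * x' : ℤ) : ZMod (f * p))
        (((p : ℤ) * y + (f : ℤ) * y' : ℤ) : ZMod (f * p)) := by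
    intro x y x' y'
    rw [← hg]
    congr 1
    apply QuadraticAlgebra.ext
    · simp
    · simp
  unfold rsum
  simp only [h1]
  rw [← Res_crt f p hf hp hc (fun a => ∑ b, g a b)]
  refine Finset.sum_congr rfl fun x _ => ?_
  have h2 : ∀ x' ∈ Finset.range p, ∑ b, g (((p : ℤ) * (x : ℤ) + (f : ℤ) * (x' : ℤ) : ℤ) :
      ZMod (f * p)) b = ∑ y ∈ Finset.range f, ∑ y' ∈ Finset.range p,
      g (((p : ℤ) * (x : ℤ) + (f : ℤ) * (x' : ℤ) : ℤ) : ZMod (f * p))
        (((p : ℤ) * (y : ℤ) + (f : ℤ) * (y' : ℤ) : ℤ) : ZMod (f * p)) := by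
    intro x' _
    rw [Res_crt f p hf hp hc]
  rw [Finset.sum_congr rfl h2, Finset.sum_comm]

/-- the equivalence of the residues -/
def Res_eqv (m : ℕ) (hm : 0 < m) : (Fin m × Fin m) × OO k t ≃ OO k t where
  toFun z := (⟨((z.1.1 : ℕ) : ℤ), ((z.1.2 : ℕ) : ℤ)⟩ : OO k t) + (m : OO k t) * z.2
  invFun v := ((⟨(v.re % m).toNat, by
      have h1 := Int.emod_nonneg v.re (b := (m : ℤ)) (by omega)
      have h2 := Int.emod_lt_of_pos v.re (b := (m : ℤ)) (by omega)
      omega⟩, ⟨(v.im % m).toNat, by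
      have h1 := Int.emod_nonneg v.im (b := (m : ℤ)) (by omega)
      have h2 := Int.emod_lt_of_pos v.im (b := (m : ℤ)) (by omega)
      omega⟩), ⟨v.re / m, v.im / m⟩)
  left_inv := by
    rintro ⟨⟨x, y⟩, u⟩
    have hx := x.2
    have hy := y.2
    have h0 : (m : ℤ) ≠ 0 := by omega
    have e1 : (((x : ℕ) : ℤ) + m * u.re) % m = ((x : ℕ) : ℤ) := by
      rw [Int.add_mul_emod_self_left]
      exact Int.emod_eq_of_lt (by omega) (by omega)
    have e2 : (((y : ℕ) : ℤ) + m * u.im) % m = ((y : ℕ) : ℤ) := by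
      rw [Int.add_mul_emod_self_left]
      exact Int.emod_eq_of_lt (by omega) (by omega)
    have e3 : (((x : ℕ) : ℤ) + m * u.re) / m = u.re := by
      rw [Int.add_mul_ediv_left _ _ h0, Int.ediv_eq_zero_of_lt (by omega) (by omega), zero_add]
    have e4 : (((y : ℕ) : ℤ) + m * u.im) / m = u.im := by
      rw [Int.add_mul_ediv_left _ _ h0, Int.ediv_eq_zero_of_lt (by omega) (by omega), zero_add]
    simp only [Res_mk, e1, e2, e3, e4, Int.toNat_natCast]
  right_inv := by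
    intro v
    have h1 := Int.emod_nonneg v.re (b := (m : ℤ)) (by omega)
    have h2 := Int.emod_nonneg v.im (b := (m : ℤ)) (by omega)
    simp only [Res_mk, Int.toNat_of_nonneg h1, Int.toNat_of_nonneg h2]
    apply QuadraticAlgebra.ext
    · exact Int.emod_add_mul_ediv v.re m
    · exact Int.emod_add_mul_ediv v.im m

theorem Res_eqv_apply (m : ℕ) (hm : 0 < m) (b : Fin m × Fin m) (u : OO k t) :
    Res_eqv m hm (b, u) = (⟨((b.1 : ℕ) : ℤ), ((b.2 : ℕ) : ℤ)⟩ : OO k t) + (m : OO k t) * u := rfl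

theorem Res_inj (m : ℕ) (hm : 0 < m) (v : OO k t) :
    Function.Injective fun u : OO k t => v + (m : OO k t) * u := by
  intro u u' h
  have h0 : (m : ℤ) ≠ 0 := by omega
  simp only [Res_mk] at h
  have h1 := congrArg QuadraticAlgebra.re h
  have h2 := congrArg QuadraticAlgebra.im h
  simp only at h1 h2
  apply QuadraticAlgebra.ext
  · exact mul_left_cancel₀ h0 (by linarith)
  · exact mul_left_cancel₀ h0 (by linarith)

theorem tRes : S_Res := by
  intro k t _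
  refine ⟨fun m F hm hF w => Res_tr m F hm hF w, ?_, fun m F hm hF a ha => Res_dil m F hm hF a ha,
    ?_, fun f p F hf hp hc hF => Res_crt2 f p F hf hp hc hF⟩
  · intro m F hm hF
    have hs : ∀ v : OO k t, Summable fun u : OO k t => F (v + m * u) := fun v =>
      hF.comp_injective (Res_inj m hm v)
    refine ⟨hs, ?_⟩
    have h1 : Summable fun z : (Fin m × Fin m) × OO k t => F (Res_eqv m hm z) :=
      (Equiv.summable_iff (Res_eqv m hm)).2 hF
    have h2 : ∀ b : Fin m × Fin m, Summable fun u : OO k t => F (Res_eqv m hm (b, u)) := by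
      intro b
      simp only [Res_eqv_apply]
      exact hs _
    have h3 : ∑' v : OO k t, F v = ∑' z : (Fin m × Fin m) × OO k t, F (Res_eqv m hm z) :=
      ((Res_eqv m hm).tsum_eq F).symm
    have h4 : ∑' z : (Fin m × Fin m) × OO k t, F (Res_eqv m hm z) =
        ∑' b : Fin m × Fin m, ∑' u : OO k t, F (Res_eqv m hm (b, u)) := h1.tsum_prod' h2
    rw [h3, h4, tsum_fintype, Fintype.sum_prod_type]
    simp only [Res_eqv_apply]
    unfold rsum
    rw [Finset.sum_range]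
    refine Finset.sum_congr rfl fun x _ => ?_
    rw [Finset.sum_range]
  · intro f w hf
    rw [Res_ort f w hf]
    constructor
    · intro h
      rw [Res_dvd] at h
      rw [if_pos h.1, if_pos h.2]
      ring
    · intro h
      rw [Res_dvd] at h
      by_cases h1 : (f : ℤ) ∣ w.im
      · rw [if_neg (fun h2 => h ⟨h2, h1⟩), mul_zero]
      · rw [if_neg h1, zero_mul]

end Pool.Agent.DT.C
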