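import Pool.Agent.Lib.DT.C.Spec

/-!
# Theorem DT, part C, module Spl: splitting modulo `n`

Author helper69, after `DK/C/Spl.lean`.
-/

set_option autoImplicit false

open Filter Topology
open scoped Pointwise

noncomputable section

namespace Pool.Agent.DT.C

open Pool.Agent.MuZ Pool.Agent.FW NumberField
open Pool.Agent.DI (io ofC io_inj exists_io io_ofC ofC_io VP MP UP TP ex)

private lemma Spl_ex_add (x y : ℂ) : ex (x + y) = ex x * ex y := by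
  unfold ex
  rw [mul_add, Complex.exp_add]

private lemma Spl_ex_int (n : ℤ) : ex (n : ℂ) = 1 := by
  unfold ex
  rw [Complex.exp_eq_one_iff]
  exact ⟨n, by ring⟩

/-- The value of one term. -/
private lemma Spl_term (W : ℝ) (n q : ℕ) (hn : 0 < n) (x z : ℂ) (y : ℝ) (c j : ℤ)
    (h : W * ((n : ℝ) ^ 2 * ‖z‖ ^ 2) - W * ‖x‖ ^ 2 = n * j) :
    ex (((W * ‖(n : ℂ)‖ ^ 2 : ℝ) : ℂ) * ((‖z‖ : ℝ) : ℂ) ^ 2 * (q * ((c : ℂ) / n + y * Complex.I))) =
      ex (c * (q * ((W : ℂ) * ((‖x‖ : ℝ) : ℂ) ^ 2)) / n) *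
        ((Real.exp (-(2 * Real.pi * y * W * q * n ^ 2) * ‖z‖ ^ 2) : ℝ) : ℂ) := by
  have hn' : (n : ℂ) ≠ 0 := by exact_mod_cast hn.ne'
  have h1 : (W : ℂ) * ((n : ℂ) ^ 2 * ((‖z‖ : ℝ) : ℂ) ^ 2) =
      W * ((‖x‖ : ℝ) : ℂ) ^ 2 + n * j := by
    have h2 := congrArg (fun r : ℝ => (r : ℂ)) h
    push_cast at h2
    linear_combination h2
  have h2 : ((W * ‖(n : ℂ)‖ ^ 2 : ℝ) : ℂ) * ((‖z‖ : ℝ) : ℂ) ^ 2 *
      (q * ((c : ℂ) / n + y * Complex.I)) =
      c * (q * ((W : ℂ) * ((‖x‖ : ℝ) : ℂ) ^ 2)) / n + (((c * q * j : ℤ) : ℂ) +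
        (W : ℂ) * ((n : ℂ) ^ 2 * ((‖z‖ : ℝ) : ℂ) ^ 2) * (q * y) * Complex.I) := by
    rw [Complex.norm_natCast]
    have e1 : (((W * (n : ℝ) ^ 2 : ℝ) : ℝ) : ℂ) * ((‖z‖ : ℝ) : ℂ) ^ 2 *
        (q * ((c : ℂ) / n + y * Complex.I)) =
        (W : ℂ) * ((n : ℂ) ^ 2 * ((‖z‖ : ℝ) : ℂ) ^ 2) * (q * ((c : ℂ) / n)) +
        (W : ℂ) * ((n : ℂ) ^ 2 * ((‖z‖ : ℝ) : ℂ) ^ 2) * (q * y) * Complex.I := by
      push_cast
      ring
    rw [e1, ← add_assoc]
    congr 1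
    rw [h1]
    push_cast
    field_simp
  rw [h2, Spl_ex_add, Spl_ex_add, Spl_ex_int, one_mul]
  congr 1
  unfold ex
  rw [Complex.ofReal_exp]
  congr 1
  push_cast
  linear_combination 2 * (Real.pi : ℂ) * ((W : ℂ) * ((n : ℂ) ^ 2 * ((‖z‖ : ℝ) : ℂ) ^ 2) * (q * y)) *
    Complex.I_sq

theorem tSpl (hL : S_Lt) (hT : S_Tt) (hR : S_Red) (hV : S_V0) : S_Spl := by
  intro k t _ f n q b c U hf hn hq hb hU y hy
  obtain ⟨hN, hmem, htr, -, -, -, hsum⟩ := hL k t b hb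
  obtain ⟨T1, _, _, _, T5⟩ := hT
  obtain ⟨_, _, R3, _⟩ := hR k t f b hf hb 1
  have hn' : (n : ℂ) ≠ 0 := by exact_mod_cast hn.ne'
  set v₀ : ℂ := v0 k t f with hv₀
  have hset : cs (((1 : ℤ) : ℂ) * v₀) b = ⋃ u ∈ U, (fun v => (n : ℂ) * v) '' cs (v₀ / n + u) b := by
    ext v
    simp only [Set.mem_iUnion, Set.mem_image, cs, Set.mem_ofPred_eq, exists_prop]
    constructor
    · intro hv
      have h1 : v / n - v₀ / n ∈ Lam (sN k t n * b) := by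
        rw [lam_sp, toC_nat]
        have : (n : ℂ) * (v / n - v₀ / n) = v - ((1 : ℤ) : ℂ) * v₀ := by
          push_cast
          field_simp
        rw [this]
        exact hv
      obtain ⟨u, hu, h2⟩ := hU.ex _ h1
      refine ⟨u, hu, v / n, ?_, by field_simp⟩
      have : v / n - (v₀ / n + u) = v / n - v₀ / n - u := by ring
      rw [this]
      exact h2
    · rintro ⟨u, hu, w, hw, rfl⟩
      have h1 : u ∈ Lam (sN k t n * b) := hU.mem u hu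
      rw [lam_sp, toC_nat] at h1
      have h2 := lam_nat n hw
      have : (n : ℂ) * w - ((1 : ℤ) : ℂ) * v₀ = n * (w - (v₀ / n + u)) + n * u := by
        push_cast
        field_simp
        ring
      rw [this]
      exact lam_add h2 h1
  have hdis : ∀ u ∈ U, ∀ u' ∈ U, ∀ v : ℂ, v ∈ (fun v => (n : ℂ) * v) '' cs (v₀ / n + u) b →
      v ∈ (fun v => (n : ℂ) * v) '' cs (v₀ / n + u') b → u = u' := by
    rintro u hu u' hu' v ⟨w, hw, rfl⟩ ⟨w', hw', h⟩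
    have h1 : w' = w := mul_left_cancel₀ hn' h
    subst h1
    refine hU.uni u hu u' hu' ?_
    have : u - u' = (w' - (v₀ / n + u')) - (w' - (v₀ / n + u)) := by ring
    rw [this]
    exact lam_sub hw' hw
  have htor : Tor k t (((1 : ℤ) : ℂ) * v₀) := by
    rw [Int.cast_one, one_mul, hv₀, v0_eq hf.pos]
    exact tor_div (mul_pos three_pos hf.pos) _
  have him : 0 < ((q : ℂ) * ((c : ℂ) / n + y * Complex.I)).im := by
    have h1 : ((q : ℂ) * ((c : ℂ) / n + y * Complex.I)).im = q * y := by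
      have h2 : (q : ℂ) * ((c : ℂ) / n + y * Complex.I) =
          ((q * (c / n) : ℝ) : ℂ) + ((q * y : ℝ) : ℂ) * Complex.I := by
        push_cast
        ring
      rw [h2]
      simp
    rw [h1]
    have : (0 : ℝ) < q := by exact_mod_cast hq
    positivity
  have hw : (0 : ℝ) < 3 * (f : ℝ) ^ 2 * NI b := by
    have h1 : (0 : ℝ) < f := by exact_mod_cast hf.pos
    have h2 : (0 : ℝ) < NI b := by exact_mod_cast hN
    positivity
  have hS := hsum _ _ _ htor hw him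
  rw [R3]
  have h5 := T5 U (fun u => (fun v => (n : ℂ) * v) '' cs (v₀ / n + u) b) (3 * (f : ℝ) ^ 2 * NI b)
    ((q : ℂ) * ((c : ℂ) / n + y * Complex.I)) hdis (by rw [← hset]; exact hS)
  rw [← hset] at h5
  refine h5.trans ?_
  rw [Finset.mul_sum]
  refine Finset.sum_congr rfl fun u hu => ?_
  rw [T1 _ _ _ _ hn']
  congr 1
  have hx : v₀ + (n : ℂ) * u ∈ cs v₀ b := by
    have h1 : u ∈ Lam (sN k t n * b) := hU.mem u hu
    rw [lam_sp, toC_nat] at h1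
    have e : v₀ + (n : ℂ) * u - v₀ = n * u := by ring
    change v₀ + (n : ℂ) * u - v₀ ∈ Lam b
    rw [e]
    exact h1
  have hK : KtC b (2 * Real.pi * y * (3 * f ^ 2 * NI b) * q * n ^ 2) (v₀ / n + u) =
      ∑' v : cs (v₀ / n + u) b, (v : ℂ)⁻¹ *
        ((Real.exp (-(2 * Real.pi * y * (3 * f ^ 2 * NI b) * q * n ^ 2) * ‖(v : ℂ)‖ ^ 2) : ℝ) : ℂ) :=
    htr (v₀ / n + u) (fun v => v⁻¹ *
        ((Real.exp (-(2 * Real.pi * y * (3 * f ^ 2 * NI b) * q * n ^ 2) * ‖v‖ ^ 2) : ℝ) : ℂ))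
  rw [hK, ← tsum_mul_left]
  change (∑' v : cs (v₀ / n + u) b, (v : ℂ)⁻¹ * ex _) = _
  refine tsum_congr fun v => ?_
  obtain ⟨v, hv⟩ := v
  have hl : v - (v₀ / n + u) ∈ Lam b := hv
  obtain ⟨j, hj⟩ := (hV k t f hf).2.2.2.2.2 b hb n _ hx _ hl
  have e1 : v₀ + (n : ℂ) * u + n * (v - (v₀ / n + u)) = n * v := by
    field_simp
    ring
  rw [e1, norm_mul, Complex.norm_natCast, mul_pow] at hj
  have h := Spl_term (3 * (f : ℝ) ^ 2 * NI b) n q hn (v₀ + n * u) v y c j hj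
  change v⁻¹ * _ = _ * (v⁻¹ * _)
  rw [h]
  push_cast
  ring

end Pool.Agent.DT.C
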