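import Pool.Agent.Lib.DT.C.Spec

/-!
# Theorem DT, part C: transformation of `Tc`
-/

set_option autoImplicit false

open scoped Pointwise

noncomputable section

namespace Pool.Agent.DT.C

open Pool.Agent.MuZ Pool.Agent.FW NumberField

private theorem Tct_den {a b c d : ℤ} (h : a * d - b * c = 1) {z : ℂ} (hz : 0 < z.im) :
    (c : ℂ) * z + d ≠ 0 := by
  intro h0
  have him := congrArg Complex.im h0
  have hre := congrArg Complex.re h0
  simp only [Complex.add_im, Complex.mul_im, Complex.intCast_re, Complex.intCast_im, zero_mul,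
    add_zero, Complex.zero_im] at him
  simp only [Complex.add_re, Complex.mul_re, Complex.intCast_re, Complex.intCast_im, zero_mul,
    sub_zero, Complex.zero_re] at hre
  rcases mul_eq_zero.1 him with hc | hc
  · rw [hc, zero_mul, zero_add] at hre
    have hc' : c = 0 := by exact_mod_cast hc
    have hd' : d = 0 := by exact_mod_cast hre
    rw [hc', hd'] at h
    simp at h
  · exact hz.ne' hc

private theorem Tct_mob (a b c d : ℤ) (z : ℂ) : mob a b c d z = (a * z + b) / (c * z + d) := rfl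

private theorem Tct_im {a b c d : ℤ} (h : a * d - b * c = 1) {z : ℂ} (hz : 0 < z.im) :
    0 < (mob a b c d z).im := by
  have hden := Tct_den h hz
  have hN : 0 < Complex.normSq ((c : ℂ) * z + d) := Complex.normSq_pos.2 hden
  have hR : (a : ℝ) * d - b * c = 1 := by exact_mod_cast h
  rw [Tct_mob, Complex.div_im, ← sub_div]
  apply div_pos _ hN
  simp only [Complex.add_im, Complex.mul_im, Complex.intCast_re, Complex.intCast_im, zero_mul,
    add_zero, Complex.add_re, Complex.mul_re, sub_zero]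
  have e : (a : ℝ) * z.im * (c * z.re + d) - (a * z.re + b) * (c * z.im) =
      (a * d - b * c) * z.im := by ring
  rw [e, hR, one_mul]
  exact hz

theorem tTct (hP : S_Phi) (hR : S_Red) (h2 : S_O2) : S_Tct := by
  intro k t _ f b s hf hb a b' c d hdet hc
  obtain ⟨_, _, _, _, _, n6, _, _⟩ := h2 k t
  have hf0 : 0 < f := hf.pos
  have hf4 : 4 ∣ f := hf.four
  obtain ⟨hn, hnb⟩ : ∃ n : ℕ, n = 3 * NI b := ⟨_, rfl⟩
  have hb0 : 0 < NI b := Nat.pos_of_ne_zero fun h => hb ((n6 b).1 h)
  have hn0 : 0 < hn := by omega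
  obtain ⟨⟨r1, r2⟩, r3, _, r5, r6, r7, _⟩ := hR k t f b hf hb s
  have hFn : 3 * f * NI b = f * hn := by rw [hnb]; ring
  have hz3 : ∀ z : ℂ, z / (3 * (NI b : ℂ)) = z / hn := by
    intro z
    rw [hnb]
    push_cast
    rfl
  have hcn : ((Dk k t * f ^ 2 * hn : ℕ) : ℤ) ∣ c := by
    have e : Dk k t * f ^ 2 * hn = 3 * (Dk k t * f ^ 2 * NI b) := by rw [hnb]; ring
    rw [e]
    exact hc
  rw [hFn] at r2 r3 r7
  have hnc : (hn : ℤ) ∣ c := by
    refine Dvd.dvd.trans ?_ hcn
    exact_mod_cast dvd_mul_left hn (Dk k t * f ^ 2)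
  -- the number `j`
  obtain ⟨c', hc'⟩ := hnc
  obtain ⟨j, b₂, hj⟩ : ∃ j b₂ : ℤ, b' + j * d = hn * b₂ := by
    refine ⟨-(b' * a), -(b' * b' * c'), ?_⟩
    have e : b' + -(b' * a) * d = -(b' * (a * d - 1)) := by ring
    have e2 : a * d - 1 = b' * c := by linarith
    rw [e, e2, hc']
    ring
  have hdet1 : (a + j * c) * d - b₂ * (c * hn) = 1 := by
    have e : (a + j * c) * d - b₂ * (c * hn) = a * d + j * c * d - hn * b₂ * c := by ring
    rw [e, ← hj]
    linarith
  have hdet2 : (a + j * c) * d - (b' + j * d) * c = 1 := by linarith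
  have hdvd : (Dk k t * ((f * hn : ℕ) : ℤ) ^ 2 : ℤ) ∣ c * hn := by
    obtain ⟨e, he⟩ := hcn
    refine ⟨e, ?_⟩
    rw [he]
    push_cast
    ring
  have hfn : ((f * hn : ℕ) : ℤ) ∣ c := by
    refine Dvd.dvd.trans ?_ hcn
    have : f * hn ∣ Dk k t * f ^ 2 * hn := ⟨Dk k t * f, by ring⟩
    exact_mod_cast this
  have hfc : (3 * f : ℤ) ∣ c := by
    refine Dvd.dvd.trans ?_ hfn
    rw [hnb]
    exact ⟨NI b, by push_cast; ring⟩
  have hρ : tw (rhS f b s) (d : OO k t) = rhS f b ((a + j * c) * s) := by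
    funext u
    unfold tw
    refine r7 (a + j * c) d ?_ u
    have e : (a + j * c) * d - 1 = b₂ * hn * c := by linarith
    rw [e]
    exact hfn.mul_left _
  obtain ⟨_, q3, _, _, q6, _, _⟩ := hR k t f b hf hb ((a + j * c) * s)
  rw [hFn] at q3
  refine ⟨(f * hn : ℕ) * PhC (rhS f b s) (a + j * c) b₂ (c * hn) d, fun z hz => ?_⟩
  have hn' : (hn : ℂ) ≠ 0 := by exact_mod_cast hn0.ne'
  have hden := Tct_den hdet hz
  have e1 : mob a b' c d z + j = mob (a + j * c) (b' + j * d) c d z := by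
    rw [Tct_mob, Tct_mob, div_add' _ _ _ hden]
    push_cast
    ring
  have e2 : mob (a + j * c) (b' + j * d) c d z / hn = mob (a + j * c) b₂ (c * hn) d (z / hn) := by
    rw [hj, Tct_mob, Tct_mob]
    have e3 : ((c * hn : ℤ) : ℂ) * (z / hn) + d = c * z + d := by
      push_cast
      field_simp
    rw [e3]
    push_cast
    field_simp
  have hw : 0 < (z / hn).im := by
    have : (z / (hn : ℂ)).im = z.im / hn := by
      have h1 := Complex.div_ofReal_im z (hn : ℝ)
      rwa [Complex.ofReal_natCast] at h1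
    rw [this]
    exact div_pos hz (by exact_mod_cast hn0)
  have hdvd' := hP k t (f * hn) (rhS f b s) (Nat.mul_pos hf0 hn0) (hf4.mul_right hn) r1 r2 (a + j * c) b₂
    (c * hn) d hdet1 hdvd (z / hn) hw
  calc Tc f b s (mob a b' c d z) = Tc f b s (mob (a + j * c) (b' + j * d) c d z) := by
        rw [← e1, r5]
    _ = (f * hn : ℕ) * Th (rhS f b s) (mob (a + j * c) b₂ (c * hn) d (z / hn)) := by
        rw [r3 _ (Tct_im hdet2 hz), hz3, e2]
    _ = eps k t d * ((f * hn : ℕ) * Th (rhS f b ((a + j * c) * s)) (z / hn)) +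
        (f * hn : ℕ) * PhC (rhS f b s) (a + j * c) b₂ (c * hn) d := by
        rw [hdvd', hρ]
        ring
    _ = eps k t d * Tc f b (a * s) z +
        (f * hn : ℕ) * PhC (rhS f b s) (a + j * c) b₂ (c * hn) d := by
        rw [← hz3, ← q3 z hz, q6 (a * s) ?_ z]
        have e : (a + j * c) * s - a * s = j * s * c := by ring
        rw [e]
        exact hfc.mul_left _

end Pool.Agent.DT.C
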