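import Pool.Agent.Lib.DT.C.Spec

/-!
# THEOREM DT, Part C, module Uni: uniqueness of the coefficients
-/

set_option autoImplicit false

open Filter Topology

noncomputable section

namespace Pool.Agent.DT.C

open Pool.Agent.MuZ Pool.Agent.FW NumberField
open Pool.Agent.DI (io ofC io_inj exists_io io_ofC ofC_io VP MP UP TP ex)

variable {k t : ℕ}

/-- the set of elements of bounded norm is finite -/
private theorem Uni_fin [SqT k t] (hB : S_Bas) (n : ℤ) : {u : OO k t | Nm u ≤ n}.Finite := by
  obtain ⟨-, -, -, -, -, h6, -⟩ := hB k t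
  have hinj : Set.InjOn (fun u : OO k t => (u.re, u.im)) {u : OO k t | Nm u ≤ n} := by
    intro u _ v _ h
    simp only [Prod.mk.injEq] at h
    exact QuadraticAlgebra.ext h.1 h.2
  refine Set.Finite.of_finite_image (f := fun u : OO k t => (u.re, u.im)) ?_ hinj
  refine ((Set.finite_Icc (-(4 * n)) (4 * n)).prod (Set.finite_Icc (-(4 * n)) (4 * n))).subset ?_
  rintro _ ⟨u, hu, rfl⟩
  have h1 := (h6 u).2.2
  have h0 := (h6 u).1
  have hu' : Nm u ≤ n := hu
  simp only [Set.mem_prod, Set.mem_Icc]
  have a1 : u.re ^ 2 ≤ 4 * n := by nlinarith [sq_nonneg u.im]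
  have a2 : u.im ^ 2 ≤ 4 * n := by nlinarith [sq_nonneg u.re]
  have a3 : ∀ x : ℤ, x ^ 2 ≤ 4 * n → -(4 * n) ≤ x ∧ x ≤ 4 * n := by
    intro x hx
    have b1 : x ≤ x ^ 2 := Int.le_self_sq x
    have b2 : -x ≤ (-x) ^ 2 := Int.le_self_sq (-x)
    rw [neg_sq] at b2
    exact ⟨by linarith, by linarith⟩
  exact ⟨a3 _ a1, a3 _ a2⟩

private theorem Uni_ex (M : ℕ) (hM : 0 < M) (t' : ℝ) (m : ℤ) :
    ex (m * (((t' * M / (2 * Real.pi) : ℝ) : ℂ) * Complex.I) / M) = Complex.exp (-(t' * m)) := by
  have hM' : (M : ℂ) ≠ 0 := by exact_mod_cast hM.ne'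
  have hpi : (Real.pi : ℂ) ≠ 0 := by exact_mod_cast Real.pi_ne_zero
  unfold ex
  congr 1
  push_cast
  field_simp
  ring_nf
  simp only [Complex.I_sq]
  ring

theorem tUni (hB : S_Bas) (hS : S_Sum) : S_Uni := by
  intro k t _ M γ C hM hγ hz
  have h6 := (hB k t).2.2.2.2.2.1
  -- the hypothesis on the imaginary axis
  have hH : ∀ t' : ℝ, 0 < t' → ∑' u : OO k t, γ u * Complex.exp (-(t' * Nm u)) = 0 := by
    intro t' ht
    have h1 := hz (((t' * M / (2 * Real.pi) : ℝ) : ℂ) * Complex.I) (by
      simp only [Complex.mul_im, Complex.ofReal_re, Complex.I_im, mul_one, Complex.ofReal_im,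
        Complex.I_re, mul_zero, add_zero]
      have : (0 : ℝ) < M := by exact_mod_cast hM
      positivity)
    rw [← h1]
    refine tsum_congr fun u => ?_
    rw [Uni_ex M hM t' (Nm u)]
  have hnorm : ∀ (t' : ℝ) (u : OO k t), ‖γ u * Complex.exp (-(t' * Nm u))‖ =
      ‖γ u‖ * Real.exp (-(t' * Nm u)) := by
    intro t' u
    rw [norm_mul, Complex.norm_exp]
    congr 2
    simp
  have hC : 0 ≤ C := by
    have h1 := hγ 0
    have h2 : (Nm (0 : OO k t) : ℝ) = 0 := by
      have := (h6 0).2.1.2 rfl
      exact_mod_cast this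
    rw [h2] at h1
    have := norm_nonneg (γ 0)
    linarith
  have hsN : ∀ t' : ℝ, 0 < t' → Summable fun u : OO k t => ‖γ u‖ * Real.exp (-(t' * Nm u)) := by
    intro t' ht
    have h1 := ((hS k t).1 t' 1 ht).mul_left C
    refine Summable.of_nonneg_of_le (fun u => by positivity) (fun u => ?_) h1
    rw [pow_one, neg_mul]
    calc ‖γ u‖ * Real.exp (-(t' * Nm u)) ≤ (C * (1 + Nm u)) * Real.exp (-(t' * Nm u)) :=
          mul_le_mul_of_nonneg_right (hγ u) (Real.exp_pos _).le
      _ = C * ((Nm u + 1) * Real.exp (-(t' * Nm u))) := by ring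
  have hsC : ∀ t' : ℝ, 0 < t' → Summable fun u : OO k t => γ u * Complex.exp (-(t' * Nm u)) := by
    intro t' ht
    refine Summable.of_norm ?_
    simp only [hnorm]
    exact hsN t' ht
  -- strong induction
  have key : ∀ n : ℕ, ∀ T : Finset (OO k t), (∀ u : OO k t, u ∈ T ↔ Nm u = n) → ∑ u ∈ T, γ u = 0 := by
    intro n
    induction n using Nat.strong_induction_on with
    | _ n ih =>
      intro T hT
      classical
      have hfin := Uni_fin (k := k) (t := t) hB ((n : ℤ) - 1)
      set B : Finset (OO k t) := hfin.toFinset with hBdef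
      have hBm : ∀ u, u ∈ B ↔ Nm u < n := by
        intro u
        rw [hBdef, Set.Finite.mem_toFinset, Set.mem_ofPred_eq]
        omega
      have hBsum : ∀ t' : ℝ, ∑ u ∈ B, γ u * Complex.exp (-(t' * Nm u)) = 0 := by
        intro t'
        have h1 : ∀ u ∈ B, (Nm u).toNat ∈ Finset.range n := by
          intro u hu
          have h2 := (hBm u).1 hu
          have h3 := (h6 u).1
          rw [Finset.mem_range]
          omega
        rw [← Finset.sum_fiberwise_of_maps_to h1]
        refine Finset.sum_eq_zero fun m hm => ?_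
        have h2 : ∑ u ∈ B.filter (fun u => (Nm u).toNat = m), γ u = 0 := by
          refine ih m (Finset.mem_range.1 hm) _ fun u => ?_
          rw [Finset.mem_filter, hBm]
          have h3 := (h6 u).1
          have h4 := Finset.mem_range.1 hm
          omega
        calc ∑ u ∈ B.filter (fun u => (Nm u).toNat = m), γ u * Complex.exp (-(t' * Nm u))
            = ∑ u ∈ B.filter (fun u => (Nm u).toNat = m), γ u * Complex.exp (-(t' * m)) := by
              refine Finset.sum_congr rfl fun u hu => ?_
              have h5 := (Finset.mem_filter.1 hu).2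
              have h3 := (h6 u).1
              have h6' : Nm u = m := by omega
              rw [h6']
              push_cast
              rfl
          _ = 0 := by rw [← Finset.sum_mul, h2, zero_mul]
      have hdisj : Disjoint B T := by
        rw [Finset.disjoint_left]
        intro u hu hu'
        rw [hBm] at hu
        rw [hT] at hu'
        omega
      set A : ℝ := ∑' u : OO k t, ‖γ u‖ * Real.exp (-(1 * Nm u)) with hA
      have hbound : ∀ t' : ℝ, 1 ≤ t' → ‖∑ u ∈ T, γ u‖ ≤ A * Real.exp (n + 1) * Real.exp (-t') := by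
        intro t' ht
        have ht0 : 0 < t' := by linarith
        have h1 := (hsC t' ht0).sum_add_tsum_compl (s := B ∪ T)
        rw [hH t' ht0, Finset.sum_union hdisj, hBsum t', zero_add] at h1
        have h2 : ∑ u ∈ T, γ u * Complex.exp (-(t' * Nm u)) =
            (∑ u ∈ T, γ u) * Complex.exp (-(t' * n)) := by
          rw [Finset.sum_mul]
          refine Finset.sum_congr rfl fun u hu => ?_
          rw [(hT u).1 hu]
          push_cast
          rfl
        rw [h2] at h1
        have h3 : (∑ u ∈ T, γ u) * Complex.exp (-(t' * n)) =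
            -∑' u : (((B ∪ T : Finset (OO k t)) : Set (OO k t))ᶜ : Set (OO k t)), γ u * Complex.exp (-(t' * Nm (u : OO k t))) := by
          linear_combination h1
        have h4 : ‖∑ u ∈ T, γ u‖ * Real.exp (-(t' * n)) ≤
            A * Real.exp (-((t' - 1) * (n + 1))) := by
          have h5 : ‖(∑ u ∈ T, γ u) * Complex.exp (-(t' * n))‖ =
              ‖∑ u ∈ T, γ u‖ * Real.exp (-(t' * n)) := by
            rw [norm_mul, Complex.norm_exp]
            congr 2
            simp
          rw [← h5, h3, norm_neg]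
          have h6a : Summable fun u : (((B ∪ T : Finset (OO k t)) : Set (OO k t))ᶜ : Set (OO k t)) =>
              ‖γ u‖ * Real.exp (-(1 * Nm (u : OO k t))) := (hsN 1 one_pos).subtype _
          have h7 : ∀ u : (((B ∪ T : Finset (OO k t)) : Set (OO k t))ᶜ : Set (OO k t)),
              ‖γ u * Complex.exp (-(t' * Nm (u : OO k t)))‖ ≤
              ‖γ u‖ * Real.exp (-(1 * Nm (u : OO k t))) * Real.exp (-((t' - 1) * (n + 1))) := by
            rintro ⟨u, hu⟩
            rw [hnorm, mul_assoc, ← Real.exp_add]
            refine mul_le_mul_of_nonneg_left (Real.exp_le_exp.2 ?_) (norm_nonneg _)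
            have h8 : ¬ (u ∈ B ∪ T) := by
              intro h
              exact hu (by exact_mod_cast h)
            rw [Finset.mem_union, hBm, hT] at h8
            have h9 : (n : ℤ) + 1 ≤ Nm u := by omega
            have h10 : ((n : ℝ) + 1) ≤ Nm u := by exact_mod_cast h9
            change -(t' * (Nm u : ℝ)) ≤ -(1 * (Nm u : ℝ)) + -((t' - 1) * (n + 1))
            nlinarith
          have h11 : Summable fun u : (((B ∪ T : Finset (OO k t)) : Set (OO k t))ᶜ : Set (OO k t)) =>
              ‖γ u‖ * Real.exp (-(1 * Nm (u : OO k t))) * Real.exp (-((t' - 1) * (n + 1))) :=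
            h6a.mul_right _
          refine (tsum_of_norm_bounded h11.hasSum h7).trans ?_
          rw [tsum_mul_right]
          refine mul_le_mul_of_nonneg_right ?_ (Real.exp_pos _).le
          exact Summable.tsum_subtype_le _ _ (fun u => by positivity) (hsN 1 one_pos)
        have h12 : ‖∑ u ∈ T, γ u‖ ≤ A * Real.exp (-((t' - 1) * (n + 1))) * Real.exp (t' * n) := by
          have h13 := mul_le_mul_of_nonneg_right h4 (Real.exp_pos (t' * n)).le
          rw [mul_assoc, ← Real.exp_add, neg_add_cancel, Real.exp_zero, mul_one] at h13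
          exact h13
        calc ‖∑ u ∈ T, γ u‖ ≤ A * Real.exp (-((t' - 1) * (n + 1))) * Real.exp (t' * n) := h12
          _ = A * Real.exp (n + 1) * Real.exp (-t') := by
            rw [mul_assoc, mul_assoc, ← Real.exp_add, ← Real.exp_add]
            congr 2
            ring
      have hlim : Tendsto (fun t' : ℝ => A * Real.exp (n + 1) * Real.exp (-t')) atTop (𝓝 0) := by
        have := (Real.tendsto_exp_neg_atTop_nhds_zero).const_mul (A * Real.exp (n + 1))
        rwa [mul_zero] at this
      have h14 : ‖∑ u ∈ T, γ u‖ ≤ 0 :=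
        ge_of_tendsto hlim (eventually_atTop.2 ⟨1, fun t' ht => hbound t' ht⟩)
      exact norm_le_zero_iff.1 h14
  intro n T hT
  rcases lt_or_ge n 0 with hn | hn
  · have : T = ∅ := by
      rw [Finset.eq_empty_iff_forall_notMem]
      intro u hu
      have h1 := (hT u).1 hu
      have h2 := (h6 u).1
      omega
    rw [this, Finset.sum_empty]
  · obtain ⟨m, rfl⟩ := Int.eq_ofNat_of_zero_le hn
    exact key m T hT

end Pool.Agent.DT.C
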