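import Pool.Agent.Lib.DT.C.Spec

/-!
# Theorem DT, part C, module V0 (helper87): the base point `v₀`
-/

set_option autoImplicit false

noncomputable section

namespace Pool.Agent.DT.C

open Pool.Agent.MuZ Pool.Agent.FW NumberField
open Pool.Agent.DI (io ofC io_inj exists_io io_ofC ofC_io VP MP UP TP ex)

private theorem V0_nsq (z : ℂ) : ‖z‖ ^ 2 = z.re ^ 2 + z.im ^ 2 := by
  rw [Complex.sq_norm, Complex.normSq_apply]
  ring

private theorem V0_al {k t : ℕ} [SqT k t] (f : ℕ) : (toC (al0 k t f)).re ^ 2 + (toC (al0 k t f)).im ^ 2 =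
    9 + 3 * t * f + 3 * k * f ^ 2 := by
  rw [← V0_nsq, ← Nm_norm]
  have h1 : (al0 k t f).re = 3 := rfl
  have h2 : (al0 k t f).im = f := rfl
  have h3 : Nm (al0 k t f) = 9 + 3 * t * f + 3 * k * f ^ 2 := by
    unfold Nm
    rw [h1, h2]
    ring
  rw [h3]
  push_cast
  ring

theorem tV0 (hL : S_Lt) (_h2 : S_O2) (_h3 : S_O3) (h4 : S_O4) (_h6 : S_O6) : S_V0 := by
  intro k t _ f hf
  obtain ⟨hpp, -, -, -, -, -, -, -, -, -, hmp, -⟩ := h4 k t
  have hf0 : 0 < f := hf.pos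
  have hfR : (f : ℝ) ≠ 0 := by exact_mod_cast hf0.ne'
  have hα : al0 k t f ∈ pp k t := (hmp _).2 ⟨1, rfl⟩
  have h3f : ((3 * f : ℕ) : ℂ) * v0 k t f = toC (al0 k t f) := by
    have h0 : ((3 * f : ℕ) : ℂ) ≠ 0 := by
      have : 3 * f ≠ 0 := by omega
      exact_mod_cast this
    rw [v0_eq hf0, mul_div_cancel₀ _ h0]
  have hcn : ∀ γ ∈ cnd k t f, ∃ v : OO k t, toC γ * v0 k t f = toC v := by
    intro γ hγ
    obtain ⟨γ', hγ', rfl⟩ := Ideal.mem_span_singleton_mul.1 hγ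
    have h1 : al0 k t f * γ' ∈ sN k t 3 := by
      rw [← hpp]
      exact Ideal.mul_mem_mul hα hγ'
    obtain ⟨v, hv⟩ := Ideal.mem_span_singleton.1 h1
    refine ⟨v, ?_⟩
    have h5 : toC (al0 k t f) * toC γ' = 3 * toC v := by
      rw [← toC_mul, hv, toC_mul, toC_nat]
      push_cast
      ring
    rw [toC_mul, toC_nat]
    rw [← h3f] at h5
    push_cast at h5
    linear_combination h5 / 3
  have hre : (v0 k t f).re = (toC (al0 k t f)).re / (3 * f) := by
    have h := congrArg Complex.re h3f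
    rw [← Complex.ofReal_natCast, Complex.re_ofReal_mul] at h
    rw [← h]
    push_cast
    field_simp
  have him : (v0 k t f).im = (toC (al0 k t f)).im / (3 * f) := by
    have h := congrArg Complex.im h3f
    rw [← Complex.ofReal_natCast, Complex.im_ofReal_mul] at h
    rw [← h]
    push_cast
    field_simp
  have hαL : ∀ b : Ideal (OO k t), toC (al0 k t f) ∈ Lam b := by
    intro b
    exact lam_anti le_top (lam_top.2 ⟨_, rfl⟩)
  refine ⟨hα, hcn, h3f, ?_, ?_, ?_⟩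
  · intro b hb hv
    have h1 : (1 : OO k t) ∈ b ⊔ cnd k t f := by
      rw [show b ⊔ cnd k t f = ⊤ from hb]
      trivial
    obtain ⟨v, hv1, u, hu1, huv⟩ := Submodule.mem_sup.1 h1
    obtain ⟨x, hx⟩ := hv v hv1
    obtain ⟨y, hy⟩ := hcn u hu1
    have h5 : v0 k t f = toC (x + y) := by
      rw [toC_add, ← hx, ← hy, ← add_mul, ← toC_add, huv, toC_one, one_mul]
    have h6 : al0 k t f = ((3 * f : ℕ) : OO k t) * (x + y) := by
      apply toC_inj
      rw [toC_mul, toC_nat, ← h5, h3f]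
    have h7 : ((3 * f : ℕ) : OO k t) ∣ al0 k t f := ⟨_, h6⟩
    have h8 : ((3 * f : ℕ) : ℤ) ∣ 3 := ((nat_dvd_iff _ _).1 h7).1
    have h9 : ((3 * f : ℕ) : ℤ) ≤ 3 := Int.le_of_dvd (by norm_num) h8
    obtain ⟨g, hg⟩ := hf.four
    omega
  · intro b hb s v hv
    obtain ⟨-, -, -, hL4, hL5, -⟩ := hL k t b hb
    obtain ⟨l, hl⟩ : ∃ l : ℂ, l = v - (s : ℂ) * v0 k t f := ⟨_, rfl⟩
    have hlL : l ∈ Lam b := by
      rw [hl]
      exact hv
    obtain ⟨j1, hj1⟩ := hL4 l hlL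
    obtain ⟨j2, hj2⟩ := hL5 _ (hαL b) l hlL
    have hve : v = (s : ℂ) * v0 k t f + l := by
      rw [hl]
      ring
    have hA := V0_al (k := k) (t := t) f
    have hvre : v.re = s * ((toC (al0 k t f)).re / (3 * f)) + l.re := by
      rw [hve, Complex.add_re, ← Complex.ofReal_intCast, Complex.re_ofReal_mul, hre]
    have hvim : v.im = s * ((toC (al0 k t f)).im / (3 * f)) + l.im := by
      rw [hve, Complex.add_im, ← Complex.ofReal_intCast, Complex.im_ofReal_mul, him]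
    rw [V0_nsq] at hj1
    rw [V0_nsq, V0_nsq, V0_nsq, Complex.add_re, Complex.add_im] at hj2
    have key : 3 * (f : ℝ) ^ 2 * NI b * ‖v‖ ^ 2 =
        (((NI b : ℤ) * s ^ 2 * (3 + t * f + k * f ^ 2) + f * s * j2 + 3 * f ^ 2 * j1 : ℤ) : ℝ) := by
      rw [V0_nsq, hvre, hvim]
      push_cast
      have e : 3 * (f : ℝ) ^ 2 * NI b * ((s * ((toC (al0 k t f)).re / (3 * f)) + l.re) ^ 2 +
          (s * ((toC (al0 k t f)).im / (3 * f)) + l.im) ^ 2) =
          NI b * s ^ 2 * ((toC (al0 k t f)).re ^ 2 + (toC (al0 k t f)).im ^ 2) / 3 +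
          f * s * (NI b * (2 * ((toC (al0 k t f)).re * l.re + (toC (al0 k t f)).im * l.im))) +
          3 * f ^ 2 * (NI b * (l.re ^ 2 + l.im ^ 2)) := by
        field_simp
        ring
      rw [e, hA, hj1]
      linear_combination (f : ℝ) * s * hj2
    have hnn : (0 : ℝ) ≤ 3 * (f : ℝ) ^ 2 * NI b * ‖v‖ ^ 2 := by positivity
    rw [key] at hnn ⊢
    have hnn' : (0 : ℤ) ≤ (NI b : ℤ) * s ^ 2 * (3 + t * f + k * f ^ 2) + f * s * j2 + 3 * f ^ 2 * j1 := by
      exact_mod_cast hnn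
    obtain ⟨n, hn⟩ := Int.eq_ofNat_of_zero_le hnn'
    exact ⟨n, by rw [hn]; push_cast; rfl⟩
  · intro b hb n' x hx l hl
    obtain ⟨-, -, -, hL4, hL5, -⟩ := hL k t b hb
    obtain ⟨μ, hμ⟩ : ∃ μ : ℂ, μ = x - v0 k t f := ⟨_, rfl⟩
    have hμL : μ ∈ Lam b := by
      rw [hμ]
      exact hx
    obtain ⟨j1, hj1⟩ := hL4 l hl
    obtain ⟨j2, hj2⟩ := hL5 _ (hαL b) l hl
    obtain ⟨j3, hj3⟩ := hL5 μ hμL l hl
    have hxe : x = v0 k t f + μ := by
      rw [hμ]
      ring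
    have hxre : x.re = (toC (al0 k t f)).re / (3 * f) + μ.re := by
      rw [hxe, Complex.add_re, hre]
    have hxim : x.im = (toC (al0 k t f)).im / (3 * f) + μ.im := by
      rw [hxe, Complex.add_im, him]
    have hyre : (x + n' * l).re = x.re + n' * l.re := by
      rw [Complex.add_re, ← Complex.ofReal_natCast, Complex.re_ofReal_mul]
    have hyim : (x + n' * l).im = x.im + n' * l.im := by
      rw [Complex.add_im, ← Complex.ofReal_natCast, Complex.im_ofReal_mul]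
    rw [V0_nsq] at hj1
    rw [V0_nsq, V0_nsq, V0_nsq, Complex.add_re, Complex.add_im] at hj2 hj3
    refine ⟨f * j2 + 3 * f ^ 2 * j3 + n' * (3 * f ^ 2 * j1), ?_⟩
    rw [V0_nsq, V0_nsq, hyre, hyim, hxre, hxim]
    push_cast
    have e : 3 * (f : ℝ) ^ 2 * NI b * (((toC (al0 k t f)).re / (3 * f) + μ.re + n' * l.re) ^ 2 +
          ((toC (al0 k t f)).im / (3 * f) + μ.im + n' * l.im) ^ 2) -
        3 * (f : ℝ) ^ 2 * NI b * (((toC (al0 k t f)).re / (3 * f) + μ.re) ^ 2 +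
          ((toC (al0 k t f)).im / (3 * f) + μ.im) ^ 2) =
        n' * (f * (NI b * (2 * ((toC (al0 k t f)).re * l.re + (toC (al0 k t f)).im * l.im))) +
          3 * f ^ 2 * (NI b * (2 * (μ.re * l.re + μ.im * l.im))) +
          n' * (3 * f ^ 2 * (NI b * (l.re ^ 2 + l.im ^ 2)))) := by
      field_simp
      ring
    rw [e, hj1]
    linear_combination (n' : ℝ) * f * hj2 + (n' : ℝ) * 3 * f ^ 2 * hj3

end Pool.Agent.DT.C
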