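import Pool.Agent.Lib.DT.C.Spec

set_option autoImplicit false

/-!
# THEOREM DT (MP_d0239a_nt), Part C: the values `hS`
-/

open Filter Topology
open scoped Pointwise

noncomputable section

namespace Pool.Agent.DT.C

open Pool.Agent.MuZ Pool.Agent.FW NumberField
open Pool.Agent.DI (io ofC io_inj exists_io io_ofC ofC_io VP MP UP TP ex)

private theorem Val_lim (M : ℕ) (hM : 0 < M) (F : ℂ → ℂ) (A B C D : ℤ) (k0 : ℂ) (K : ℝ)
    (hb : ∀ z : ℂ, 1 ≤ z.im → ‖F (mob A B C D z) - k0‖ ≤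
      K * Real.exp (-2 * Real.pi * z.im / M))
    (w : ℝ → ℂ) (hw : Tendsto (fun y => (w y).im) (𝓝[>] (0 : ℝ)) atTop) :
    Tendsto (fun y => F (mob A B C D (w y))) (𝓝[>] (0 : ℝ)) (𝓝 k0) := by
  rw [tendsto_iff_norm_sub_tendsto_zero]
  have hpos : (0 : ℝ) < (M : ℝ) := by exact_mod_cast hM
  have h1 : Tendsto (fun y => K * Real.exp (-2 * Real.pi * (w y).im / (M : ℝ)))
      (𝓝[>] (0 : ℝ)) (𝓝 (K * 0)) := by
    refine Tendsto.const_mul K (Real.tendsto_exp_atBot.comp ?_)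
    have h2 : Tendsto (fun y => (2 * Real.pi / (M : ℝ)) * (w y).im) (𝓝[>] (0 : ℝ)) atTop :=
      Tendsto.const_mul_atTop (div_pos Real.two_pi_pos hpos) hw
    have h3 := tendsto_neg_atTop_atBot.comp h2
    refine h3.congr fun y => ?_
    simp only [Function.comp]
    ring
  rw [mul_zero] at h1
  refine squeeze_zero' (Eventually.of_forall fun y => norm_nonneg _) ?_ h1
  filter_upwards [hw.eventually_ge_atTop 1] with y hy
  exact hb _ hy

/-- the point `γ⁻¹ (A / C + i y)` -/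
private def Val_w (C D : ℤ) (y : ℝ) : ℂ :=
  ((-(D : ℝ) / C : ℝ) : ℂ) + ((((C : ℝ) ^ 2)⁻¹ * y⁻¹ : ℝ) : ℂ) * Complex.I

private theorem Val_w_im (C D : ℤ) (y : ℝ) : (Val_w C D y).im = ((C : ℝ) ^ 2)⁻¹ * y⁻¹ := by
  unfold Val_w
  rw [Complex.add_im, Complex.ofReal_im, Complex.im_ofReal_mul, Complex.I_im, mul_one, zero_add]

private theorem Val_w_tendsto (C D : ℤ) (hC : C ≠ 0) :
    Tendsto (fun y => (Val_w C D y).im) (𝓝[>] (0 : ℝ)) atTop := by
  simp only [Val_w_im]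
  refine Tendsto.const_mul_atTop ?_ tendsto_inv_nhdsGT_zero
  have : (C : ℝ) ≠ 0 := by exact_mod_cast hC
  positivity

private theorem Val_mob (A B C D : ℤ) (hC : C ≠ 0) (hd : A * D - B * C = 1) (y : ℝ) (hy : 0 < y) :
    mob A B C D (Val_w C D y) = ((A : ℚ) / C : ℚ) + y * Complex.I := by
  have hC' : (C : ℂ) ≠ 0 := by exact_mod_cast hC
  have hy' : (y : ℂ) ≠ 0 := by exact_mod_cast hy.ne'
  have hd' : (A : ℂ) * D - B * C = 1 := by exact_mod_cast hd
  have hI : Complex.I * Complex.I = -1 := Complex.I_mul_I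
  have h1 : (C : ℂ) * Val_w C D y + D = Complex.I / (C * y) := by
    unfold Val_w
    push_cast
    field_simp
    ring
  have h2 : (A : ℂ) * Val_w C D y + B = -1 / C + A * Complex.I / (C ^ 2 * y) := by
    unfold Val_w
    push_cast
    field_simp
    linear_combination (-(y : ℂ)) * C * hd'
  unfold mob
  rw [h1, h2]
  have h3 : Complex.I / (C * y) ≠ 0 := div_ne_zero Complex.I_ne_zero (mul_ne_zero hC' hy')
  rw [div_eq_iff h3]
  push_cast
  field_simp
  linear_combination (-(y : ℂ)) * C * hI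

private theorem Val_vert (M : ℕ) (hM : 0 < M) (F : ℂ → ℂ) (A B C D : ℤ) (hC : C ≠ 0)
    (hd : A * D - B * C = 1) (k0 : ℂ) (K : ℝ)
    (hb : ∀ z : ℂ, 1 ≤ z.im → ‖F (mob A B C D z) - k0‖ ≤
      K * Real.exp (-2 * Real.pi * z.im / M)) :
    Tendsto (fun y : ℝ => F (((A : ℚ) / C : ℚ) + y * Complex.I)) (𝓝[>] (0 : ℝ)) (𝓝 k0) := by
  refine (Val_lim M hM F A B C D k0 K hb _ (Val_w_tendsto C D hC)).congr' ?_
  filter_upwards [self_mem_nhdsWithin] with y hy
  rw [Val_mob A B C D hC hd y hy]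

private theorem Val_bez (r : ℚ) : ∃ B D : ℤ, r.num * D - B * (r.den : ℤ) = 1 := by
  have h : IsCoprime r.num (r.den : ℤ) := by
    rw [Int.isCoprime_iff_gcd_eq_one]
    simpa [Int.gcd] using r.reduced
  obtain ⟨u, v, h⟩ := h
  exact ⟨-v, u, by linarith⟩

/-- The bound at the cusp of `γ`. -/
private theorem Val_bound {k t : ℕ} [SqT k t] (hC : S_CuS) (hE : S_Exp) {f M : ℕ}
    {m b : Ideal (OO k t)} (hm : FM f m) (hb : FB f b) (hL : IsLv f m {b} M) (s a b' c d : ℤ)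
    (hd : a * d - b' * c = 1) : ∃ (k0 : ℂ) (K : ℝ), ∀ z : ℂ, 1 ≤ z.im →
      ‖ThS f m b s (mob a b' c d z) - k0‖ ≤
        K * Real.exp (-2 * Real.pi * z.im / ((27 * M : ℕ) : ℝ)) := by
  obtain ⟨k0, h0⟩ := hC k t f M m b hm hb hL a b' c d hd s
  have hM : 0 < 27 * M := Nat.mul_pos (by norm_num) hL.pos
  obtain ⟨K, hK⟩ := hE.2.2.2 (27 * M) _ k0 hM h0
  exact ⟨k0, K, hK⟩

private theorem Val_one {k t : ℕ} [SqT k t] (hC : S_CuS) (hE : S_Exp) {f M : ℕ}
    {m b : Ideal (OO k t)} (hm : FM f m) (hb : FB f b) (hL : IsLv f m {b} M) (s : ℤ) (r : ℚ) :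
    Tendsto (fun y : ℝ => ThS f m b s (r + y * Complex.I)) (𝓝[>] 0) (𝓝 (hS f m b s r)) := by
  obtain ⟨B, D, hd⟩ := Val_bez r
  obtain ⟨k0, K, hK⟩ := Val_bound hC hE hm hb hL s r.num B r.den D hd
  have hM : 0 < 27 * M := Nat.mul_pos (by norm_num) hL.pos
  have h0 : ((r.den : ℤ)) ≠ 0 := by exact_mod_cast r.den_ne_zero
  have h1 := Val_vert (27 * M) hM (ThS f m b s) r.num B r.den D h0 hd k0 K hK
  have h2 : ((r.num : ℚ) / ((r.den : ℤ) : ℚ)) = r := by
    rw [Int.cast_natCast]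
    exact Rat.num_div_den r
  rw [h2] at h1
  have h3 : hS f m b s r = k0 := h1.limUnder_eq
  rw [h3]
  exact h1

private theorem Val_two {k t : ℕ} [SqT k t] (hT : S_TrS) (hC : S_CuS) (hE : S_Exp) {f M : ℕ}
    {m b : Ideal (OO k t)} (hm : FM f m) (hb : FB f b) (hL : IsLv f m {b} M)
    (a b' c d : ℤ) (hG : G0 (3 * M) a b' c d) (s : ℤ) (r : ℚ) (hr : (c : ℚ) * r + d ≠ 0) :
    hS f m b s (mobQ a b' c d r) =
      eps k t d * hS f m b (a * s) r + PhS f m b s a b' c d := by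
  have hM : 0 < 27 * M := Nat.mul_pos (by norm_num) hL.pos
  obtain ⟨B, D, hd⟩ := Val_bez r
  have h0 : ((r.den : ℤ)) ≠ 0 := by exact_mod_cast r.den_ne_zero
  have hdq : ((r.den : ℤ) : ℚ) ≠ 0 := by exact_mod_cast h0
  have hrq : ((r.num : ℚ) / ((r.den : ℤ) : ℚ)) = r := by
    rw [Int.cast_natCast]
    exact Rat.num_div_den r
  -- the product
  have hdet' : (a * r.num + b' * r.den) * (c * B + d * D) -
      (a * B + b' * D) * (c * r.num + d * r.den) = 1 := by
    linear_combination (r.num * D - B * (r.den : ℤ)) * hG.1 + hd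
  have hC0 : c * r.num + d * r.den ≠ 0 := by
    intro h
    apply hr
    have h1 : (c : ℚ) * r.num + d * ((r.den : ℤ) : ℚ) = 0 := by exact_mod_cast h
    have h2 : (r.num : ℚ) = r * ((r.den : ℤ) : ℚ) := by
      exact (div_eq_iff hdq).1 hrq
    rw [h2] at h1
    have h3 : ((c : ℚ) * r + d) * ((r.den : ℤ) : ℚ) = 0 := by linear_combination h1
    exact (mul_eq_zero.1 h3).resolve_right hdq
  obtain ⟨k0, K, hK⟩ := Val_bound hC hE hm hb hL s (a * r.num + b' * r.den) (a * B + b' * D)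
    (c * r.num + d * r.den) (c * B + d * D) hdet'
  -- the value at `g r`
  have h1 : hS f m b s (((a * r.num + b' * r.den : ℤ) : ℚ) / ((c * r.num + d * r.den : ℤ) : ℚ)) = k0 :=
    (Val_vert (27 * M) hM (ThS f m b s) _ _ _ _ hC0 hdet' k0 K hK).limUnder_eq
  have h2 : (((a * r.num + b' * r.den : ℤ) : ℚ) / ((c * r.num + d * r.den : ℤ) : ℚ)) =
      mobQ a b' c d r := by
    have hn : (r.num : ℚ) = r * ((r.den : ℤ) : ℚ) := by
      exact (div_eq_iff hdq).1 hrq
    unfold mobQ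
    rw [Int.cast_add, Int.cast_add, Int.cast_mul, Int.cast_mul, Int.cast_mul, Int.cast_mul, hn]
    rw [show (a : ℚ) * (r * ((r.den : ℤ) : ℚ)) + b' * ((r.den : ℤ) : ℚ) =
      (a * r + b') * ((r.den : ℤ) : ℚ) by ring,
      show (c : ℚ) * (r * ((r.den : ℤ) : ℚ)) + d * ((r.den : ℤ) : ℚ) =
      (c * r + d) * ((r.den : ℤ) : ℚ) by ring, mul_div_mul_right _ _ hdq]
  rw [h2] at h1
  rw [h1]
  -- the limit of `ThS (g (r + i y))`
  have h3 := Val_lim (27 * M) hM (ThS f m b s) _ _ _ _ k0 K hK _ (Val_w_tendsto r.den D h0)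
  have h4 : Tendsto (fun y : ℝ => eps k t d * ThS f m b (a * s) (r + y * Complex.I) +
      PhS f m b s a b' c d) (𝓝[>] (0 : ℝ)) (𝓝 k0) := by
    refine h3.congr' ?_
    filter_upwards [self_mem_nhdsWithin] with y hy
    have hy' : (0 : ℝ) < y := hy
    have hz : (0 : ℝ) < ((r : ℂ) + y * Complex.I).im := by
      simpa using hy'
    rw [← hT k t f M m b hm hb hL a b' c d hG s _ hz]
    congr 1
    have h5 := Val_mob r.num B r.den D h0 hd y hy'
    rw [hrq] at h5
    rw [← h5]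
    have hw : (Val_w (r.den : ℤ) D y).im ≠ 0 := by
      rw [Val_w_im]
      have : ((r.den : ℤ) : ℝ) ≠ 0 := by exact_mod_cast h0
      positivity
    have h6 : ((r.den : ℤ) : ℂ) * Val_w (r.den : ℤ) D y + D ≠ 0 := by
      intro h
      have h7 := congrArg Complex.im h
      rw [Complex.add_im, Complex.intCast_im, add_zero, ← Complex.ofReal_intCast,
        Complex.im_ofReal_mul, Complex.zero_im] at h7
      rcases mul_eq_zero.1 h7 with h8 | h8
      · exact h0 (by exact_mod_cast h8)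
      · exact hw h8
    unfold mob
    push_cast
    push_cast at h6
    generalize Val_w (r.den : ℤ) D y = w at *
    rw [show ((a : ℂ) * r.num + b' * r.den) * w + (a * B + b' * D) =
        (a * (((r.num : ℂ) * w + B) / ((r.den : ℂ) * w + D)) + b') * ((r.den : ℂ) * w + D) by
          field_simp; ring,
      show ((c : ℂ) * r.num + d * r.den) * w + (c * B + d * D) =
        (c * (((r.num : ℂ) * w + B) / ((r.den : ℂ) * w + D)) + d) * ((r.den : ℂ) * w + D) by
          field_simp; ring, mul_div_mul_right _ _ h6]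
  have h5 : Tendsto (fun y : ℝ => eps k t d * ThS f m b (a * s) (r + y * Complex.I) +
      PhS f m b s a b' c d) (𝓝[>] (0 : ℝ))
      (𝓝 (eps k t d * hS f m b (a * s) r + PhS f m b s a b' c d)) :=
    ((Val_one hC hE hm hb hL (a * s) r).const_mul _).add_const _
  exact tendsto_nhds_unique h4 h5

theorem tVal (hT : S_TrS) (hC : S_CuS) (hE : S_Exp) : S_Val := by
  intro k t _ f M m b hm hb hL
  refine ⟨fun s r => Val_one hC hE hm hb hL s r, ?_⟩
  intro a b' c d hG s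
  refine ⟨fun r hr => Val_two hT hC hE hm hb hL a b' c d hG s r hr, ?_⟩
  intro hd
  have h1 := Val_two hT hC hE hm hb hL a b' c d hG s 0 (by
    rw [mul_zero, zero_add]
    exact_mod_cast hd)
  have h2 : mobQ a b' c d 0 = (b' / d : ℚ) := by
    unfold mobQ
    rw [mul_zero, zero_add, mul_zero, zero_add]
  rw [h2] at h1
  rw [h1]
  ring

end Pool.Agent.DT.C
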