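import Pool.Agent.Lib.DT.C.Spec

/-!
# THEOREM DT, part C: the width of an expansion

Author helper27.
-/

set_option autoImplicit false

open Filter Topology
open scoped Pointwise

noncomputable section

namespace Pool.Agent.DT.C

open Pool.Agent.MuZ Pool.Agent.FW NumberField
open Pool.Agent.DI (io ofC io_inj exists_io io_ofC ofC_io VP MP UP TP ex)

private theorem Wid_add (x y : ℂ) : ex (x + y) = ex x * ex y := by
  unfold ex
  rw [← Complex.exp_add]
  congr 1
  ring

private theorem Wid_pow (x : ℂ) (j : ℕ) : ex (j * x) = ex x ^ j := by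
  unfold ex
  rw [← Complex.exp_nat_mul]
  congr 1
  ring

private theorem Wid_int (n : ℤ) : ex (n : ℂ) = 1 := by
  unfold ex
  rw [Complex.exp_eq_one_iff]
  exact ⟨n, by ring⟩

private theorem Wid_ne {n r : ℕ} (hr : 0 < r) (h : ex ((n : ℂ) / r) = 1) : r ∣ n := by
  unfold ex at h
  rw [Complex.exp_eq_one_iff] at h
  obtain ⟨m, hm⟩ := h
  have hrC : (r : ℂ) ≠ 0 := by exact_mod_cast hr.ne'
  have hI : (2 * (Real.pi : ℂ) * Complex.I) ≠ 0 := Complex.two_pi_I_ne_zero
  have h1 : (n : ℂ) / r = m := by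
    apply mul_left_cancel₀ hI
    rw [hm]
    ring
  rw [div_eq_iff hrC] at h1
  have h2 : (n : ℤ) = m * r := by exact_mod_cast h1
  have h3 : (r : ℤ) ∣ (n : ℤ) := ⟨m, by rw [h2]; ring⟩
  exact_mod_cast h3

private theorem Wid_geo {n r : ℕ} (hr : 0 < r) :
    ∑ j ∈ Finset.range r, ex ((n : ℂ) / r) ^ j = if r ∣ n then (r : ℂ) else 0 := by
  have hrC : (r : ℂ) ≠ 0 := by exact_mod_cast hr.ne'
  split_ifs with h
  · obtain ⟨c, rfl⟩ := h
    have h1 : (((r * c : ℕ) : ℂ)) / r = ((c : ℤ) : ℂ) := by
      push_cast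
      field_simp
    rw [h1, Wid_int]
    simp
  · have h1 : ex ((n : ℂ) / r) ≠ 1 := fun h2 => h (Wid_ne hr h2)
    have h2 : ex ((n : ℂ) / r) ^ r = 1 := by
      rw [← Wid_pow, mul_div_cancel₀ _ hrC]
      exact_mod_cast Wid_int (n : ℤ)
    rw [geom_sum_eq h1, h2, sub_self, zero_div]

theorem tWid (hE : S_Exp) : S_Wid := by
  classical
  intro M r G k0 C hM hr h hG
  have hW : 0 < M * r := Nat.mul_pos hM hr
  have hMC : (M : ℂ) ≠ 0 := by exact_mod_cast hM.ne'
  have hrC : (r : ℂ) ≠ 0 := by exact_mod_cast hr.ne'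
  have hC : C = 0 := by
    obtain ⟨C1, h1⟩ := hE.2.2.2 (M * r) G k0 hW h
    have hWR : (0 : ℝ) < (M * r : ℕ) := by exact_mod_cast hW
    have h2 : ∀ y : ℝ, 1 ≤ y → ‖C‖ ≤ 2 * C1 * Real.exp (-2 * Real.pi * y / (M * r : ℕ)) := by
      intro y hy
      have e1 : (((y : ℂ) * Complex.I)).im = y := by simp
      have e2 : (((y : ℂ) * Complex.I + M)).im = y := by simp
      have h3 := h1 ((y : ℂ) * Complex.I) (by rw [e1]; exact hy)
      have h4 := h1 ((y : ℂ) * Complex.I + M) (by rw [e2]; exact hy)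
      rw [e1] at h3
      rw [e2] at h4
      have h5 := hG ((y : ℂ) * Complex.I) (by rw [e1]; linarith)
      have h6 : C = (G ((y : ℂ) * Complex.I + M) - k0) - (G ((y : ℂ) * Complex.I) - k0) := by
        rw [h5]
        ring
      rw [h6]
      refine (norm_sub_le _ _).trans ?_
      linarith
    have h3 : Tendsto (fun y : ℝ => 2 * C1 * Real.exp (-2 * Real.pi * y / (M * r : ℕ))) atTop
        (𝓝 (2 * C1 * 0)) := by
      refine Tendsto.const_mul _ ?_
      refine Real.tendsto_exp_atBot.comp ?_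
      have h4 : Tendsto (fun y : ℝ => (-2 * Real.pi / (M * r : ℕ)) * y) atTop atBot := by
        refine tendsto_id.const_mul_atTop_of_neg ?_
        exact div_neg_of_neg_of_pos (by nlinarith [Real.pi_pos]) hWR
      refine h4.congr ?_
      intro y
      ring
    rw [mul_zero] at h3
    have h4 : ‖C‖ ≤ 0 := by
      refine ge_of_tendsto h3 ?_
      filter_upwards [eventually_ge_atTop (1 : ℝ)] with y hy
      exact h2 y hy
    exact norm_le_zero_iff.1 h4
  have hG' : ∀ (z : ℂ), 0 < z.im → ∀ j : ℕ, G (z + j * M) = G z := by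
    intro z hz j
    induction j with
    | zero => simp
    | succ j ih =>
      have e1 : (z + ((j + 1 : ℕ) : ℂ) * M) = (z + j * M) + M := by
        push_cast
        ring
      have e2 : (z + (j : ℂ) * M).im = z.im := by simp
      rw [e1, hG _ (by rw [e2]; exact hz), hC, add_zero, ih]
  obtain ⟨e, C', he0, heC, hs⟩ := h
  have hC' : 0 ≤ C' := by
    have h0 := (norm_nonneg _).trans (heC 0)
    simpa using h0
  refine ⟨fun m => e (r * m), C' * r ^ 2, by simpa using he0, ?_, ?_⟩
  · intro m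
    refine (heC _).trans ?_
    have h1 : (1 : ℝ) ≤ r := by exact_mod_cast hr
    have h2 : (((r * m : ℕ) : ℝ)) + 1 ≤ r * (m + 1) := by
      push_cast
      nlinarith
    have h3 : (0 : ℝ) ≤ ((r * m : ℕ) : ℝ) + 1 := by positivity
    have h4 : ((((r * m : ℕ) : ℝ)) + 1) ^ 2 ≤ (r * (m + 1)) ^ 2 := by gcongr
    have h5 := mul_le_mul_of_nonneg_left h4 hC'
    refine h5.trans (le_of_eq ?_)
    ring
  · intro z hz
    have h1 : HasSum (fun n : ℕ => ∑ j ∈ Finset.range r,
        e n * ex (n * (z + j * M) / (M * r : ℕ))) (∑ j ∈ Finset.range r, (G z - k0)) := by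
      refine hasSum_sum fun j _ => ?_
      have e2 : (z + (j : ℂ) * M).im = z.im := by simp
      have h2 := hs (z + j * M) (by rw [e2]; exact hz)
      rwa [hG' z hz j] at h2
    have h2 : ∀ n : ℕ, ∑ j ∈ Finset.range r, e n * ex (n * (z + j * M) / (M * r : ℕ)) =
        (r : ℂ) * (if r ∣ n then e n * ex (n * z / (M * r : ℕ)) else 0) := by
      intro n
      have h3 : ∀ j : ℕ, e n * ex (n * (z + j * M) / (M * r : ℕ)) =
          e n * ex (n * z / (M * r : ℕ)) * ex ((n : ℂ) / r) ^ j := by
        intro j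
        rw [← Wid_pow, mul_assoc, ← Wid_add]
        congr 2
        push_cast
        field_simp
      simp only [h3]
      rw [← Finset.mul_sum, Wid_geo hr]
      split_ifs
      · ring
      · ring
    have h3 : HasSum (fun n : ℕ => if r ∣ n then e n * ex (n * z / (M * r : ℕ)) else 0)
        (G z - k0) := by
      have h4 := h1.mul_left ((r : ℂ)⁻¹)
      simp only [h2, Finset.sum_const, Finset.card_range, nsmul_eq_mul] at h4
      simpa only [inv_mul_cancel_left₀ hrC] using h4
    have hinj : Function.Injective (fun n : ℕ => r * n) := fun a b hab =>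
      Nat.eq_of_mul_eq_mul_left hr hab
    have h4 := (hinj.hasSum_iff (f := fun n : ℕ => if r ∣ n then
      e n * ex (n * z / (M * r : ℕ)) else 0) (a := G z - k0) ?_).2 h3
    · have e3 : ((fun n : ℕ => if r ∣ n then e n * ex (n * z / (M * r : ℕ)) else 0) ∘
          fun n : ℕ => r * n) = fun n : ℕ => e (r * n) * ex (n * z / M) := by
        funext n
        simp only [Function.comp_apply, dvd_mul_right, if_true]
        congr 2
        push_cast
        field_simp
      rw [e3] at h4
      exact h4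
    · intro x hx
      have hd : ¬ r ∣ x := fun ⟨c, hc⟩ => hx ⟨c, hc.symm⟩
      simp only [if_neg hd]

end Pool.Agent.DT.C
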