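import Pool.Agent.Lib.DT.O.All
import Pool.Agent.Lib.DK.C.Poi
import Pool.Agent.Lib.DK.C.Exp
import Pool.Agent.Lib.DK.C.Tt
import Pool.Agent.Lib.DT.C.Bas
import Pool.Agent.Lib.DT.C.Sum
import Pool.Agent.Lib.DT.C.Two
import Pool.Agent.Lib.DT.C.Res
import Pool.Agent.Lib.DT.C.Ech
import Pool.Agent.Lib.DT.C.Gau
import Pool.Agent.Lib.DT.C.Uni
import Pool.Agent.Lib.DT.C.Gen
import Pool.Agent.Lib.DT.C.Gam
import Pool.Agent.Lib.DT.C.Kap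
import Pool.Agent.Lib.DT.C.EpsA
import Pool.Agent.Lib.DT.C.Eps
import Pool.Agent.Lib.DT.C.Der
import Pool.Agent.Lib.DT.C.Phi
import Pool.Agent.Lib.DT.C.Cus
import Pool.Agent.Lib.DT.C.Lt
import Pool.Agent.Lib.DT.C.V0
import Pool.Agent.Lib.DT.C.Red
import Pool.Agent.Lib.DT.C.Tct
import Pool.Agent.Lib.DT.C.Tcc
import Pool.Agent.Lib.DT.C.Wid
import Pool.Agent.Lib.DT.C.TrS
import Pool.Agent.Lib.DT.C.CuS
import Pool.Agent.Lib.DT.C.C3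
import Pool.Agent.Lib.DT.C.Val
import Pool.Agent.Lib.DT.C.Hom
import Pool.Agent.Lib.DT.C.Den
import Pool.Agent.Lib.DT.C.C1
import Pool.Agent.Lib.DT.C.C2
import Pool.Agent.Lib.DT.C.Spl
import Pool.Agent.Lib.DT.C.C4a
import Pool.Agent.Lib.DT.C.C4
import Pool.Agent.Lib.DT.C.Di1
import Pool.Agent.Lib.DT.C.Dis
import Pool.Agent.Lib.DT.C.C5
import Pool.Agent.Lib.DT.C.C6
import Pool.Agent.Lib.DT.C.C7a
import Pool.Agent.Lib.DT.C.C7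
import Pool.Agent.Lib.DT.CV.C8
import Pool.Agent.Lib.DT.CV.V

/-!
# Theorem DT (`p = 3`), part C and the input of part V: assembly

`aC1 : S_C1`, ..., `aC9 : S_C9`, `aV : S_V` (statements of `DT/IfaceC.lean`), from the statements
`S_B10`, `S_B12`, `S_R5`, `S_D9`, `S_E1`, `S_E6`, `S_E10` of the other parts.
-/

set_option autoImplicit false

noncomputable section

namespace Pool.Agent.DT.C

open Pool.Agent.DT

theorem aBas : S_Bas := tBas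
theorem aSum : S_Sum := tSum aBas
theorem aPoi : S_Poi := Pool.Agent.DK.C.tPoi
theorem aTwo : S_Two := tTwo aPoi aBas aSum
theorem aRes : S_Res := tRes
theorem aEch : S_Ech := tEch
theorem aGau : S_Gau := tGau
theorem aUni : S_Uni := tUni aBas aSum
theorem aGen : S_Gen := tGen aTwo aRes aSum
theorem aGam : S_Gam := tGam aBas aRes
theorem aKap : S_Kap := tKap aGen aGam aSum
theorem aEpsA : S_EpsA := tEpsA aGen aGau aUni aRes aSum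
theorem aEps : S_Eps := tEps aKap aEpsA aEch
theorem aDer : S_Der := tDer aBas aSum
theorem aPhi : S_Phi := tPhi aEps aDer
theorem aCus : S_Cus := tCus aGen aDer aSum aBas
theorem aExp : S_Exp := Pool.Agent.DK.C.tExp
theorem aTt : S_Tt := Pool.Agent.DK.C.tTt
theorem aLt : S_Lt := tLt aBas aSum aO2 aO3 aL0 aL1
theorem aV0 : S_V0 := tV0 aLt aO2 aO3 aO4 aO6
theorem aRed : S_Red := tRed aLt aTt aBas aDer aV0 aO2 aO3
theorem aTct : S_Tct := tTct aPhi aRed aO2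
theorem aTcc : S_Tcc := tTcc aCus aExp aRed aO2
theorem aWid : S_Wid := tWid aExp
theorem aTrS : S_TrS := tTrS aTct aO2
theorem aCuS : S_CuS := tCuS aTcc aExp aO2
theorem aC3 : S_C3 := tC3 aCuS aTrS aRed aEch aWid aExp aO2
theorem aVal : S_Val := tVal aTrS aCuS aExp
theorem aDen : S_Den := tDen
theorem aSpl : S_Spl := tSpl aLt aTt aRed aV0
theorem aDi1 : S_Di1 := tDi1 aLt aV0 aO2 aO3 aO4 aO6
theorem aDis : S_Dis := tDis aDi1 aLt aTt aRed aV0 aO2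
theorem aC7a : S_C7a := tC7a aLt aV0 aBas aO2 aO6
theorem aC7 : S_C7 := tC7 aC7a aLt aTt aRed aDer aV0 aO2

theorem aHom (hB12 : S_B12) (hR5 : S_R5) : S_Hom := tHom aRed aTt aV0 aO2 aO4 aO6 hB12 hR5
theorem aC4a (hB10 : S_B10) : S_C4a := tC4a aSpl aV0 aO2 aO6 aL5 hB10
theorem aC4 (hB10 : S_B10) (hR5 : S_R5) : S_C4 := tC4 (aC4a hB10) aL3 hR5 aO6
theorem aC1 (hB10 : S_B10) (hB12 : S_B12) (hR5 : S_R5) : S_C1 :=
  tC1 aVal (aHom hB12 hR5) aDen (aC4 hB10 hR5) aO2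
theorem aC2 (hB10 : S_B10) (hR5 : S_R5) : S_C2 :=
  tC2 aTrS aVal aRed aEch aDen (aC4 hB10 hR5) aO2
theorem aC5 (hB10 : S_B10) (hR5 : S_R5) : S_C5 :=
  tC5 aDis aDi1 aRed (aC4 hB10 hR5) hR5 aO2 aO6
theorem aC6 (hB12 : S_B12) (hR5 : S_R5) : S_C6 := tC6 (aHom hB12 hR5) aRed aO6

end Pool.Agent.DT.C

namespace Pool.Agent.DT

theorem aC1 (hB10 : S_B10) (hB12 : S_B12) (hR5 : S_R5) : S_C1 := C.aC1 hB10 hB12 hR5
theorem aC2 (hB10 : S_B10) (hR5 : S_R5) : S_C2 := C.aC2 hB10 hR5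
theorem aC3 : S_C3 := C.aC3
theorem aC4 (hB10 : S_B10) (hR5 : S_R5) : S_C4 := C.aC4 hB10 hR5
theorem aC5 (hB10 : S_B10) (hR5 : S_R5) : S_C5 := C.aC5 hB10 hR5
theorem aC6 (hB12 : S_B12) (hR5 : S_R5) : S_C6 := C.aC6 hB12 hR5
theorem aC7 : S_C7 := C.aC7
theorem aC8 (hB10 : S_B10) (hB12 : S_B12) (hR5 : S_R5) (hE1 : S_E1) (hE6 : S_E6)
    (hE10 : S_E10) : S_C8 :=
  sC8 aO2 aO3 aO4 aO6 aO7 aL3 aL5 (aC4 hB10 hR5) (aC6 hB12 hR5) hE1 hE6 hE10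
theorem aC9 (hB10 : S_B10) (hB12 : S_B12) (hR5 : S_R5) (hD9 : S_D9) : S_C9 :=
  sC9 aO3 aO4 aO6 aO7 aO8 aL3 hB12 (aC1 hB10 hB12 hR5) (aC4 hB10 hR5) (aC5 hB10 hR5)
    (aC6 hB12 hR5) hR5 hD9
theorem aV (hB10 : S_B10) (hB12 : S_B12) (hR5 : S_R5) (hD9 : S_D9) : S_V :=
  sV aO4 aO6 aO7 hB12 (aC1 hB10 hB12 hR5) (aC5 hB10 hR5) (aC6 hB12 hR5)
    (aC9 hB10 hB12 hR5 hD9) hR5 hD9

end Pool.Agent.DT
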