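import Pool.Agent.Lib.DT.C.Spec

/-!
# THEOREM DT, Part C, module C3: expansions at all cusps
-/

set_option autoImplicit false

noncomputable section

namespace Pool.Agent.DT.C

open Pool.Agent.DI (ex)

private theorem C3_den {c d : ℤ} (h : c ≠ 0 ∨ d ≠ 0) {z : ℂ} (hz : 0 < z.im) :
    (c : ℂ) * z + d ≠ 0 := by
  intro h0
  have h1 := congrArg Complex.im h0
  have h2 := congrArg Complex.re h0
  simp only [Complex.add_im, Complex.mul_im, Complex.intCast_re, Complex.intCast_im, zero_mul,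
    add_zero, Complex.zero_im] at h1
  simp only [Complex.add_re, Complex.mul_re, Complex.intCast_re, Complex.intCast_im, zero_mul,
    sub_zero, Complex.zero_re] at h2
  have hc : (c : ℝ) = 0 := by
    rcases mul_eq_zero.1 h1 with h | h
    · exact h
    · exact absurd h hz.ne'
  rw [hc, zero_mul, zero_add] at h2
  rcases h with h | h
  · exact h (by exact_mod_cast hc)
  · exact h (by exact_mod_cast h2)

private theorem C3_ne {a b c d : ℤ} (h : a * d - b * c = 1) : c ≠ 0 ∨ d ≠ 0 := by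
  by_contra hn
  push Not at hn
  rw [hn.1, hn.2] at h
  simp at h

/-- The imaginary part of a Möbius transformation. -/
private theorem C3_im {a b c d : ℤ} (h : a * d - b * c = 1) {z : ℂ} (hz : 0 < z.im) :
    0 < (mob a b c d z).im := by
  have hy := C3_den (C3_ne h) hz
  have h1 : (mob a b c d z).im = z.im / Complex.normSq ((c : ℂ) * z + d) := by
    change (((a : ℂ) * z + b) / ((c : ℂ) * z + d)).im = _
    rw [Complex.div_im]
    have h2 : (a : ℝ) * d - b * c = 1 := by exact_mod_cast h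
    simp only [Complex.add_im, Complex.mul_im, Complex.add_re, Complex.mul_re, Complex.intCast_re,
      Complex.intCast_im, zero_mul, add_zero, sub_zero]
    rw [← sub_div]
    congr 1
    linear_combination z.im * h2
  rw [h1]
  exact div_pos hz (Complex.normSq_pos.2 hy)

/-- The parabolic element. -/
private theorem C3_mob {a b c d : ℤ} (h : a * d - b * c = 1) (N : ℕ) {z : ℂ} (hz : 0 < z.im) :
    mob a b c d (z + (N : ℂ)) = mob (1 - a * c * N) (a ^ 2 * N) (-(c ^ 2 * N)) (1 + a * c * N)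
      (mob a b c d z) := by
  have hy := C3_den (C3_ne h) hz
  have hz' : 0 < (z + (N : ℂ)).im := by simpa using hz
  have hy' := C3_den (C3_ne h) hz'
  have h2 : (a : ℂ) * d - b * c = 1 := by exact_mod_cast h
  change ((a : ℂ) * (z + N) + b) / ((c : ℂ) * (z + N) + d) =
    (((1 - a * c * N : ℤ) : ℂ) * (((a : ℂ) * z + b) / ((c : ℂ) * z + d)) + ((a ^ 2 * N : ℤ) : ℂ)) /
      (((-(c ^ 2 * N) : ℤ) : ℂ) * (((a : ℂ) * z + b) / ((c : ℂ) * z + d)) + ((1 + a * c * N : ℤ) : ℂ))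
  have e1 : ((1 - a * c * N : ℤ) : ℂ) * (((a : ℂ) * z + b) / ((c : ℂ) * z + d)) +
      ((a ^ 2 * N : ℤ) : ℂ) = ((a : ℂ) * (z + N) + b) / ((c : ℂ) * z + d) := by
    rw [eq_div_iff hy, add_mul, mul_assoc, div_mul_cancel₀ _ hy]
    push_cast
    linear_combination (a : ℂ) * N * h2
  have e2 : ((-(c ^ 2 * N) : ℤ) : ℂ) * (((a : ℂ) * z + b) / ((c : ℂ) * z + d)) +
      ((1 + a * c * N : ℤ) : ℂ) = ((c : ℂ) * (z + N) + d) / ((c : ℂ) * z + d) := by
    rw [eq_div_iff hy, add_mul, mul_assoc, div_mul_cancel₀ _ hy]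
    push_cast
    linear_combination (c : ℂ) * N * h2
  rw [e1, e2, div_div_div_cancel_right₀ hy]

theorem tC3 (hC : S_CuS) (hT : S_TrS) (hR : S_Red) (hc : S_Ech) (hW : S_Wid) (hE : S_Exp)
    (_h2 : S_O2) : S_C3 := by
  intro k t _ f M m b hm hb _ hM a b' c d hdet
  have hM0 : 0 < M := hM.pos
  have hf : Fok f := hm.toFok
  have hmb : m * b ≠ ⊥ := mul_ne_zero hm.ne hb.ne
  obtain ⟨k0, hk0⟩ := hC k t f M m b hm hb hM a b' c d hdet 1
  -- divisibilities
  have hDM : Dk k t * f ^ 2 ∣ M := (Dvd.intro _ rfl).trans hM.dvd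
  have h4D : (4 * Dk k t : ℤ) ∣ (M : ℤ) := by
    have h1 : 4 * Dk k t ∣ M := by
      refine Dvd.dvd.trans ?_ hDM
      obtain ⟨e, he⟩ := hf.four
      exact ⟨e * f, by rw [sq, ← mul_assoc, mul_assoc (Dk k t), mul_comm (Dk k t)]; nth_rewrite 1 [he]; ring⟩
    exact_mod_cast h1
  have h3f : (3 * f : ℤ) ∣ 3 * (M : ℤ) := by
    have h1 : f ∣ M := (Dvd.intro (Dk k t * f) (by ring)).trans hDM
    have h2 : (f : ℤ) ∣ (M : ℤ) := by exact_mod_cast h1
    exact mul_dvd_mul_left 3 h2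
  -- the element h
  have hdet' : (1 - a * c * ((3 * M : ℕ) : ℤ)) * (1 + a * c * ((3 * M : ℕ) : ℤ)) -
      a ^ 2 * ((3 * M : ℕ) : ℤ) * (-(c ^ 2 * ((3 * M : ℕ) : ℤ))) = 1 := by ring
  have hG0 : G0 (3 * M) (1 - a * c * ((3 * M : ℕ) : ℤ)) (a ^ 2 * ((3 * M : ℕ) : ℤ))
      (-(c ^ 2 * ((3 * M : ℕ) : ℤ))) (1 + a * c * ((3 * M : ℕ) : ℤ)) := by
    refine ⟨hdet', ?_⟩
    rw [dvd_neg]
    push_cast
    exact Dvd.intro_left _ rfl
  have hev : (2 : ℤ) ∣ (M : ℤ) := ((by norm_num : (2 : ℤ) ∣ 4).mul_right _).trans h4D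
  have hodd : Odd (1 + a * c * ((3 * M : ℕ) : ℤ)) := by
    obtain ⟨e, he⟩ := hev
    refine ⟨a * c * (3 * e), ?_⟩
    push_cast
    rw [he]
    ring
  have hcop : IsCoprime (1 + a * c * ((3 * M : ℕ) : ℤ)) (Dk k t : ℤ) := by
    obtain ⟨e, he⟩ := (Dvd.intro_left (4 : ℤ) rfl).trans h4D
    refine ⟨1, -(a * c * 3 * e), ?_⟩
    push_cast
    rw [he]
    ring
  have heps : eps k t (1 + a * c * ((3 * M : ℕ) : ℤ)) = 1 := by
    rw [(hc k t).2.1 _ 1 hodd odd_one hcop ?_, (hc k t).2.2.2]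
    have e1 : 1 + a * c * ((3 * M : ℕ) : ℤ) - 1 = a * c * 3 * (M : ℤ) := by push_cast; ring
    rw [e1]
    exact Dvd.dvd.mul_left h4D _
  have hs : ∀ z : ℂ, ThS f m b ((1 - a * c * ((3 * M : ℕ) : ℤ)) * 1) z = ThS f m b 1 z := by
    intro z
    have e1 : (3 * f : ℤ) ∣ (1 - a * c * ((3 * M : ℕ) : ℤ)) * 1 - 1 := by
      have e2 : (1 - a * c * ((3 * M : ℕ) : ℤ)) * 1 - 1 = -(a * c) * (3 * (M : ℤ)) := by
        push_cast
        ring
      rw [e2]
      exact Dvd.dvd.mul_left h3f _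
    unfold ThS
    rw [(hR k t f (m * b) hf hmb _).2.2.2.2.1 1 e1, (hR k t f b hf hb.ne _).2.2.2.2.1 1 e1]
  have hper : ∀ z : ℂ, 0 < z.im →
      (fun z => ThS f m b 1 (mob a b' c d z)) (z + ((3 * M : ℕ) : ℂ)) =
        (fun z => ThS f m b 1 (mob a b' c d z)) z +
          PhS f m b 1 (1 - a * c * ((3 * M : ℕ) : ℤ)) (a ^ 2 * ((3 * M : ℕ) : ℤ))
            (-(c ^ 2 * ((3 * M : ℕ) : ℤ))) (1 + a * c * ((3 * M : ℕ) : ℤ)) := by
    intro z hz
    have h1 := hT k t f M m b hm hb hM _ _ _ _ hG0 1 (mob a b' c d z) (C3_im hdet hz)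
    rw [heps, hs, Int.cast_one, one_mul] at h1
    change ThS f m b 1 (mob a b' c d (z + ((3 * M : ℕ) : ℂ))) = ThS f m b 1 (mob a b' c d z) + _
    rw [C3_mob hdet (3 * M) hz]
    exact h1
  have h27 : HasE (3 * M * 9) (fun z => ThS f m b 1 (mob a b' c d z)) k0 := by
    have e : 3 * M * 9 = 27 * M := by ring
    rw [e]
    exact hk0
  have h3 := hW (3 * M) 9 _ k0 _ (by omega) (by norm_num) h27 hper
  have h9 := hE.1 (3 * M) (9 * M) _ k0 (by omega) (by omega) (Nat.mul_dvd_mul_right (by norm_num) M) h3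
  obtain ⟨e, C, he0, hC1, hS⟩ := h9
  have hC0 : 0 ≤ C := by
    have h1 := (norm_nonneg _).trans (hC1 0)
    simpa using h1
  refine ⟨k0, fun n => e (n + 1), 4 * C, ?_, ?_⟩
  · intro n
    have h2 := hC1 (n + 1)
    refine h2.trans ?_
    push_cast
    have hn : (0 : ℝ) ≤ n := Nat.cast_nonneg n
    have h3 : ((n : ℝ) + 1 + 1) ^ 2 ≤ 4 * ((n : ℝ) + 1) ^ 3 := by
      nlinarith [mul_nonneg hn hn, mul_nonneg hn (mul_nonneg hn hn)]
    calc C * ((n : ℝ) + 1 + 1) ^ 2 ≤ C * (4 * ((n : ℝ) + 1) ^ 3) := mul_le_mul_of_nonneg_left h3 hC0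
      _ = 4 * C * ((n : ℝ) + 1) ^ 3 := by ring
  · intro z hz
    have h4 := hS z hz
    have h5 := (hasSum_nat_add_iff' 1).2 h4
    rw [Finset.sum_range_one, he0, zero_mul, sub_zero] at h5
    have h6 : (fun n : ℕ => e (n + 1) * ex ((n + 1) * z / (9 * M))) =
        fun n : ℕ => e (n + 1) * ex (((n + 1 : ℕ) : ℂ) * z / ((9 * M : ℕ) : ℂ)) := by
      funext n
      push_cast
      rfl
    rw [h6]
    exact h5

end Pool.Agent.DT.C
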