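import Pool.Agent.Lib.DT.C.Spec

/-!
# Module DT/C/C7: holomorphy and the `q`-expansion
-/

set_option autoImplicit false

open Filter Topology
open scoped Pointwise

noncomputable section

namespace Pool.Agent.DT.C

open Pool.Agent.MuZ Pool.Agent.FW NumberField
open Pool.Agent.DI (io ofC io_inj exists_io io_ofC ofC_io VP MP UP TP ex)

private theorem C7_hol (hR : S_Red) (hD : S_Der) {k t : ℕ} [SqT k t] {f : ℕ} {b : Ideal (OO k t)}
    (hf : Fok f) (hb : b ≠ ⊥) (hn : 0 < NI b) {z : ℂ} (hz : 0 < z.im) :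
    DifferentiableAt ℂ (Tc f b 1) z := by
  obtain ⟨⟨-, hper⟩, hred, -⟩ := hR k t f b hf hb 1
  have hder := (hD k t (3 * f * NI b) (rhS f b 1) (Nat.mul_pos (Nat.mul_pos (by norm_num) hf.pos) hn) hper).1
  have hn' : (0 : ℝ) < (NI b : ℝ) := by exact_mod_cast hn
  have him : ∀ z : ℂ, 0 < z.im → 0 < (z / (3 * NI b : ℂ)).im := by
    intro z hz
    have e : (3 * NI b : ℂ) = ((3 * NI b : ℕ) : ℂ) := by push_cast; ring
    rw [e, Complex.div_natCast_im]
    refine div_pos hz ?_
    push_cast
    linarith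
  have h1 : DifferentiableAt ℂ
      (fun z : ℂ => ((3 * f * NI b : ℕ) : ℂ) * Th (rhS f b 1) (z / (3 * NI b))) z := by
    have h2 : DifferentiableAt ℂ (Th (rhS f b 1)) (z / (3 * NI b)) :=
      (hder (z / (3 * NI b)) (him z hz)).differentiableAt
    have h3 : DifferentiableAt ℂ (fun z : ℂ => z / (3 * NI b : ℂ)) z :=
      differentiableAt_id.div_const _
    exact (h2.comp z h3).const_mul _
  refine h1.congr_of_eventuallyEq ?_
  have hop : IsOpen {z : ℂ | 0 < z.im} := isOpen_lt continuous_const Complex.continuous_im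
  filter_upwards [hop.mem_nhds hz] with w hw
  exact hred w hw

theorem tC7 (hA : S_C7a) (hL : S_Lt) (hT : S_Tt) (hR : S_Red) (hD : S_Der) (hV : S_V0) (h2 : S_O2) :
    S_C7 := by
  intro k t _ f m b hm hb
  obtain ⟨-, hv, hv0, hC⟩ := hA k t f m b hm hb
  obtain ⟨-, -, -, -, hNm, hN0, -⟩ := h2 k t
  have hFo : Fok f := hm.toFok
  have hf : 0 < f := hFo.pos
  have hfR : (0 : ℝ) < (f : ℝ) := by exact_mod_cast hf
  have hNIb : 0 < NI b := Nat.pos_of_ne_zero fun h => hb.ne ((hN0 b).1 h)
  have hNIm : 0 < NI m := Nat.pos_of_ne_zero fun h => hm.ne ((hN0 m).1 h)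
  have hNImb : NI (m * b) = NI m * NI b := hNm m b
  have hmb : m * b ≠ ⊥ := by
    intro h
    have h1 := (hN0 (m * b)).2 h
    rw [hNImb] at h1
    exact absurd h1 (Nat.mul_pos hNIm hNIb).ne'
  have hNImb0 : 0 < NI (m * b) := by rw [hNImb]; exact Nat.mul_pos hNIm hNIb
  have hNImR : (0 : ℝ) < (NI m : ℝ) := by exact_mod_cast hNIm
  refine ⟨?_, hv, hv0, hC, ?_⟩
  · intro z hz
    have hz' : 0 < z.im := hz
    refine DifferentiableAt.differentiableWithinAt ?_
    have h1 : DifferentiableAt ℂ (Tc f (m * b) 1) z := C7_hol hR hD hFo hmb hNImb0 hz'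
    have hzm : 0 < ((NI m : ℂ) * z).im := by
      rw [Complex.mul_im, Complex.natCast_re, Complex.natCast_im, zero_mul, add_zero]
      exact mul_pos hNImR hz'
    have h3 : DifferentiableAt ℂ (Tc f b 1) ((NI m : ℂ) * z) := C7_hol hR hD hFo hb.ne hNIb hzm
    have h4 : DifferentiableAt ℂ (fun z : ℂ => (NI m : ℂ) * z) z :=
      differentiableAt_id.const_mul _
    have h5 : DifferentiableAt ℂ (fun z : ℂ => Tc f b 1 ((NI m : ℂ) * z)) z := h3.comp z h4
    exact (h1.sub (h5.const_mul (NI m : ℂ))).div_const (fr b)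
  · intro z hz
    -- the weight
    set w : ℝ := 3 * (f : ℝ) ^ 2 * NI (m * b) with hw
    have hw0 : 0 < w := by
      have : (0 : ℝ) < (NI (m * b) : ℝ) := by exact_mod_cast hNImb0
      positivity
    set A : Set ℂ := cs (v0 k t f) (m * b) with hAdef
    set B : Set ℂ := cs (v0 k t f) b with hBdef
    have hBA : B ⊆ A := fun v hv => lam_mono hv
    have htor : Tor k t (v0 k t f) := ⟨al0 k t f, 3 * f, by omega, v0_eq hf⟩
    set F : ℂ → ℂ := fun v => v⁻¹ * ex (w * ‖v‖ ^ 2 * z) with hF
    -- the two sums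
    have hsA : HasSum (fun v : A => F v) (TT A w z) :=
      ((hL k t (m * b) hmb).2.2.2.2.2.2 (v0 k t f) w z htor hw0 hz).hasSum
    have hsB : HasSum (fun v : B => F v) (TT B w z) :=
      ((hL k t b hb.ne).2.2.2.2.2.2 (v0 k t f) w z htor hw0 hz).hasSum
    have hTcA : Tc f (m * b) 1 z = TT A w z := by
      have h1 := (hR k t f (m * b) hFo hmb 1).2.2.1 z
      rw [Int.cast_one, one_mul] at h1
      exact h1
    have hTcB : Tc f b 1 ((NI m : ℂ) * z) = TT B w z := by
      have h1 := (hR k t f b hFo hb.ne 1).2.2.1 ((NI m : ℂ) * z)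
      rw [Int.cast_one, one_mul] at h1
      rw [h1]
      have h3 := hT.2.2.1 B (3 * (f : ℝ) ^ 2 * NI b) (NI m : ℝ) z
      rw [Complex.ofReal_natCast] at h3
      have e : 3 * (f : ℝ) ^ 2 * NI b * (NI m : ℝ) = w := by
        rw [hw, hNImb]
        push_cast
        ring
      rw [e] at h3
      exact h3.symm
    set G : ℂ → ℂ := fun v => A.indicator F v - (NI m : ℂ) * B.indicator F v with hG
    have hsG : HasSum G (TT A w z - (NI m : ℂ) * TT B w z) := by
      have h1 : HasSum (A.indicator F) (TT A w z) := (hasSum_subtype_iff_indicator).1 hsA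
      have h3 : HasSum (B.indicator F) (TT B w z) := (hasSum_subtype_iff_indicator).1 hsB
      exact h1.sub (h3.mul_left (NI m : ℂ))
    -- integrality
    have hint : ∀ v ∈ A, ∃ n : ℕ, w * ‖v‖ ^ 2 = n := by
      intro v hvA
      exact (hV k t f hFo).2.2.2.2.1 (m * b) hmb 1 v (by rw [Int.cast_one, one_mul]; exact hvA)
    -- the grading
    set q : ℂ → ℕ := fun v => ⌊w * ‖v‖ ^ 2⌋₊ with hq
    have hqA : ∀ v ∈ A, w * ‖v‖ ^ 2 = (q v : ℝ) := by
      intro v hvA
      obtain ⟨n, hn⟩ := hint v hvA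
      simp only [hq]
      rw [hn, Nat.floor_natCast]
    have hmem : ∀ (n : ℕ) (v : ℂ), v ∈ vN f (m * b) n ↔ v ∈ A ∧ q v = n := by
      intro n v
      rw [hv n v]
      constructor
      · rintro ⟨h1, h3⟩
        refine ⟨h1, ?_⟩
        have h4 := hqA v h1
        rw [hw, h3] at h4
        exact_mod_cast h4.symm
      · rintro ⟨h1, h3⟩
        refine ⟨h1, ?_⟩
        have h4 := hqA v h1
        rw [h3] at h4
        exact h4
    have hG0 : ∀ v : ℂ, v ∉ A → G v = 0 := by
      intro v hvA
      have hvB : v ∉ B := fun h => hvA (hBA h)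
      simp only [hG]
      rw [Set.indicator_of_notMem hvA, Set.indicator_of_notMem hvB]
      ring
    have hfib : ∀ n : ℕ, HasSum (fun v : {v : ℂ // q v = n} => G v) (cM f m b n * ex (n * z)) := by
      intro n
      have h1 : HasSum (Set.indicator {v : ℂ | q v = n} G)
          (∑ v ∈ vN f (m * b) n, Set.indicator {v : ℂ | q v = n} G v) := by
        refine hasSum_sum_of_ne_finset_zero ?_
        intro v hvn
        by_cases hqv : q v = n
        · have hvA : v ∉ A := fun h => hvn ((hmem n v).2 ⟨h, hqv⟩)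
          rw [Set.indicator_of_mem (show v ∈ {v : ℂ | q v = n} from hqv)]
          exact hG0 v hvA
        · exact Set.indicator_of_notMem (show v ∉ {v : ℂ | q v = n} from hqv) _
      have h3 : ∑ v ∈ vN f (m * b) n, Set.indicator {v : ℂ | q v = n} G v
          = cM f m b n * ex (n * z) := by
        unfold cM
        rw [Finset.sum_mul]
        refine Finset.sum_congr rfl fun v hvn => ?_
        obtain ⟨hvA, hqv⟩ := (hmem n v).1 hvn
        rw [Set.indicator_of_mem (show v ∈ {v : ℂ | q v = n} from hqv)]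
        have hwv : (w : ℂ) * (‖v‖ : ℂ) ^ 2 = (n : ℂ) := by
          have h4 := hqA v hvA
          rw [hqv] at h4
          exact_mod_cast h4
        have hFv : F v = v⁻¹ * ex (n * z) := by
          simp only [hF]
          rw [hwv]
        simp only [hG]
        rw [Set.indicator_of_mem hvA]
        by_cases hvB : v - v0 k t f ∈ Lam b
        · rw [if_pos hvB, Set.indicator_of_mem (show v ∈ B from hvB), hFv]
          ring
        · rw [if_neg hvB, Set.indicator_of_notMem (show v ∉ B from hvB), hFv]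
          ring
      rw [h3] at h1
      exact (hasSum_subtype_iff_indicator (s := {v : ℂ | q v = n})).2 h1
    have hsig : HasSum (fun x : (Σ n : ℕ, {v : ℂ // q v = n}) => G x.2)
        (TT A w z - (NI m : ℂ) * TT B w z) :=
      (Equiv.hasSum_iff (Equiv.sigmaFiberEquiv q)).2 hsG
    have hfin : HasSum (fun n : ℕ => cM f m b n * ex (n * z))
        (TT A w z - (NI m : ℂ) * TT B w z) := hsig.sigma hfib
    have hth : ThM f m b z = (TT A w z - (NI m : ℂ) * TT B w z) / fr b := by
      unfold ThM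
      rw [hTcA, hTcB]
    rw [hth]
    refine (hfin.div_const (fr b)).congr_fun ?_
    intro n
    ring

end Pool.Agent.DT.C
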