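import Pool.Agent.Lib.DT.IfaceC
import Pool.Agent.Lib.DT.O.Spec
import Pool.Agent.Lib.DK.C.Spec

/-!
# THEOREM DT (MP_d0239a_nt, `p = 3`), Part C: theta series (`S_C1` - `S_C7`)

Author helper33, after notes 4145 (C') and 4178 (C'3). Every `def S_.. : Prop` is a statement, its complete
proof is in the docstring; the theorem is `tX (hypotheses) : S_X` in `DT/C/X.lean`. Most modules are EDITS of
the proved module of the same name in `Lib/DK/C` (copy the file; `OO k` becomes `OO k t`, `[SqK k]` becomes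
`[SqT k t]`, `Dk k` becomes `Dk k t`, `sD k` becomes `sD k t`, the trace `2 v.re + v.im` becomes `2 v.re + t v.im`,
`Nm v = v.re ^ 2 + t v.re v.im + 3 k v.im ^ 2`, `eps (d : O)` becomes `eps k t d`).

Elementary facts on `O`: `DT/Base.lean` (`Nm_..`, `toC_..`, `lam_..`, `tor_..`). Parts O and L are proved:
`DT/O/AllA.lean` (`aO1` - `aO7`, `aO9`, `aL0` - `aL6` without hypotheses); they may be hypotheses or imported.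
Statements without the ring are REUSED from `DK/C` with their proofs: `S_Poi`, `S_Exp`, `S_Tt` (and the definitions
`HasE`, `TT`, which are abbreviations here: `unfold HasE Pool.Agent.DK.C.HasE`; `mob`, `mobQ` are plain
definitions).
-/

set_option autoImplicit false

open Filter Topology
open scoped Pointwise

noncomputable section

namespace Pool.Agent.DT.C

open Pool.Agent.MuZ Pool.Agent.FW NumberField
open Pool.Agent.DI (io ofC io_inj exists_io io_ofC ofC_io VP MP UP TP ex)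

/-! ## Definitions -/

/-- The Möbius transformation. -/
def mob (a b c d : ℤ) (z : ℂ) : ℂ := (a * z + b) / (c * z + d)

/-- The Möbius transformation of a rational number. -/
def mobQ (a b c d : ℤ) (r : ℚ) : ℚ := (a * r + b) / (c * r + d)

/-- `G = k0 + ∑_(n ≥ 1) e_n e(n z/M)`, `e_n` of polynomial growth (the definition of `DK/C`). -/
abbrev HasE (M : ℕ) (G : ℂ → ℂ) (k0 : ℂ) : Prop := Pool.Agent.DK.C.HasE M G k0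

/-- The sum of `v⁻¹ e(w |v|² z)` over the set `A` (the definition of `DK/C`). -/
abbrev TT (A : Set ℂ) (w : ℝ) (z : ℂ) : ℂ := Pool.Agent.DK.C.TT A w z

section Defs

variable {k t : ℕ}

/-- `ρ` is odd. -/
def OddO (ρ : OO k t → ℂ) : Prop := ∀ v : OO k t, ρ (-v) = -ρ v

/-- `ρ` is periodic modulo `n`. -/
def PerO (n : ℕ) (ρ : OO k t → ℂ) : Prop := ∀ v u : OO k t, ρ (v + n * u) = ρ v

/-- `ρ_a(v) = ρ(a v)`. -/
def tw (ρ : OO k t → ℂ) (a : OO k t) (v : OO k t) : ℂ := ρ (a * v)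

/-- The theta function of weight 1: `Th_ρ(z) = 1/2 ∑ ρ(v) v⁻¹ e(N v z)`. -/
def Th (ρ : OO k t → ℂ) (z : ℂ) : ℂ := 1 / 2 * ∑' v : OO k t, ρ v / toC v * ex (Nm v * z)

/-- The theta function of weight 2: `G_ρ(z) = 1/2 ∑ ρ(v) v̄ e(N v z)`. -/
def Gt (ρ : OO k t → ℂ) (z : ℂ) : ℂ := 1 / 2 * ∑' v : OO k t, ρ v * toC (cjO v) * ex (Nm v * z)

/-- The sum over the residues modulo `m`. -/
def rsum (m : ℕ) (F : OO k t → ℂ) : ℂ :=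
  ∑ x ∈ Finset.range m, ∑ y ∈ Finset.range m, F ⟨(x : ℤ), (y : ℤ)⟩

/-- The constant `Φ_ρ(g)`, defined by the value at `z = i`. -/
def PhC (ρ : OO k t → ℂ) (a b c d : ℤ) : ℂ :=
  Th ρ (mob a b c d Complex.I) - eps k t d * Th (tw ρ (d : OO k t)) Complex.I

/-- The finite sum `B(u) = ∑ ρ(v) e(a N v / c - im(v ū) / (f c) + d N u / (D f² c))`. -/
def BB (ρ : OO k t → ℂ) (f : ℕ) (a d : ℤ) (c : ℕ) (u : OO k t) : ℂ :=
  rsum (f * c) fun v => ρ v * ex (a * Nm v / c - (v * cjO u).im / (f * c)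
    + d * Nm u / (Dk k t * f ^ 2 * c))

/-- The Gauss sum: the sum of `e(a N x / c)` over the `x` in `f O` modulo `f c`. -/
def GG (k t f : ℕ) (a : ℤ) (c : ℕ) : ℂ := by
  classical
  exact rsum (f * c) fun x : OO k t => if (f : OO k t) ∣ x then ex (a * Nm x / c) else 0

/-- The multiplier `κ`. -/
def KK (k t f : ℕ) (a : ℤ) (c : ℕ) : ℂ := -toC (sD k t) / (Dk k t * f ^ 2 * c) * GG k t f a c

/-- The coset `x + Lam b`. -/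
def cs (x : ℂ) (b : Ideal (OO k t)) : Set ℂ := {v : ℂ | v - x ∈ Lam b}

/-- `α₀ = 3 + f w`; `v₀ = α₀/(3 f)`. -/
def al0 (k t f : ℕ) : OO k t := ⟨3, (f : ℤ)⟩

open Classical in
/-- `ρ_s(u) = [u ∈ s n α₀ + 3 f b̄] - [-u ∈ s n α₀ + 3 f b̄]`, `n = N b`. -/
def rhS (f : ℕ) (b : Ideal (OO k t)) (s : ℤ) (u : OO k t) : ℂ :=
  (if u - ((s * NI b : ℤ) : OO k t) * al0 k t f ∈ sN k t (3 * f) * cjI b then 1 else 0) -
    (if u + ((s * NI b : ℤ) : OO k t) * al0 k t f ∈ sN k t (3 * f) * cjI b then 1 else 0)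

/-- The smoothed theta series of the coset `s v₀`; `ThS f m b 1 = ThM f m b`. -/
def ThS (f : ℕ) (m b : Ideal (OO k t)) (s : ℤ) (z : ℂ) : ℂ :=
  (Tc f (m * b) s z - NI m * Tc f b s (NI m * z)) / fr b

/-- `lim ThS(r + i y)`; `hS f m b 1 = hM f m b`. -/
def hS (f : ℕ) (m b : Ideal (OO k t)) (s : ℤ) (r : ℚ) : ℂ :=
  limUnder (𝓝[>] (0 : ℝ)) (fun y => ThS f m b s (r + y * Complex.I))

/-- The constant of the transformation of `ThS`. -/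
def PhS (f : ℕ) (m b : Ideal (OO k t)) (s : ℤ) (a b' c d : ℤ) : ℂ :=
  ThS f m b s (mob a b' c d Complex.I) - eps k t d * ThS f m b (a * s) Complex.I

end Defs

theorem ThS_one {k t : ℕ} (f : ℕ) (m b : Ideal (OO k t)) : ThS f m b 1 = ThM f m b := rfl

theorem hS_one {k t : ℕ} (f : ℕ) (m b : Ideal (OO k t)) : hS f m b 1 = hM f m b := rfl

/-- `v₀ = α₀/(3 f)`. -/
theorem v0_eq {k t f : ℕ} (hf : 0 < f) : v0 k t f = toC (al0 k t f) / ((3 * f : ℕ) : ℂ) := by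
  have hf' : (f : ℂ) ≠ 0 := by exact_mod_cast hf.ne'
  unfold v0 S0 al0
  rw [toC_apply]
  push_cast
  field_simp
  ring

/-! ## Statements without the ring, proved in `DK/C` -/

/-- **Poisson summation in dimension 1**: proved, `Pool.Agent.DK.C.tPoi`. -/
abbrev S_Poi : Prop := Pool.Agent.DK.C.S_Poi

/-- **Rules for `HasE`**: proved, `Pool.Agent.DK.C.tExp`. -/
abbrev S_Exp : Prop := Pool.Agent.DK.C.S_Exp

/-- **Rules for `TT`**: proved, `Pool.Agent.DK.C.tTt`. -/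
abbrev S_Tt : Prop := Pool.Agent.DK.C.S_Tt

/-! ## I. The lattice `O` -/

/-- (module C/Bas, 70 lines; edit of DK/C/Bas; no dependence) **The ring `O`.** Most claims are in `DT/Base.lean`.
`4 N v = (2 x + t y)² + D y²` (`four_Nm`). Bound: `t = 1`: `2 N v - (x² + y²) = (x + y)² + (6k - 2) y²`; `t = 4`, `k ≥ 2`:
`3 (4 N v - x² - y²) = (3 x + 8 y)² + (36 k - 67) y²`. `s (x + y w) = (-t x - 6k y) + (2x + t y) w`. -/
def S_Bas : Prop := ∀ (k t : ℕ) [SqT k t],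
  (∀ v : OO k t, ‖toC v‖ ^ 2 = (Nm v : ℝ)) ∧
  (∀ v : OO k t, toC (cjO v) = (starRingEnd ℂ) (toC v)) ∧
  (∀ v u : OO k t, cjO (v * u) = cjO v * cjO u ∧ cjO (v + u) = cjO v + cjO u ∧ cjO (cjO v) = v) ∧
  (∀ v u : OO k t, Nm (v * u) = Nm v * Nm u) ∧
  (∀ v : OO k t, ((Nm v : ℤ) : OO k t) = v * cjO v ∧ Nm (cjO v) = Nm v ∧ Nm (-v) = Nm v) ∧
  (∀ v : OO k t, 0 ≤ Nm v ∧ (Nm v = 0 ↔ v = 0) ∧ (v.re ^ 2 + v.im ^ 2 ≤ 4 * Nm v)) ∧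
  (∀ v u : OO k t, Nm (v + u) = Nm v + Nm u + (2 * (v * cjO u).re + t * (v * cjO u).im)) ∧
  (sD k t * cjO (sD k t) = (Dk k t : OO k t) ∧ cjO (sD k t) = -sD k t ∧
    sD k t * sD k t = -(Dk k t : OO k t)) ∧
  (∀ v : OO k t, (sD k t * v).im = 2 * v.re + t * v.im ∧
    2 * (sD k t * v).re + t * (sD k t * v).im = -(Dk k t : ℤ) * v.im) ∧
  (∀ v : OO k t, toC v = 0 ↔ v = 0)

/-- (module C/Sum, 140 lines; edit of DK/C/Sum; uses S_Bas) **Convergence.** -/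
def S_Sum : Prop := ∀ (k t : ℕ) [SqT k t],
  (∀ (y : ℝ) (j : ℕ), 0 < y →
    Summable fun v : OO k t => ((Nm v : ℝ) + 1) ^ j * Real.exp (-y * Nm v)) ∧
  (∀ z : ℂ, ‖ex z‖ = Real.exp (-2 * Real.pi * z.im)) ∧
  (∀ (n : ℕ) (ρ : OO k t → ℂ), 0 < n → PerO n ρ → ∃ C : ℝ, 0 ≤ C ∧ ∀ v : OO k t, ‖ρ v‖ ≤ C)

/-- (module C/Two, 500 lines; edit of DK/C/Two; uses S_Poi, S_Bas, S_Sum) **Poisson summation in dimension 2.**
CASE `t = 1` (`SqT.out`): as in `DK/C/Two` (there `D = 8k - 1`, `N = x² + x y + 2k y²`; here `D = 12k - 1`,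
`N = x² + x y + 3k y²`; `v₀/m = α + i √D β`, `α = (re v₀ + im v₀/2)/m`, `β = im v₀/(2m)`). CASE `t = 4`: `w = 2 + i √D'`,
`D' = D/4 = 3k - 4 > 0` (`w ^ 2 = 4 w - 3 k`, `√D = 2 √D'`), `O = ℤ + ℤ i √D'` is a PRODUCT lattice: `x + y w = X + i √D' y`,
`X = x + 2 y` (bijection `(x, y) ↦ (X, y)` of `ℤ × ℤ`), `N = X² + D' y²`. With `α = (re v₀ + 2 im v₀)/m`,
`β = im v₀/m`, `τ' = m² τ`: the left side is `m ∑_(p ∈ ℤ × ℤ) ((p₁ + α) - i √D' (p₂ + β)) e(τ' (p₁ + α)² + D' τ' (p₂ + β)²)`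
`= m (i/(4 √D' τ'²)) ∑_p (p₁ - i (√D'/D') p₂) e(p₁ α + p₂ β - p₁²/(4τ') - p₂²/(4 D' τ'))` by the lemmas `two_prodL`, `two_swap`,
`two_prodR` of `DK/C/Two` (they hold for every real number `D > 0`; take `D'`). Substitute `p = (im u, -(re u + 2 im u))`,
`u ∈ O` (a bijection `O → ℤ × ℤ`, `ū = X_u - i √D' y_u`, `X_u = re u + 2 im u`): `p₁ - i (√D'/D') p₂ = (i/√D') ū`,
`p₁ α + p₂ β = (im u (re v₀ + 2 im v₀) - (re u + 2 im u) im v₀)/m = -im(v₀ ū)/m` (`im(v ū) = im v re u - re v im u`),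
`p₁²/(4τ') + p₂²/(4 D' τ') = (D' y_u² + X_u²)/(4 D' m² τ) = N u/(D m² τ)` (`D = 4 D'`). The constant:
`m (i/(4 √D' m⁴ τ²)) (i/√D') = -1/(D m³ τ²)`. -/
def S_Two : Prop := ∀ (k t : ℕ) [SqT k t] (m : ℕ) (v₀ : OO k t) (τ : ℂ), 0 < m → 0 < τ.im →
  ∑' u : OO k t, toC (cjO (v₀ + (m : OO k t) * u)) * ex (Nm (v₀ + (m : OO k t) * u) * τ)
    = -1 / (Dk k t * m ^ 3 * τ ^ 2) *
      ∑' u : OO k t, toC (cjO u) * ex (-(Nm u) / (Dk k t * m ^ 2 * τ) - (v₀ * cjO u).im / m)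

/-- (module C/Res, 330 lines; edit of DK/C/Res; no dependence) **Sums over the residues.** The form
`im(ū w) = re u im w - im u re w` is the same for all `t`. -/
def S_Res : Prop := ∀ (k t : ℕ) [SqT k t],
  (∀ (m : ℕ) (F : OO k t → ℂ), 0 < m → PerO m F → ∀ w : OO k t,
    rsum m (fun v => F (v + w)) = rsum m F) ∧
  (∀ (m : ℕ) (F : OO k t → ℂ), 0 < m → Summable F →
    (∀ v : OO k t, Summable fun u : OO k t => F (v + (m : OO k t) * u)) ∧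
    ∑' v : OO k t, F v = rsum m fun v => ∑' u : OO k t, F (v + (m : OO k t) * u)) ∧
  (∀ (m : ℕ) (F : OO k t → ℂ), 0 < m → PerO m F → ∀ a : ℤ, IsCoprime a (m : ℤ) →
    rsum m (fun v => F ((a : OO k t) * v)) = rsum m F) ∧
  (∀ (f : ℕ) (w : OO k t), 0 < f → ((f : OO k t) ∣ w →
      rsum f (fun u : OO k t => ex ((cjO u * w).im / f)) = (f : ℂ) ^ 2) ∧
    (¬ (f : OO k t) ∣ w → rsum f (fun u : OO k t => ex ((cjO u * w).im / f)) = 0)) ∧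
  (∀ (f p : ℕ) (F : OO k t → ℂ), 0 < f → 0 < p → Nat.Coprime f p → PerO (f * p) F →
    rsum (f * p) F = rsum f fun α => rsum p fun β => F ((p : OO k t) * α + (f : OO k t) * β))

/-- (module C/Ech, 120 lines; no dependence) **The quadratic character** `ε(d) = sign(d) J(-D | |d|)` on odd
integers. (3), (4): clear (`Int.natAbs_neg`, `sign`). (2) MODULO `4 D`: for `d, d' > 0`: `jacobiSym.mod_right` (`J(a | b)`, `b` odd,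
depends only on `b` modulo `4 |a|`). For `d, d' < 0` the same for `|d|`, `|d'|`. For `d > 0 > d'`, `n = |d'|`: `4 D ∣ d + n`, and we
need `J(-D | d) = -J(-D | n)`. Choose an odd `x > 0` with `4 D ∣ n x - 1` (`n` is prime to `4 D`). Then `d n x² = -n² x² = -1` modulo
`4 D`, so (`jacobiSym.mul_right`, `J = ± 1`, `J(· | x)² = 1`) `J(-D | d) J(-D | n) = J(-D | d n x²) = J(-D | 4D - 1)`, and with `q = 4D - 1`
(odd, `3` modulo `4`): `J(4 | q) = J(2 | q)² = 1`, so `J(-D | q) = J(-4 D | q) = J(-1 | q)` (`-4 D = -1` modulo `q`, `jacobiSym.mod_left'`)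
`= χ₄(q) = -1` (`jacobiSym.at_neg_one`, `ZMod.χ₄_nat_three_mod_four`). (1): `J(-D | |d|) = ± 1` as `|d|` is prime to `D`. -/
def S_Ech : Prop := ∀ (k t : ℕ) [SqT k t],
  (∀ d : ℤ, Odd d → IsCoprime d (Dk k t : ℤ) → eps k t d = 1 ∨ eps k t d = -1) ∧
  (∀ d d' : ℤ, Odd d → Odd d' → IsCoprime d (Dk k t : ℤ) → (4 * Dk k t : ℤ) ∣ d - d' →
    eps k t d = eps k t d') ∧
  (∀ d : ℤ, eps k t (-d) = -eps k t d) ∧ eps k t 1 = 1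

/-- (module C/Gau, 250 lines; edit of DK/C/Gau; no dependence) **The Gauss sum of the norm form, and inert
primes.** `p ≠ 2` prime with `J(-D | p) = -1` (so `p ∤ D`: `J ≠ 0`); no reciprocity is needed. (1) `N(x + y w) =
(x + t y/2)² + (D/4) y²` modulo `p`; the sum is `χ(j) χ(j D/4) χ(-1) p = χ(-D) p = -p`. (2) `4 p² = (2x + t y)² + D y²`: if `p ∤ y`
then `-D` is a square modulo `p` (`jacobiSym.prime_dvd_of_eq_neg_one`); so `p ∣ y`, `p ∣ x`, `u = p u'`, `N u' = 1`,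
`(2x' + t y')² + D y'² = 4`, `D ≥ 8` (`hD8`): `y' = 0`, `x' = ± 1`. -/
def S_Gau : Prop := ∀ (k t : ℕ) [SqT k t] (p : ℕ), p.Prime → p ≠ 2 →
  jacobiSym (-(Dk k t : ℤ)) p = -1 →
  (∀ j : ℤ, ¬ (p : ℤ) ∣ j → rsum p (fun β : OO k t => ex (j * Nm β / p)) = -(p : ℂ)) ∧
  (∀ u : OO k t, Nm u = (p : ℤ) ^ 2 → u = (p : OO k t) ∨ u = -(p : OO k t))

/-- (module C/Uni, 220 lines; edit of DK/C/Uni; uses S_Bas, S_Sum) **Uniqueness of the coefficients.** -/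
def S_Uni : Prop := ∀ (k t : ℕ) [SqT k t] (M : ℕ) (γ : OO k t → ℂ) (C : ℝ), 0 < M →
  (∀ u : OO k t, ‖γ u‖ ≤ C * (1 + Nm u)) →
  (∀ z : ℂ, 0 < z.im → ∑' u : OO k t, γ u * ex (Nm u * z / M) = 0) →
  ∀ (n : ℤ) (T : Finset (OO k t)), (∀ u : OO k t, u ∈ T ↔ Nm u = n) → ∑ u ∈ T, γ u = 0

/-- (module C/Gen, 220 lines; edit of DK/C/Gen; uses S_Two, S_Res, S_Sum) **General `g`, `c > 0`.** -/
def S_Gen : Prop := ∀ (k t : ℕ) [SqT k t] (f c : ℕ) (a b d : ℤ) (ρ : OO k t → ℂ) (z : ℂ),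
  0 < f → 0 < c → PerO f ρ → a * d - b * c = 1 → 0 < z.im →
  Gt ρ (mob a b c d z) = -((c : ℂ) * z + d) ^ 2 / (Dk k t * f ^ 3 * c) *
    (1 / 2 * ∑' u : OO k t, toC (cjO u) * ex (Nm u * z / (Dk k t * f ^ 2)) * BB ρ f a d c u)

/-- (module C/Gam, 410 lines; edit of DK/C/Gam; uses S_Bas, S_Res) **The finite sums for `D f² ∣ c`.** `tr v = 2 v.re + t v.im`;
`tr ū = 2x + t y = D f q`, `tr (w ū) = t x + 6k y = D f p` for `u = x + y w` with `B(u) ≠ 0`; then `u = f s v'`, `v' = p - q w`: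
`D x = 6k (2x + t y) - t (t x + 6k y)`, `D y = 2 (t x + 6k y) - t (2x + t y)`, `s (p - q w) = (6k q - t p) + (2p - t q) w`. -/
def S_Gam : Prop := ∀ (k t : ℕ) [SqT k t] (f c : ℕ) (a b d : ℤ) (ρ : OO k t → ℂ), 0 < f → 0 < c →
  PerO f ρ → a * d - b * c = 1 → Dk k t * f ^ 2 ∣ c →
  (∀ u : OO k t, ¬ (f * sD k t : OO k t) ∣ u → BB ρ f a d c u = 0) ∧
  (∀ v : OO k t, BB ρ f a d c (f * sD k t * v) = ρ (-(d * v)) * GG k t f a c)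

/-- (module C/Kap, 210 lines; edit of DK/C/Kap; uses S_Gen, S_Gam, S_Sum) **`Γ_0(D f²)`, with an unknown
multiplier.** -/
def S_Kap : Prop := ∀ (k t : ℕ) [SqT k t] (f : ℕ) (a b c d : ℤ), 0 < f → a * d - b * c = 1 →
  (Dk k t * f ^ 2 : ℤ) ∣ c →
  ∃ κ : ℂ, ∀ ρ : OO k t → ℂ, OddO ρ → PerO f ρ → ∀ z : ℂ, 0 < z.im →
    Gt ρ (mob a b c d z) = κ * ((c : ℂ) * z + d) ^ 2 * Gt (tw ρ (d : OO k t)) z

/-- (module C/EpsA, 560 lines; edit of DK/C/Eps (the theorem `caseA`); uses S_Gen, S_Gau, S_Uni, S_Res, S_Sum)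
**`κ = -1` for `d = p`**, `p` an odd prime with `J(-D | p) = -1`. As `caseA` of `DK/C/Eps`; `p` is prime to `f` (`D f² ∣ c`,
`a p - b c = 1`), and `f ∤ 2 p` because `4 ∣ f` (`f ∣ 2 p` and `f` prime to `p` give `f ∣ 2`). The Gauss sum is taken at
`j = b f²`, `p ∤ b f²` (`a p - b c = 1`). -/
def S_EpsA : Prop := ∀ (k t : ℕ) [SqT k t] (f : ℕ) (a b c : ℤ) (p : ℕ), 0 < f → 4 ∣ f → p.Prime →
  p ≠ 2 → jacobiSym (-(Dk k t : ℤ)) p = -1 → a * p - b * c = 1 → (Dk k t * f ^ 2 : ℤ) ∣ c → ∀ κ : ℂ,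
  (∀ ρ : OO k t → ℂ, OddO ρ → PerO f ρ → ∀ z : ℂ, 0 < z.im →
    Gt ρ (mob a b c p z) = κ * ((c : ℂ) * z + p) ^ 2 * Gt (tw ρ ((p : ℤ) : OO k t)) z) → κ = -1

/-- (module C/Eps, 200 lines; edit of DK/C/EpsB; uses S_Kap, S_EpsA, S_Ech) **`κ = ε(d)`.** `c` is divisible by
`D f²`, so by `16 D`; `d` is odd and prime to `D`. If `ε(d) = -1`: for `c = 0`, `d = -1` (direct; `d = 1` is excluded by
`ε(1) = 1`); for `c ≠ 0` Dirichlet gives a prime `p = d + j c > 2`, and `ε(p) = ε(d)` (`S_Ech` (2), `4 D ∣ c`), that is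
`J(-D | p) = -1`; `S_EpsA` for `(a, b + j a; c, p)`. If `ε(d) = 1`: use `-g` and `ε(-d) = -ε(d)`. As in `DK/C/EpsB`. -/
def S_Eps : Prop := ∀ (k t : ℕ) [SqT k t] (f : ℕ) (a b c d : ℤ) (ρ : OO k t → ℂ) (z : ℂ), 0 < f →
  4 ∣ f → a * d - b * c = 1 → (Dk k t * f ^ 2 : ℤ) ∣ c → OddO ρ → PerO f ρ → 0 < z.im →
    Gt ρ (mob a b c d z) = eps k t d * ((c : ℂ) * z + d) ^ 2 * Gt (tw ρ (d : OO k t)) z

/-- (module C/Der, 200 lines; edit of DK/C/Der; uses S_Bas, S_Sum) **Derivative and growth.** -/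
def S_Der : Prop := ∀ (k t : ℕ) [SqT k t] (f : ℕ) (ρ : OO k t → ℂ), 0 < f → PerO f ρ →
  (∀ z : ℂ, 0 < z.im → HasDerivAt (Th ρ) (2 * Real.pi * Complex.I * Gt ρ z) z) ∧
  (∀ z : ℂ, 0 < z.im → Summable fun v : OO k t => ρ v / toC v * ex (Nm v * z)) ∧
  (∃ C : ℝ, ∀ z : ℂ, 1 ≤ z.im → ‖Th ρ z‖ ≤ C * Real.exp (-2 * Real.pi * z.im))

/-- (module C/Phi, 110 lines; edit of DK/C/Phi; uses S_Eps, S_Der) -/
def S_Phi : Prop := ∀ (k t : ℕ) [SqT k t] (f : ℕ) (ρ : OO k t → ℂ), 0 < f → 4 ∣ f → OddO ρ →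
  PerO f ρ → ∀ a b c d : ℤ, a * d - b * c = 1 → (Dk k t * f ^ 2 : ℤ) ∣ c → ∀ z : ℂ, 0 < z.im →
    Th ρ (mob a b c d z) = eps k t d * Th (tw ρ (d : OO k t)) z + PhC ρ a b c d

/-- (module C/Cus, 540 lines; edit of DK/C/Cus; uses S_Gen, S_Der, S_Sum, S_Bas) **All cusps.** As in `DK/C`; the
number of `u` with `N u = n` is at most `(4n + 1)²` (`x² + y² ≤ 4 N u`, so `|x|, |y| ≤ 2 n` for `n ≥ 1`). -/
def S_Cus : Prop := ∀ (k t : ℕ) [SqT k t] (f : ℕ) (a b c d : ℤ) (ρ : OO k t → ℂ), 0 < f →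
  a * d - b * c = 1 → PerO f ρ →
  ∃ k0 : ℂ, HasE (Dk k t * f ^ 2) (fun z => Th ρ (mob a b c d z)) k0

/-! ## II. Lattice sums -/

/-- (module C/Lt, 140 lines; edit of DK/C/Lt; uses S_Bas, S_Sum, S_O2, S_O3, S_L0, S_L1) **Sums over `Lam b`.** As in
`DK/C`: `b * cjI b = sN n`, `n = NI b` (`S_O3`), `S_L0` (3). -/
def S_Lt : Prop := ∀ (k t : ℕ) [SqT k t] (b : Ideal (OO k t)), b ≠ ⊥ →
  0 < NI b ∧
  (∀ z : ℂ, z ∈ Lam b ↔ ∃ u ∈ cjI b, z = toC u / NI b) ∧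
  (∀ (x : ℂ) (F : ℂ → ℂ), ∑' v : (LP b).lattice, F (x + v) = ∑' v : cs x b, F v) ∧
  (∀ x ∈ Lam b, ∃ n : ℕ, (NI b : ℝ) * ‖x‖ ^ 2 = n) ∧
  (∀ x ∈ Lam b, ∀ y ∈ Lam b, ∃ n : ℤ, (NI b : ℝ) * (‖x + y‖ ^ 2 - ‖x‖ ^ 2 - ‖y‖ ^ 2) = n) ∧
  (∀ x : ℂ, Tor k t x → ∃ C : ℝ, ∀ v ∈ cs x b, ‖v⁻¹‖ ≤ C) ∧
  (∀ (x : ℂ) (w : ℝ) (z : ℂ), Tor k t x → 0 < w → 0 < z.im →
    Summable fun v : cs x b => (v : ℂ)⁻¹ * ex (w * ‖(v : ℂ)‖ ^ 2 * z))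

/-- (module C/V0, 150 lines; new; uses S_Lt, S_O2, S_O3, S_O4, S_O6) **The base point `v₀ = α₀/(3 f)`** (`v0_eq`), `α₀ = 3 + f w`.
(1) `α₀ ∈ pp` (`S_O4`: `3 ∣ re`). (2) for `γ ∈ f p̄` (`cnd`): `γ = f γ'`, `γ' ∈ p̄` (`cnd = sN f * ppb`, `Ideal.mem_span_singleton_mul`);
`γ' α₀ ∈ ppb * pp = sN 3`, so `γ α₀ = 3 f v` and `γ v₀ = v ∈ O ⊆ Lam b` (`u * v ∈ O` for `u ∈ b`). (3) `3 f v₀ = α₀`. (4) for `b` prime to `cnd`:
`v₀ ∉ Lam b`: choose `v ∈ b` with `v - 1 ∈ cnd` (`S_O6` (8), symmetric (3)); if `v₀ ∈ Lam b` then `v v₀ ∈ O`, and `(v - 1) v₀ ∈ O` by (2), so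
`v₀ ∈ O`, `α₀ ∈ 3 f O`, `3 f ∣ 3` (`re`; `nat_dvd_iff`), `f ≥ 4` (`4 ∣ f`, `f > 0`): impossible. (5) INTEGRALITY: `v = s v₀ + λ`, `λ ∈ Lam b`,
`n = NI b`: `3 f² n ‖v‖² = s² n N(α₀)/3 + f s n 2 Re(toC α₀ conj λ) + 3 f² n ‖λ‖²` (`‖x + y‖² = ‖x‖² + ‖y‖² + 2 Re(x conj y)`); `3 ∣ N(α₀)` (`N(α₀) = 9 + 3 t f
+ 3 k f²`), `n 2 Re(α₀ conj λ) = n (‖α₀ + λ‖² - ‖α₀‖² - ‖λ‖²)` is an integer (`S_Lt` (5), `α₀ ∈ O ⊆ Lam b`), `n ‖λ‖²` also (`S_Lt` (4)); a nonnegative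
integer is a natural number. (6) modulo `n'` (for `S_Spl`): for `x ∈ cs v₀ b`, `λ ∈ Lam b`: `3 f² n (‖x + n' λ‖² - ‖x‖²) = n' (3 f² n 2 Re(x conj λ)) +
n'² 3 f² n ‖λ‖²`, and for `x = v₀ + μ`: `3 f² n 2 Re(v₀ conj λ) = f n 2 Re(α₀ conj λ)`, `n 2 Re(μ conj λ)` are integers. -/
def S_V0 : Prop := ∀ (k t : ℕ) [SqT k t] (f : ℕ), Fok f →
  al0 k t f ∈ pp k t ∧
  (∀ γ ∈ cnd k t f, ∃ v : OO k t, toC γ * v0 k t f = toC v) ∧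
  ((3 * f : ℕ) : ℂ) * v0 k t f = toC (al0 k t f) ∧
  (∀ b : Ideal (OO k t), PrI b (cnd k t f) → v0 k t f ∉ Lam b) ∧
  (∀ b : Ideal (OO k t), b ≠ ⊥ → ∀ (s : ℤ), ∀ v ∈ cs ((s : ℂ) * v0 k t f) b,
    ∃ n : ℕ, 3 * (f : ℝ) ^ 2 * NI b * ‖v‖ ^ 2 = n) ∧
  ∀ b : Ideal (OO k t), b ≠ ⊥ → ∀ (n' : ℕ), ∀ x ∈ cs (v0 k t f) b, ∀ l ∈ Lam b,
    ∃ j : ℤ, 3 * (f : ℝ) ^ 2 * NI b * ‖x + n' * l‖ ^ 2 - 3 * (f : ℝ) ^ 2 * NI b * ‖x‖ ^ 2 = n' * j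

/-- (module C/Red, 300 lines; edit of DK/C/Red; uses S_Lt, S_Tt, S_Bas, S_Der, S_V0, S_O2, S_O3) **Reduction to the
lattice `O`.** `n = NI b`, `F = 3 f n`, `I = sN (3 f) * cjI b` (note `(F : O) ∈ I` because `n ∈ cjI b`: `b * cjI b = sN n`). (1) odd: clear;
period: `F u ∈ I`. (3) by the definitions and `S_Lt` (3) (`x = s v₀`). (2) `cs (s v₀) b = (1/F) A`, `A = {toC u | u - s n α₀ ∈ I}`
(`S_Lt` (2): `v - s v₀ = toC u'/n`, `u' ∈ cjI b`, `F v = s n α₀ + 3 f u'`); `S_Tt` (1): `Tc = F TT A (3 f² n/F²) z = F ∑_(u - s n α₀ ∈ I) (toC u)⁻¹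
e(N u z/(3 n))` (`3 f² n/(9 f² n²) = 1/(3n)`). On the other hand `2 Th ρ_s(z/(3n))` is the sum over `u - s n α₀ ∈ I` minus the sum over
`u + s n α₀ ∈ I`; replace `u` by `-u` in the second. (4) `S_V0` (5): `e(3 f² n ‖v‖² (z + j)) = e(3 f² n ‖v‖² z)`. (5) `s v₀ - s' v₀ =
j (3 f v₀) = j α₀ ∈ O ⊆ Lam b`. (6) `d u - s n α₀ ∈ I` iff `a d u - a s n α₀ ∈ I` iff `u - a s n α₀ ∈ I` (multiply by `a`, resp. by `d`; `(a d - 1) O ⊆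
F O ⊆ I`). (7) `v ↦ -v`. -/
def S_Red : Prop := ∀ (k t : ℕ) [SqT k t] (f : ℕ) (b : Ideal (OO k t)), Fok f → b ≠ ⊥ → ∀ s : ℤ,
  (OddO (rhS f b s) ∧ PerO (3 * f * NI b) (rhS f b s)) ∧
  (∀ z : ℂ, 0 < z.im → Tc f b s z = (3 * f * NI b : ℕ) * Th (rhS f b s) (z / (3 * NI b))) ∧
  (∀ z : ℂ, Tc f b s z = TT (cs (s * v0 k t f) b) (3 * f ^ 2 * NI b) z) ∧
  (∀ (z : ℂ) (j : ℤ), Tc f b s (z + j) = Tc f b s z) ∧
  (∀ s' : ℤ, (3 * f : ℤ) ∣ s - s' → ∀ z : ℂ, Tc f b s z = Tc f b s' z) ∧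
  (∀ a d : ℤ, ((3 * f * NI b : ℕ) : ℤ) ∣ a * d - 1 → ∀ u : OO k t,
    rhS f b s (d * u) = rhS f b (a * s) u) ∧
  ∀ z : ℂ, Tc f b (-s) z = -Tc f b s z

/-- (module C/Tct, 140 lines; edit of DK/C/Tct; uses S_Phi, S_Red, S_O2) **Transformation of `Tc`.** `n = NI b > 0`,
`F = 3 f n`, `4 ∣ F`. `d` is prime to `c`, so to `3 n` (`3 n ∣ c`): choose `j` with `3 n ∣ b' + j d`. By the period of `Tc`:
`Tc(g z) = Tc(g z + j) = Tc(g₁ z)`, `g₁ = (a₁ b₁; c d)`, `a₁ = a + j c`, `b₁ = b' + j d = 3 n b₂`. With `w = z/(3n)`: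
`(g₁ z)/(3n) = (a₁ w + b₂)/(3 n c w + d) = g' w`, `g' = (a₁ b₂; 3 n c, d)`, `a₁ d - b₂ (3 n c) = 1`, `D F² = 9 D f² n² ∣ 3 n c`. `S_Phi` for
`F`, `g'`: `Th_ρs(g' w) = ε(d) Th_((ρ_s)_d)(w) + Φ`; `a₁ d - 1 = b₁ c` is divisible by `F` (`3 f n ∣ c`), so by `S_Red` (6)
`(ρ_s)_d = ρ_(a₁ s)`, and `Tc f b (a₁ s) = Tc f b (a s)` (`3 f ∣ c`, `S_Red` (5)). -/
def S_Tct : Prop := ∀ (k t : ℕ) [SqT k t] (f : ℕ) (b : Ideal (OO k t)) (s : ℤ), Fok f → b ≠ ⊥ →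
  ∀ a b' c d : ℤ, a * d - b' * c = 1 → ((3 * (Dk k t * f ^ 2 * NI b) : ℕ) : ℤ) ∣ c →
    ∃ Φ : ℂ, ∀ z : ℂ, 0 < z.im →
      Tc f b s (mob a b' c d z) = eps k t d * Tc f b (a * s) z + Φ

/-- (module C/Tcc, 170 lines; edit of DK/C/Tcc; uses S_Cus, S_Exp, S_Red, S_O2) **Cusps of `Tc`.** `n = NI b`, `F = 3 f n`; `q ≥ 1` an
integer (`t` in `DK/C`). Let `h = (q a, q b'; 3 n c, 3 n d)` (determinant `3 n q`), `α = gcd(q a, 3 n c) > 0`, `h = g' (α, β; 0, δ)`, `g'` in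
`SL_2(ℤ)`, `α δ = 3 n q` (as in `DK/C/Tcc` with `n` replaced by `3 n`). So `q (g z)/(3 n) = g'((α z + β)/δ)`, and
`Tc f b s (q g z) = F Th_ρs(g' w)`, `w = (α z + β)/δ` (`S_Red` (2)). `S_Cus` for `F` and `g'`: `HasE (D F²)`; `S_Exp` (3):
`HasE (D F² δ)`, and `D F² δ ∣ D 9 f² n² (3 n q) = 27 q D f² n³ ∣ M`, `S_Exp` (1), (2). -/
def S_Tcc : Prop := ∀ (k t : ℕ) [SqT k t] (f : ℕ) (b : Ideal (OO k t)) (s : ℤ), Fok f → b ≠ ⊥ →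
  ∀ a b' c d : ℤ, a * d - b' * c = 1 → ∀ q M : ℕ, 0 < q → 0 < M →
    27 * (q * (Dk k t * f ^ 2 * NI b ^ 3)) ∣ M →
    ∃ k0 : ℂ, HasE M (fun z => Tc f b s (q * mob a b' c d z)) k0

/-- (module C/Wid, 90 lines; new; uses S_Exp) **The width.** `W = M r`. `G(z) = k0 + ∑ e_n e(n z/W)`, `G(z + M) = G(z) + C`. If
`r = 1` nothing is to be shown. (i) `C = 0`: let `Im z → ∞` (`z = i y`): both `G(z)` and `G(z + M)` tend to `k0` (`S_Exp` (4)). (ii)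
AVERAGE: `G(z) - k0 = (1/r) ∑_(j < r) (G(z + j M) - k0) = ∑_n e_n e(n z/W) (1/r) ∑_(j < r) e(n j/r)` (finite sums of `HasSum`; `e(n (z + j M)/W) =
e(n z/W) e(n j/r)`), and the inner sum is `r` if `r ∣ n`, otherwise `0` (geometric sum of the root of unity `e(n/r) ≠ 1`). So
`G(z) - k0 = ∑_(r ∣ n) e_n e(n z/W) = ∑_m e_(r m) e(m z/M)` (`HasSum` along the injection `m ↦ r m`,
`Function.Injective.hasSum_iff`), `‖e_(r m)‖ ≤ C' (r m + 1)² ≤ C' r² (m + 1)²` (`C' ≥ 0` from `n = 0`). -/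
def S_Wid : Prop := ∀ (M r : ℕ) (G : ℂ → ℂ) (k0 C : ℂ), 0 < M → 0 < r → HasE (M * r) G k0 →
  (∀ z : ℂ, 0 < z.im → G (z + M) = G z + C) → HasE M G k0

/-! ## III. The smoothed series -/

/-- (module C/TrS, 100 lines; edit of DK/C/TrS; uses S_Tct, S_O2) **Transformation of `ThS` under `Γ_0(3 M)`.** `ν = NI m > 0`,
`n = NI b`, `NI (m b) = ν n` (`S_O2`). `3 D f² (ν n)³ ∣ 3 M ∣ c`. First term: `S_Tct` for `m b`. Second term: `ν (g z) = g'' (ν z)`,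
`g'' = (a, ν b'; c/ν, d)` (`c = ν c₁`, `3 D f² n ∣ c₁`), `S_Tct` for `b`, `g''`. Subtract, divide by `fr b`; the constant is the value at
`z = i`: `PhS`. -/
def S_TrS : Prop := ∀ (k t : ℕ) [SqT k t] (f M : ℕ) (m b : Ideal (OO k t)), FM f m → FB f b →
  IsLv f m {b} M → ∀ a b' c d : ℤ, G0 (3 * M) a b' c d → ∀ (s : ℤ) (z : ℂ), 0 < z.im →
    ThS f m b s (mob a b' c d z) = eps k t d * ThS f m b (a * s) z + PhS f m b s a b' c d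

/-- (module C/CuS, 60 lines; edit of DK/C/CuS; uses S_Tcc, S_Exp, S_O2) **Cusps of `ThS`.** `S_Tcc` for `m b`, `q = 1` and for `b`,
`q = NI m`; `27 D f² (NI m NI b)³ ∣ 27 M`; `S_Exp` (2) with `x = 1/fr b`, `y = -NI m/fr b`. -/
def S_CuS : Prop := ∀ (k t : ℕ) [SqT k t] (f M : ℕ) (m b : Ideal (OO k t)), FM f m → FB f b →
  IsLv f m {b} M → ∀ a b' c d : ℤ, a * d - b' * c = 1 → ∀ s : ℤ,
    ∃ k0 : ℂ, HasE (27 * M) (fun z => ThS f m b s (mob a b' c d z)) k0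

/-- (module C/C3, 130 lines; new; uses S_CuS, S_TrS, S_Red, S_Ech, S_Wid, S_Exp, S_O2) `S_C3`. Let `G(z) = ThM f m b (g z)`, `N = 3 M`; `S_CuS`
(`s = 1`): `HasE (27 M) G k0`. `g(z + N) = h (g z)` with `h = g (1 N; 0 1) g⁻¹ = (1 - a c N, a² N; -c² N, 1 + a c N)` (determinant
`1`, lower left entry divisible by `3 M`). `S_TrS` for `h`, `s = 1` at `g z`: `G(z + N) = ε(1 + a c N) ThS f m b (1 - a c N) (g z) + Φ`; `ε(1 + a c N) =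
ε(1) = 1` (`S_Ech` (2): `4 D ∣ N` as `D f² ∣ M`, `4 ∣ f`; both odd, prime to `D`), and `ThS f m b (1 - a c N) = ThS f m b 1` (`S_Red` (5) for `m b` and `b`:
`3 f ∣ N`, `f ∣ f² ∣ M`). So `G(z + N) = G(z) + Φ`, and `S_Wid` with `M := 3 M`, `r = 9` gives `HasE (3 M) G k0`, `S_Exp` (1): `HasE (9 M) G k0`.
Then as in `DK/C/C3`: `cf n = e (n + 1)`, `hasSum_nat_add_iff' 1` (`e 0 = 0`), `(n + 2)² ≤ 4 (n + 1)³`; `(9 * M : ℂ)` is the cast of `9 * M`. -/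
abbrev M_C3 : Prop := S_C3

/-- (module C/Val, 230 lines; edit of DK/C/Val; uses S_TrS, S_CuS, S_Exp) **The values `hS`.** Exactly as in `DK/C/Val` (the width
is `27 M`, the group `Γ_0(3 M)`). -/
def S_Val : Prop := ∀ (k t : ℕ) [SqT k t] (f M : ℕ) (m b : Ideal (OO k t)), FM f m → FB f b →
  IsLv f m {b} M →
  (∀ (s : ℤ) (r : ℚ), Tendsto (fun y : ℝ => ThS f m b s (r + y * Complex.I)) (𝓝[>] 0)
    (𝓝 (hS f m b s r))) ∧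
  ∀ a b' c d : ℤ, G0 (3 * M) a b' c d → ∀ s : ℤ,
    (∀ r : ℚ, (c : ℚ) * r + d ≠ 0 →
      hS f m b s (mobQ a b' c d r) = eps k t d * hS f m b (a * s) r + PhS f m b s a b' c d) ∧
    (d ≠ 0 → PhS f m b s a b' c d = hS f m b s (b' / d) - eps k t d * hS f m b (a * s) 0)

/-- (module C/Hom, 190 lines; edit of DK/C/Hom; uses S_Red, S_Tt, S_V0, S_O2, S_O4, S_O6, S_B12, S_R5) **Homogeneity.** (1) `Lam(a b) = a⁻¹
Lam b` (`lam_sp`), so `cs v₀ (a b) = a⁻¹ cs (a v₀) b`, `NI(a b) = a² NI b`; `S_Tt` (1), `S_Red` (3). (2) `cs v₀ (α b) = α⁻¹ cs (α v₀) b` and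
`(α - 1) v₀ ∈ O ⊆ Lam b` (`S_V0` (2)), so `cs (α v₀) b = cs v₀ b`. (3) `m (a b) = a (m b)`; by (1) `fr(a b) ThM f m (a b) z =
a (Tc f (m b) a z - ν Tc f b a (ν z)) = a fr(b) ThS f m b a z`. `a` is prime to `3`: `3 ∣ a - 1` (`jacobiSym a 3 = 1`; `(a : O) - 1 ∈ p̄` by `S_O4`) and
`fr(a b) = a fr(b)`, or `3 ∣ a + 1` (`jacobiSym a 3 = -1`) and `fr(a b) = -a fr(b)` (`S_B12`); `fr(b) ≠ 0` (`S_R5`; take `m := ⊤`, `b' := b`). `FB f (a b)`: `sp a` is prime to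
`cnd = sN f * p̄` (`S_O6`: `Cop`/`NI`; `p̄ ⊇ sN 3`). (4) `fr(α b) = α fr(b)` (`α - 1 ∈ cnd ⊆ p̄`, `S_B12`); `sp α` is prime to `cnd` (`S_O6` (7)). -/
def S_Hom : Prop := ∀ (k t : ℕ) [SqT k t] (f : ℕ), Fok f →
  (∀ b : Ideal (OO k t), b ≠ ⊥ → ∀ (a : ℤ) (z : ℂ), a ≠ 0 →
    Tc f (sp (a : OO k t) * b) 1 z = a * Tc f b a z) ∧
  (∀ b : Ideal (OO k t), b ≠ ⊥ → ∀ (α : OO k t) (z : ℂ), α ≠ 0 → α - 1 ∈ cnd k t f →
    Tc f (sp α * b) 1 z = toC α * Tc f b 1 z) ∧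
  (∀ m b : Ideal (OO k t), FM f m → FB f b → ∀ (a : ℤ) (z : ℂ), a ≠ 0 →
    IsCoprime a ((3 * f : ℕ) : ℤ) →
    FB f (sp (a : OO k t) * b) ∧
    ThS f m b a z = (jacobiSym a 3 : ℂ) * ThM f m (sp (a : OO k t) * b) z) ∧
  ∀ m b : Ideal (OO k t), FM f m → FB f b → ∀ (α : OO k t) (z : ℂ), α ≠ 0 → α - 1 ∈ cnd k t f →
    FB f (sp α * b) ∧ ThM f m (sp α * b) z = ThM f m b z

/-- (module C/Den, 90 lines; edit of DK/C/Den; no dependence) **Denominators.** `3 M ∣ c`, `M ≥ 3`, `a d - b' c = 1`: `a d = 1` modulo `3 M`.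
`r = p/q` in lowest terms, `q` prime to `M` (NOT to `3`): if `c p + d q = 0` then `M ∣ d q`, `M ∣ 1`. The denominator of
`g r = (a p + b' q)/(c p + d q)` divides `c p + d q = d q` modulo `M`; that of `b'/d` divides `d`. (Most of it is `Pool.Agent.DK.C.tDen` for `M` and for
`3 M`: `G0` of `DK` and of `DT` are the same conjunction.) -/
def S_Den : Prop := ∀ (M : ℕ) (a b' c d : ℤ), 3 ≤ M → G0 (3 * M) a b' c d →
  a ≠ 0 ∧ d ≠ 0 ∧ IsCoprime a ((3 * M : ℕ) : ℤ) ∧ IsCoprime d ((3 * M : ℕ) : ℤ) ∧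
  ((3 * M : ℕ) : ℤ) ∣ a * d - 1 ∧ (b' / d : ℚ).den.Coprime (3 * M) ∧
  ∀ r : ℚ, r.den.Coprime M → (c : ℚ) * r + d ≠ 0 ∧
    ((a * r + b') / (c * r + d) : ℚ).den.Coprime M

/-- (module C/C1, 90 lines; edit of DK/C/C1; uses S_Val, S_Hom, S_Den, S_C4, S_O2) `S_C1`. `ν = NI m ∣ M`; `16 ∣ M`, so `M ≥ 3`. By `S_Hom` (3):
`ThS f m b a = J(a|3) ThM f m (ab)` (`a` is prime to `3 M`, so to `3 f`), so `hS f m b a r = J(a|3) hM f m (ab) r` (limits: `S_C4` for `ab`, `S_Val` (1)) for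
`r.den` prime to `ν`. `S_Val` (2), (3) with `s = 1` (`a * 1 = a`): `hM(g r) = ε(d) (hS_a(r) - hS_a(0)) + hM(b'/d)`. All values are the images
under `io` of the `etaM` (`S_C4`: the denominators are prime to `ν` by `S_Den`); `io_inj`. -/
abbrev M_C1 : Prop := S_C1

/-- (module C/C2, 110 lines; edit of DK/C/C2; uses S_TrS, S_Val, S_Red, S_Ech, S_Den, S_C4, S_O2) `S_C2`. `d = 1` modulo `3 M`, so `a = 1` modulo `3 M`,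
`3 f ∣ a - 1`: `Tc f b a = Tc f b 1`, the same for `m b` (`S_Red` (5)), so `ThS f m b a = ThM f m b` and `hS f m b a = hM f m b`. `ε(d) = ε(1) = 1` (`S_Ech`;
`4 D ∣ D f² ∣ M`). `S_TrS` with `s = 1` and `S_Val` (3): the constant is `hM(b'/d) - hM(0) = io (etaM(b'/d) - etaM(0))` (`S_C4`). -/
abbrev M_C2 : Prop := S_C2

/-! ## IV. Values by Kronecker's series -/

/-- (module C/Spl, 200 lines; edit of DK/C/Spl; uses S_Lt, S_Tt, S_Red, S_V0) **Splitting modulo `n`.** Let `N' = NI b`, `z_u = v₀/n + u`, `u ∈ U`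
(a system of representatives of `Lam(n b)/Lam b`, `Lam(n b) = (1/n) Lam b` by `lam_sp`; `sN n = sp (n : O)`). `v ∈ cs v₀ b` iff
`v/n - v₀/n ∈ Lam(n b)` iff `v = n (z_u + λ)` with `u ∈ U`, `λ ∈ Lam b` (`u` unique): `cs v₀ b` is the disjoint union of the `n cs(z_u) b`. `S_Tt` (5),
(1): `Tc f b 1 (q z) = TT (cs v₀ b) (3 f² N') (q z) = ∑_u n⁻¹ TT (cs z_u b) (3 f² N' n²) (q z)`. With `z = c/n + i y`, `v ∈ cs z_u b`, `v = z_u + λ`: `n v = x + n λ`,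
`x = v₀ + n u ∈ cs v₀ b` (`n u ∈ Lam b`), and `3 f² N' ‖x + n λ‖²` is `3 f² N' ‖x‖²` modulo `n`: their difference is `n` times an integer (`S_V0` (6)); so
`e(3 f² N' n² ‖v‖² q c/n) = e(c q (3 f² N' ‖x‖²)/n)`, and `e(3 f² N' n² ‖v‖² q i y) = exp(-2π y 3 f² N' q n² ‖v‖²)`; the sum over `cs z_u b` of `v⁻¹ exp(-τ ‖v‖²)` is
`KtC b τ z_u` (`S_Lt` (3)). (`q` is the variable `t` of `DK/C/Spl`.) -/
def S_Spl : Prop := ∀ (k t : ℕ) [SqT k t] (f n q : ℕ) (b : Ideal (OO k t)) (c : ℤ) (U : Finset ℂ),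
  Fok f → 0 < n → 0 < q → b ≠ ⊥ → IsSys (sN k t n) b U → ∀ y : ℝ, 0 < y →
    Tc f b 1 (q * ((c : ℂ) / n + y * Complex.I)) = (n : ℂ)⁻¹ *
      ∑ u ∈ U, ex (c * (q * (3 * f ^ 2 * NI b * ‖v0 k t f + n * u‖ ^ 2)) / n) *
        KtC b (2 * Real.pi * y * (3 * f ^ 2 * NI b) * q * n ^ 2) (v0 k t f / n + u)

/-- (module C/C4a, 170 lines; edit of DK/C/C4a; uses S_Spl, S_V0, S_O2, S_O6, S_L5, S_B10) **The limits.** `ν = NI m`, `n` prime to `ν`, so `PrI m (sN n)`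
(`S_O6` (5)). (i) `U` is a system for `sN n`, `m b` too: `Lam(n (m b))`, `S_L5` with `n := sN n`, `a = m`: existence by its second claim, uniqueness
by the first. (ii) for `u ∈ U`: `x = v₀ + n u ∈ cs v₀ b ⊆ cs v₀ (m b)`, so `3 f² NI(m b) ‖x‖²` is an integer (`S_V0` (5), `s = 1`; `NI(m b) = ν NI b`), `= qN f m b x`
(`Int.floor`). (iii) `z_u = v₀/n + u ∉ Lam(m b)`: otherwise `v₀ = n z_u - n u ∈ Lam(m b)`, against `S_V0` (4): `m b` is prime to `cnd` (`S_O6` (1), (2), (4):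
`m` is prime to `sN (3 f) = sN 3 * sN f`, `sN 3 = pp ppb ≤ ppb`). `z_u` is torsion (`v0_eq`, `tor_div`, `tor_lam`; `n u ∈ Lam b`). (iv) `S_Spl` for
`m b`, `q = 1` and for `b`, `q = ν`: at `z = c/n + i y` `fr(b) ThM = n⁻¹ ∑_u e(c qN/n) (KtC (m b) τ z_u - ν KtC b τ z_u)`, `τ = 2π y 3 f² NI(m b) n² → 0+` (the
same `τ` in both), `S_B10` (1) (`z_u ∉ Lam b` too: `lam_mono`), and `gC = (K(m b) - ν K(b))/fr(b)`. -/
def S_C4a : Prop := ∀ (k t : ℕ) [SqT k t] (f : ℕ) (m b : Ideal (OO k t)), FM f m → FB f b →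
  ∀ (c : ℤ) (n : ℕ), 0 < n → n.Coprime (NI m) → ∀ U : Finset ℂ, IsSys (sN k t n) b U →
    (∀ u ∈ U, (qN f m b (v0 k t f + n * u) : ℝ) =
      3 * (f : ℝ) ^ 2 * NI m * NI b * ‖v0 k t f + n * u‖ ^ 2) ∧
    (∀ u ∈ U, v0 k t f / n + u ∉ Lam (m * b) ∧ Tor k t (v0 k t f / n + u)) ∧
    Tendsto (fun y : ℝ => ThM f m b (((c / n : ℚ) : ℂ) + y * Complex.I)) (𝓝[>] 0)
      (𝓝 ((n : ℂ)⁻¹ * ∑ u ∈ U, ex (c * qN f m b (v0 k t f + n * u) / n) *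
        gC m b (v0 k t f / n + u)))

/-- (module C/C4, 90 lines; edit of DK/C/C4; uses S_C4a, S_L3, S_R5, S_O6) `S_C4`. A system `U` exists (`S_L3`, `sN n ≠ ⊥`). `hM` is the limit
(`Tendsto.limUnder_eq`), `= n⁻¹ ∑ e(c qN/n) gC(z_u)`. `ex (1/n)` is a root of unity (algebraic), so `io (zet n) = ex (1/n)`
(`io_ofC`), `io (zet n ^ j) = ex (j/n)`; `io (gO m b z_u) = gC m b z_u` (`S_R5`: `m` is prime to `sN 6`, because `2 ∣ f`; `b` is prime to `ppb`). So `hM` is the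
image under `io` of the right hand side of the formula, and `etaM = ofC hM` (`ofC_io`). -/
abbrev M_C4 : Prop := S_C4

/-! ## V. Distribution, class functions, coefficients -/

/-- (module C/Di1, 230 lines; new; uses S_Lt, S_V0, S_O2, S_O3, S_O4, S_O6) **The vectors with `3 ∣ N(C_v)`.** `n = NI b`,
`q(v) = 3 f² n ‖v‖²`. `γ ∈ pp * c ≤ pp`, `γ ∈ c`, `c ≠ ⊥`, `Nm γ = NI (sp γ) = NI pp * NI c = 3 NI c` (`S_O2`, `S_O4`). `sp γ` is prime to `cnd` (`S_O6` (7),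
`γ - 1 ∈ cnd`), so `c` is (`S_O6` (1)), and `c * b`. (2) `γ v' - v₀ = (γ - 1) v₀ + γ (v' - v₀)`: `(γ - 1) v₀ ∈ O ⊆ Lam b` (`S_V0` (2)), `γ λ ∈ Lam b` for `λ ∈ Lam(c b)`
(`γ ∈ c`, `lam_prod`). (1) Let `v ∈ cs v₀ b`, `y = v - γ v₀`: `y ∈ Lam b` (as before), `y = toC u'/n`, `u' ∈ cjI b` (`S_Lt` (2)). (A)
`q(v) = 3 f² n (‖γ v₀‖² + 2 Re(γ v₀ conj y) + ‖y‖²)`, and with `v₀ = α₀/(3 f)`: `3 f² n ‖γ v₀‖² = n Nm γ Nm α₀/3 = 3 n NI c (3 + t f + k f²)` (`Nm α₀ = 9 + 3 t f + 3 k f²`);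
`3 f² n 2 Re(γ v₀ conj y) = f Tr x`, `x = γ α₀ cjO u'`, `Tr x = 2 x.re + t x.im`; `3 f² n ‖y‖² = 3 f² (n ‖y‖²)`, `n ‖y‖² ∈ ℕ` (`S_Lt` (4)). So (`q(v)` is a natural number, `S_V0` (5))
`3 ∣ q(v)` iff `3 ∣ f Tr x` iff `3 ∣ Tr x` (`f` prime to `3`). (B) `x ∈ pp`, so `3 ∣ x.re` (`S_O4`); `t = 1` modulo `3` (`SqT.out`); so `3 ∣ Tr x` iff `3 ∣ x.im` iff `3 ∣ x.re + x.im` iff
`x ∈ ppb` (`S_O4`) iff `cjO u' ∈ ppb` (`ppb` is prime; `γ ∉ ppb` because `γ - 1 ∈ cnd ≤ ppb`; `α₀ ∉ ppb`: `re + im = 3 + f`) iff `u' ∈ pp` (`cjO u' ∈ ppb` iff `u' ∈ cjI ppb = pp`: `S_O3` (1), `S_O4`).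
(C) `u' ∈ pp` iff `y/γ ∈ Lam(c b)`. `⇒`: `cjI b` is prime to `pp` (`b` is prime to `cnd ≤ ppb`; conjugate: `S_O3` (6), `S_O4`), so `u' ∈ pp ⊓ cjI b = pp * cjI b`
(`Ideal.inf_eq_mul_of_isCoprime` or `1 = e + e'`). For `β ∈ b`: `u' β ∈ pp * (cjI b * b) = pp * sN n` (`S_O3`), so `u' β = n x'`, `x' ∈ pp`, and for `c' ∈ c`: `x' c' ∈ pp * c = sp γ`, `= γ x''`:
`(y/γ) c' β = toC x''`. So `y/γ ∈ Lam(c b)` (`lam_prod`). `⇐`: `y = γ λ`, `λ ∈ Lam(c b)`. For `β ∈ b`: `λ β c ⊆ O`, and `γ ∈ pp * c`, so `γ λ β ∈ pp` (`Submodule.mul_induction_on` on `γ ∈ pp * c`: every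
element of `pp * c` times `λ β` is in `toC '' pp`). So `u' β ∈ n pp` for all `β ∈ b`: `sp u' * b ≤ sN n * pp = b * (cjI b * pp)`; cancel `b ≠ ⊥` (Dedekind domain): `u' ∈ cjI b * pp ≤ pp`.
(D) `v = γ v'` with `v' ∈ cs v₀ (c b)` iff `v/γ - v₀ = y/γ ∈ Lam(c b)`. -/
def S_Di1 : Prop := ∀ (k t : ℕ) [SqT k t] (f : ℕ) (b c : Ideal (OO k t)) (γ : OO k t), Fok f →
  FB f b → sp γ = pp k t * c → γ - 1 ∈ cnd k t f → γ ≠ 0 →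
  (∀ v ∈ cs (v0 k t f) b, (∃ j : ℕ, 3 * (f : ℝ) ^ 2 * NI b * ‖v‖ ^ 2 = 3 * j) ↔
    ∃ v' ∈ cs (v0 k t f) (c * b), v = toC γ * v') ∧
  (∀ v' ∈ cs (v0 k t f) (c * b), toC γ * v' ∈ cs (v0 k t f) b) ∧
  c ≠ ⊥ ∧ (Nm γ : ℤ) = 3 * NI c ∧ FB f (c * b)

/-- (module C/Dis, 150 lines; new; uses S_Di1, S_Lt, S_Tt, S_Red, S_V0, S_O2) **The distribution relation for `3`.** `n = NI b`, `A = cs v₀ b`,
`q(v) = 3 f² n ‖v‖² ∈ ℕ` for `v ∈ A` (`S_V0` (5)). `∑_(j < 3) Tc f b 1 ((z + j)/3) = ∑_A v⁻¹ e(q(v) z/3) ∑_j e(q(v) j/3) = 3 ∑_(v ∈ A, 3 ∣ q(v)) v⁻¹ e(q(v) z/3)` (summability: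
`S_Lt` (7)) `= 3 TT (A') (3 f² n) (z/3)`, `A' = {v ∈ A | 3 ∣ q(v)} = γ ⋅ cs v₀ (c b)` (`S_Di1`) `= 3 γ⁻¹ TT (cs v₀ (c b)) (3 f² n |γ|²) (z/3)` (`S_Tt` (1)), `|γ|² = 3 NI c`, so this is
`3 γ⁻¹ TT (cs v₀ (c b)) (3 f² NI(c b)) z = (3/γ) Tc f (c b) 1 z` (`S_Tt` (3), `S_Red` (3)). -/
def S_Dis : Prop := ∀ (k t : ℕ) [SqT k t] (f : ℕ) (b c : Ideal (OO k t)) (γ : OO k t), Fok f →
  FB f b → sp γ = pp k t * c → γ - 1 ∈ cnd k t f → γ ≠ 0 → ∀ z : ℂ, 0 < z.im →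
    ∑ j ∈ Finset.range 3, Tc f b 1 ((z + j) / 3) = 3 / toC γ * Tc f (c * b) 1 z

/-- (module C/C5, 150 lines; compare DK/C/C5; uses S_Dis, S_Di1, S_Red, S_C4, S_R5, S_O2, S_O6) `S_C5`. `ν = NI m` is prime to `3` (`S_O6` (5)). `FB f (c b)`: `S_Di1`. `S_Dis`
for `m b` at `z` (`FB f (m b)`; `c (m b) = m (c b)`) and for `b` at `ν z`; `∑_(j < 3) Tc f b 1 (ν (z + j)/3) = ∑_(j < 3) Tc f b 1 ((ν z + j)/3)` because `j ↦ ν j` permutes the residues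
modulo `3` and `Tc` has period `1` (`S_Red` (4)): cases `ν = 1, 2` modulo `3`. Subtract: `∑_j ThM f m b ((z + j)/3) = (3/γ) (fr(c b)/fr(b)) ThM f m (c b) z` (`fr(c b) ≠ 0`, `fr b ≠ 0`: `S_R5`).
Vertical limits at `z = r + i y`: `(z + j)/3 = (r + j)/3 + i (y/3)` (`S_C4` at the rational numbers `(r + j)/3`, `r`; the denominators divide `3 r.den`, prime to `ν`; a
rational number `x` is `x.num / x.den`), `io (rO b (c b)) = fr(c b)/fr(b)`, `io (toO γ) = toC γ`, `io_inj`. -/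
abbrev M_C5 : Prop := S_C5

/-- (module C/C6, 90 lines; compare DK/C/C6; uses S_Hom, S_Red, S_O6) `S_C6`. (1) `Ray cnd b b'`: `sp α * b = sp α' * b'`, `α - α' ∈ cnd`, `sp α` prime to `cnd`. `S_O6` (8):
`x ∈ sp α`, `x ≠ 0`, `x - 1 ∈ cnd`; `x = β α`, `β ≠ 0`, `α' β - 1 = (α β - 1) - (α - α') β ∈ cnd`, `α' β ≠ 0` (`α' ≠ 0`; `O` is a domain);
`sp (α β) * b = sp (α' β) * b'`, and `S_Hom` (4) twice. `etaM` is defined from the function `ThM` (`hM = limUnder ..`): equal functions, equal values. (2) `Tc(z + 1) = Tc(z)`,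
`ν (z + 1) = ν z + ν` (`S_Red` (4)): `ThM(z + 1) = ThM(z)` for all `z`, the same function under the limit. -/
abbrev M_C6 : Prop := S_C6

/-- (module C/C7a, 200 lines; edit of DK/C/C7a; uses S_Lt, S_V0, S_Bas, S_O2, S_O6) **The sets `vN`.** `v - v₀ ∈ Lam b` and `3 f² n ‖v‖² = j`: `3 f n v = toC u`, `N u = 3 n j`, and
the number of such `u` is at most `(12 n j + 1)²` (`x² + y² ≤ 4 N u`), so the set is finite with at most `C (j + 1)²` elements. For `m b`: `v ≠ 0`, because `v₀ ∉ Lam(m b)`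
(`S_V0` (4), `m b` is prime to `cnd`). `‖v⁻¹‖ ≤ C` (`S_Lt` (6)). -/
def S_C7a : Prop := ∀ (k t : ℕ) [SqT k t] (f : ℕ) (m b : Ideal (OO k t)), FM f m → FB f b →
  v0 k t f ∉ Lam (m * b) ∧
  (∀ (n : ℕ) (v : ℂ), v ∈ vN f (m * b) n ↔
    v - v0 k t f ∈ Lam (m * b) ∧ 3 * (f : ℝ) ^ 2 * NI (m * b) * ‖v‖ ^ 2 = n) ∧
  vN f (m * b) 0 = ∅ ∧ ∃ C : ℝ, ∀ n : ℕ, ‖cM f m b n‖ ≤ C * (n + 1) ^ 2

/-- (module C/C7, 200 lines; edit of DK/C/C7; uses S_C7a, S_Lt, S_Tt, S_Red, S_Der, S_V0, S_O2) `S_C7`. HOLOMORPHY: `S_Red` (2) and `S_Der` (1) for `m b` and `b`. SERIES: `fr(b) ThM =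
∑_(cs v₀ (m b)) v⁻¹ e(3 f² NI(m b) ‖v‖² z) - ν ∑_(cs v₀ b) v⁻¹ e(3 f² NI b ‖v‖² ν z)`, `ν NI b = NI(m b)`, `cs v₀ b ⊆ cs v₀ (m b)` (`lam_mono`): one absolutely convergent sum
over `cs v₀ (m b)` with the weight `1 - ν [v - v₀ ∈ Lam b]`. Group by `n = 3 f² NI(m b) ‖v‖²` (a natural number, `S_V0` (5)): `HasSum.sigma` for the fibres, which are the finite sets
`vN f (m b) n`. The rest is `S_C7a`. -/
abbrev M_C7 : Prop := S_C7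

end Pool.Agent.DT.C
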